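import Pool.Agent.Lib_MP_008adc_co.IterC

/-!
# From binary logarithms to natural logarithms
-/

set_option autoImplicit false

namespace HadCalc

/-- iterated logarithm, never below one -/
noncomputable def il : ℕ → ℝ → ℝ
  | 0, x => x
  | k + 1, x => max 1 (Real.log (il k x))

/-- iterated binary logarithm -/
def nl : ℕ → ℕ → ℕ
  | 0, n => n
  | k + 1, n => Nat.log 2 (nl k n) + 1

theorem one_le_il {k : ℕ} {x : ℝ} (hx : 1 ≤ x) : 1 ≤ il k x := by
  cases k with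
  | zero => exact hx
  | succ k => exact le_max_left _ _

theorem nlog_le {n : ℕ} {B y : ℝ} (hB : 1 ≤ B) (hy : 1 ≤ y) (h : (n : ℝ) ≤ B * y) :
    ((Nat.log 2 n + 1 : ℕ) : ℝ) ≤ (2 * B + 2) * max 1 (Real.log y) := by
  have hl2 : (0.6931471803 : ℝ) < Real.log 2 := Real.log_two_gt_d9
  have hm : (1 : ℝ) ≤ max 1 (Real.log y) := le_max_left _ _
  rcases Nat.eq_zero_or_pos n with h0 | h0
  · rw [h0]
    push_cast
    rw [Nat.log_zero_right]
    push_cast
    nlinarith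
  have hn : (0 : ℝ) < n := by exact_mod_cast h0
  have h1 : 2 ^ (Nat.log 2 n) ≤ n := Nat.pow_log_le_self 2 (by omega)
  have h2 : ((2 : ℝ) ^ (Nat.log 2 n)) ≤ n := by exact_mod_cast h1
  have h3 : ((Nat.log 2 n : ℕ) : ℝ) * Real.log 2 ≤ Real.log n := by
    rw [← Real.log_pow]
    exact Real.log_le_log (by positivity) h2
  have h4 : Real.log n ≤ Real.log B + Real.log y := by
    rw [← Real.log_mul (by linarith) (by linarith)]
    exact Real.log_le_log hn h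
  have h5 : Real.log B ≤ B - 1 := Real.log_le_sub_one_of_pos (by linarith)
  have h6 : Real.log y ≤ max 1 (Real.log y) := le_max_right _ _
  have h7 : (0 : ℝ) ≤ (Nat.log 2 n : ℕ) := Nat.cast_nonneg _
  push_cast
  nlinarith

theorem nl_le (k : ℕ) {B : ℝ} (hB : 1 ≤ B) : ∃ A : ℝ, 1 ≤ A ∧ ∀ (n : ℕ) (x : ℝ), 1 ≤ x →
    (n : ℝ) ≤ B * x → (nl k n : ℝ) ≤ A * il k x := by
  induction k with
  | zero => exact ⟨B, hB, fun n x _ h => h⟩
  | succ k ih =>
    obtain ⟨A, hA, h⟩ := ih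
    refine ⟨2 * A + 2, by linarith, fun n x hx hn => ?_⟩
    exact nlog_le hA (one_le_il hx) (h n x hx hn)

/-- The exponent `e` of `q`. -/
theorem exists_exp {q : ℕ} (hq : 16 ≤ q) : ∃ e : ℕ, 1 ≤ e ∧ q < 2 ^ (2 ^ e) ∧
    1 ≤ Real.log (Real.log q) ∧ (e : ℝ) ≤ 4 * Real.log (Real.log q) := by
  set x : ℝ := Real.log (Real.log q) with hx
  have hl2 : (0.6931471803 : ℝ) < Real.log 2 := Real.log_two_gt_d9
  have hq0 : (0 : ℝ) < q := by
    have : 0 < q := by omega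
    exact_mod_cast this
  have hlogq : 4 * Real.log 2 ≤ Real.log q := by
    have h1 : Real.log ((2 : ℝ) ^ 4) ≤ Real.log q := by
      apply Real.log_le_log (by norm_num)
      have h0 : (16 : ℝ) ≤ q := by exact_mod_cast hq
      linarith
    rw [Real.log_pow] at h1
    exact_mod_cast h1
  have hlogq0 : 0 < Real.log q := by linarith
  have hx1 : 1 ≤ x := by
    rw [hx, Real.le_log_iff_exp_le hlogq0]
    have := Real.exp_one_lt_d9
    linarith
  set L : ℕ := Nat.log 2 q with hL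
  have hL4 : 4 ≤ L := by
    rw [hL]
    exact Nat.le_log_of_pow_le (by norm_num) (by norm_num; exact hq)
  have hLq : (L : ℝ) * Real.log 2 ≤ Real.log q := by
    have h1 : 2 ^ L ≤ q := Nat.pow_log_le_self 2 (by omega)
    have h2 : ((2 : ℝ) ^ L) ≤ q := by exact_mod_cast h1
    rw [← Real.log_pow]
    exact Real.log_le_log (by positivity) h2
  have hLr : (L : ℝ) ≤ 3 / 2 * Real.log q := by
    have h3 : (0 : ℝ) ≤ L := Nat.cast_nonneg L
    nlinarith
  have hL0 : (0 : ℝ) < L := by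
    have : 0 < L := by omega
    exact_mod_cast this
  have hlogL : Real.log L ≤ x + 1 / 2 := by
    have h1 : Real.log L ≤ Real.log (3 / 2 * Real.log q) := Real.log_le_log hL0 hLr
    rw [Real.log_mul (by norm_num) hlogq0.ne'] at h1
    have h2 : Real.log (3 / 2) ≤ 3 / 2 - 1 := Real.log_le_sub_one_of_pos (by norm_num)
    rw [← hx] at h1
    linarith
  have heL : ((Nat.log 2 L : ℕ) : ℝ) * Real.log 2 ≤ Real.log L := by
    have h1 : 2 ^ (Nat.log 2 L) ≤ L := Nat.pow_log_le_self 2 (by omega)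
    have h2 : ((2 : ℝ) ^ (Nat.log 2 L)) ≤ L := by exact_mod_cast h1
    rw [← Real.log_pow]
    exact Real.log_le_log (by positivity) h2
  refine ⟨Nat.log 2 L + 1, by omega, ?_, hx1, ?_⟩
  · have h1 : q < 2 ^ (L + 1) := Nat.lt_pow_succ_log_self (by norm_num) q
    have h2 : L < 2 ^ (Nat.log 2 L + 1) := Nat.lt_pow_succ_log_self (by norm_num) L
    exact lt_of_lt_of_le h1 (Nat.pow_le_pow_right (by norm_num) h2)
  · push_cast
    have h3 : (0 : ℝ) ≤ (Nat.log 2 L : ℕ) := Nat.cast_nonneg _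
    nlinarith

/-- From covers to Hadamard matrices. -/
theorem Cov.hadOrder {e f c q t : ℕ} (h : Cov (2 ^ e) f c) (hq0 : 0 < q)
    (hq : q < 2 ^ (2 ^ e)) (ht : f + c + 1 ≤ t) : HadOrder (2 ^ t * q) := by
  have hhad := Av.hadOrder (h q hq) (by omega)
  have h10 := hhad.two_pow_mul (t - (f + c + 1))
  have h11 : 2 ^ (t - (f + c + 1)) * (2 ^ (f + c) * (2 * q)) = 2 ^ t * q := by
    have h12 : t = (t - (f + c + 1)) + ((f + c) + 1) := by omega
    conv_rhs => rw [h12, pow_add, pow_succ]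
    ring
  rwa [h11] at h10

/-- The real form, for an arbitrary bound. -/
theorem had_real (V : ℕ → ℕ) (U : ℝ → ℝ) {A : ℝ} (hA : 0 ≤ A)
    (hVU : ∀ (e : ℕ) (x : ℝ), 1 ≤ x → (e : ℝ) ≤ 4 * x → (V e : ℝ) ≤ A * U x)
    (hU : ∀ x : ℝ, 1 ≤ x → 1 ≤ U x) (f₀ : ℕ) (H : ∀ e : ℕ, 1 ≤ e → Cov (2 ^ e) f₀ (V e)) :
    ∃ C : ℝ, 0 < C ∧ ∀ q t : ℕ, 16 ≤ q → C * U (Real.log (Real.log q)) ≤ t →
      HadOrder (2 ^ t * q) := by
  refine ⟨A + f₀ + 1, by positivity, fun q t hq ht => ?_⟩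
  obtain ⟨e, he, hqe, hx, hex⟩ := exists_exp hq
  refine (H e he).hadOrder (by omega) hqe ?_
  have h1 := hVU e _ hx hex
  have h2 := hU _ hx
  have h3 : ((f₀ + V e + 1 : ℕ) : ℝ) ≤ t := by
    refine le_trans ?_ ht
    push_cast
    have h4 : (0 : ℝ) ≤ f₀ := Nat.cast_nonneg _
    nlinarith
  exact_mod_cast h3

/-- The version `e * nl k e`. -/
theorem had_real_nl (k C₀ f₀ : ℕ) (H : ∀ e : ℕ, 1 ≤ e → Cov (2 ^ e) f₀ (C₀ * (e * nl k e))) :
    ∃ C : ℝ, 0 < C ∧ ∀ q t : ℕ, 16 ≤ q →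
      C * (Real.log (Real.log q) * il k (Real.log (Real.log q))) ≤ t → HadOrder (2 ^ t * q) := by
  obtain ⟨A, hA, hnl⟩ := nl_le k (B := 4) (by norm_num)
  refine had_real (fun e => C₀ * (e * nl k e)) (fun x => x * il k x) (A := C₀ * (4 * A))
    (by positivity) (fun e x hx hex => ?_) (fun x hx => ?_) f₀ H
  · have h1 := hnl e x hx hex
    push_cast
    have h2 : (e : ℝ) * (nl k e : ℝ) ≤ (4 * x) * (A * il k x) :=
      mul_le_mul hex h1 (Nat.cast_nonneg _) (by linarith)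
    have h3 : (0 : ℝ) ≤ C₀ := Nat.cast_nonneg _
    calc (C₀ : ℝ) * (e * nl k e) ≤ C₀ * ((4 * x) * (A * il k x)) :=
          mul_le_mul_of_nonneg_left h2 h3
      _ = C₀ * (4 * A) * (x * il k x) := by ring
  · have h1 := one_le_il (k := k) hx
    show 1 ≤ x * il k x
    nlinarith

/-- `n`, `log n`, ..., with the last factor squared: `W k n = n (log n) ... (log_k n) ^ 2` -/
def Wn : ℕ → ℕ → ℕ
  | 0, n => n ^ 2
  | k + 1, n => n * Wn k (Nat.log 2 n + 1)

/-- the same with natural logarithms, never below one -/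
noncomputable def Wr : ℕ → ℝ → ℝ
  | 0, x => x ^ 2
  | k + 1, x => x * Wr k (max 1 (Real.log x))

theorem one_le_Wr (k : ℕ) : ∀ x : ℝ, 1 ≤ x → 1 ≤ Wr k x := by
  induction k with
  | zero =>
    intro x hx
    show 1 ≤ x ^ 2
    nlinarith
  | succ k ih =>
    intro x hx
    have h1 := ih (max 1 (Real.log x)) (le_max_left _ _)
    show 1 ≤ x * Wr k (max 1 (Real.log x))
    nlinarith

theorem Wn_le (k : ℕ) : ∀ B : ℝ, 1 ≤ B → ∃ A : ℝ, 1 ≤ A ∧ ∀ (n : ℕ) (x : ℝ), 1 ≤ x →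
    (n : ℝ) ≤ B * x → (Wn k n : ℝ) ≤ A * Wr k x := by
  induction k with
  | zero =>
    intro B hB
    refine ⟨B ^ 2, by nlinarith, fun n x hx h => ?_⟩
    show ((n ^ 2 : ℕ) : ℝ) ≤ B ^ 2 * x ^ 2
    push_cast
    rw [← mul_pow]
    exact pow_le_pow_left₀ (Nat.cast_nonneg _) h 2
  | succ k ih =>
    intro B hB
    obtain ⟨A, hA, h⟩ := ih (2 * B + 2) (by linarith)
    refine ⟨B * A, by nlinarith, fun n x hx hn => ?_⟩
    have h1 := h (Nat.log 2 n + 1) (max 1 (Real.log x)) (le_max_left _ _) (nlog_le hB hx hn)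
    show ((n * Wn k (Nat.log 2 n + 1) : ℕ) : ℝ) ≤ B * A * (x * Wr k (max 1 (Real.log x)))
    push_cast
    calc (n : ℝ) * (Wn k (Nat.log 2 n + 1) : ℝ) ≤ (B * x) * (A * Wr k (max 1 (Real.log x))) :=
          mul_le_mul hn h1 (Nat.cast_nonneg _) (by positivity)
      _ = B * A * (x * Wr k (max 1 (Real.log x))) := by ring

/-- The version with all factors. -/
theorem had_real_W (k C₀ f₀ : ℕ) (H : ∀ e : ℕ, 1 ≤ e → Cov (2 ^ e) f₀ (C₀ * Wn k e)) :
    ∃ C : ℝ, 0 < C ∧ ∀ q t : ℕ, 16 ≤ q →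
      C * Wr k (Real.log (Real.log q)) ≤ t → HadOrder (2 ^ t * q) := by
  obtain ⟨A, hA, hW⟩ := Wn_le k 4 (by norm_num)
  refine had_real (fun e => C₀ * Wn k e) (fun x => Wr k x) (A := C₀ * A)
    (by positivity) (fun e x hx hex => ?_) (fun x hx => one_le_Wr k x hx) f₀ H
  have h1 := hW e x hx hex
  push_cast
  have h3 : (0 : ℝ) ≤ C₀ := Nat.cast_nonneg _
  calc (C₀ : ℝ) * (Wn k e : ℝ) ≤ C₀ * (A * Wr k x) := mul_le_mul_of_nonneg_left h1 h3
    _ = C₀ * A * Wr k x := by ring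

end HadCalc
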