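import Pool.Agent.Lib_MP_008adc_oct.OStarDet

/-!
# Iterated logarithms: consequences of the log star forms
-/

set_option autoImplicit false

namespace HadCalc

theorem two_pow_le_tow (m : ℕ) : 2 ^ m ≤ tow m := by
  induction m with
  | zero => exact le_rfl
  | succ m ih =>
    rw [tow_succ]
    apply Nat.pow_le_pow_right (by norm_num)
    have := Nat.lt_two_pow_self (n := m)
    omega

theorem tow_lt_succ (m : ℕ) : tow m < tow (m + 1) := by
  rw [tow_succ]
  exact Nat.lt_two_pow_self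

theorem tow_mono {i j : ℕ} (h : i ≤ j) : tow i ≤ tow j :=
  monotone_nat_of_le_succ (fun m => (tow_lt_succ m).le) h

theorem exists_tow (n : ℕ) (hn : 0 < n) : ∃ j, tow j ≤ n ∧ n < tow (j + 1) := by
  have h1 : ∃ m, n < tow (m + 1) := by
    refine ⟨n, lt_of_lt_of_le (Nat.lt_two_pow_self (n := n)) ?_⟩
    refine (Nat.pow_le_pow_right (by norm_num) (Nat.le_succ n)).trans (two_pow_le_tow _)
  classical
  obtain ⟨j, hj⟩ : ∃ j, j = Nat.find h1 := ⟨_, rfl⟩
  have h2 : n < tow (j + 1) := by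
    rw [hj]
    exact Nat.find_spec h1
  refine ⟨j, ?_, h2⟩
  cases j with
  | zero => exact hn
  | succ j =>
    have h3 := Nat.find_min h1 (m := j) (by omega)
    exact not_lt.1 h3

/-- A logarithm lowers the height of the tower by one. -/
theorem log_tow {i : ℕ} (hi : 2 ≤ i) {y : ℝ} (hy : (tow (i + 1) : ℝ) / 2 ≤ y) :
    (tow i : ℝ) / 2 ≤ Real.log y := by
  have h4 : (4 : ℝ) ≤ tow i := by
    have h1 : 2 ^ 2 ≤ tow i := (Nat.pow_le_pow_right (by norm_num) hi).trans (two_pow_le_tow i)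
    exact_mod_cast h1
  have hl := Real.log_two_gt_d9
  have hl' := Real.log_two_lt_d9
  have hpos : (0 : ℝ) < (tow (i + 1) : ℝ) / 2 := by
    have := one_le_tow (i + 1)
    have : (1 : ℝ) ≤ tow (i + 1) := by exact_mod_cast this
    linarith
  refine le_trans ?_ (Real.log_le_log hpos hy)
  rw [Real.log_div (by linarith) (by norm_num), tow_succ]
  push_cast
  rw [Real.log_pow]
  nlinarith

theorem iter_log_tow (k : ℕ) : ∀ (i : ℕ) (y : ℝ), 2 ≤ i → (tow (i + k) : ℝ) / 2 ≤ y →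
    (tow i : ℝ) / 2 ≤ Real.log^[k] y := by
  induction k with
  | zero =>
    intro i y _ hy
    exact hy
  | succ k ih =>
    intro i y hi hy
    rw [Function.iterate_succ_apply]
    apply ih i _ hi
    exact log_tow (by omega) (by rwa [← add_assoc] at hy)

theorem exp_exp_le (x : ℕ) {T : ℕ} (hT : 2 * x + 2 ≤ T) :
    Real.exp (Real.exp x) ≤ (2 : ℝ) ^ (2 ^ T) / 2 := by
  have hl := Real.log_two_gt_d9
  have h1 : Real.exp x ≤ (2 : ℝ) ^ (2 * x) := by
    rw [show (2 : ℝ) ^ (2 * x) = Real.exp (((2 * x : ℕ) : ℝ) * Real.log 2) by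
      rw [Real.exp_nat_mul, Real.exp_log (by norm_num)]]
    apply Real.exp_le_exp.2
    push_cast
    have : (0 : ℝ) ≤ x := Nat.cast_nonneg x
    nlinarith
  have h2 : (2 : ℝ) ^ (2 * x) * 4 ≤ 2 ^ T := by
    have h3 : (2 : ℝ) ^ (2 * x) * 4 = 2 ^ (2 * x + 2) := by ring
    rw [h3]
    exact pow_le_pow_right₀ (by norm_num) hT
  have h5 : (1 : ℝ) ≤ 2 ^ (2 * x) := one_le_pow₀ (by norm_num)
  rw [show (2 : ℝ) ^ (2 ^ T) / 2 = Real.exp (((2 ^ T : ℕ) : ℝ) * Real.log 2 - Real.log 2) by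
    rw [Real.exp_sub, Real.exp_nat_mul, Real.exp_log (by norm_num)]]
  apply Real.exp_le_exp.2
  push_cast
  nlinarith

/-- For every `k` and `C`, a double exponential of `C ^ (j + 1)` is below the `k`-fold logarithm
of all large `n ≥ tow j`. -/
theorem star_growth (C k : ℕ) : ∃ n₀ : ℕ, ∀ n : ℕ, n₀ ≤ n → ∃ j : ℕ, n < tow (j + 1) ∧
    Real.exp (Real.exp ((C : ℝ) ^ (j + 1))) ≤ Real.log^[k] n := by
  -- C ≤ 2 ^ C
  obtain ⟨B, hB⟩ : ∃ B, B = 2 * (C + C * (k + 4) + 3) + 4 := ⟨_, rfl⟩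
  refine ⟨tow (B + 3 + k), fun n hn => ?_⟩
  have hn0 : 0 < n := lt_of_lt_of_le (one_le_tow _) hn
  obtain ⟨j, hj1, hj2⟩ := exists_tow n hn0
  refine ⟨j, hj2, ?_⟩
  have hj : B + 3 + k ≤ j := by
    by_contra hlt
    have h1 : tow (j + 1) ≤ tow (B + 3 + k) := tow_mono (by omega)
    omega
  obtain ⟨m, hm⟩ : ∃ m, j = m + 3 + k := ⟨j - 3 - k, by omega⟩
  have hmB : B ≤ m := by omega
  have h1 : (tow (m + 3) : ℝ) / 2 ≤ Real.log^[k] n := by
    apply iter_log_tow k (m + 3) n (by omega)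
    have h2 : (tow (m + 3 + k) : ℝ) ≤ n := by
      rw [← hm]
      exact_mod_cast hj1
    have h3 : (0 : ℝ) ≤ tow (m + 3 + k) := Nat.cast_nonneg _
    linarith
  refine le_trans ?_ h1
  have h4 : 2 * C ^ (j + 1) + 2 ≤ tow (m + 1) := by
    have h5 : C ^ (j + 1) ≤ 2 ^ (C * (j + 1)) := by
      rw [pow_mul]
      exact Nat.pow_le_pow_left Nat.lt_two_pow_self.le _
    have h6 : C * (j + 1) + 3 ≤ 2 ^ m := by
      rw [hm]
      have h7 : 2 * (C + C * (k + 4) + 3) * m ≤ m * m := Nat.mul_le_mul_right m (by omega)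
      have h8 : m * m ≤ 2 ^ m := by
        have h9 : ∀ m : ℕ, 4 ≤ m → m * m ≤ 2 ^ m := by
          intro m hm4
          induction m, hm4 using Nat.le_induction with
          | base => norm_num
          | succ m hm4 ih =>
            rw [pow_succ]
            nlinarith
        exact h9 m (by omega)
      have h10 : C * (m + 3 + k + 1) + 3 ≤ (C + C * (k + 4) + 3) * m := by
        have h11 : C * (m + 3 + k + 1) = C * m + C * (k + 4) := by ring
        have h12 : C * (k + 4) * 1 ≤ C * (k + 4) * m := Nat.mul_le_mul_left _ (by omega)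
        have h13 : (C + C * (k + 4) + 3) * m = C * m + C * (k + 4) * m + 3 * m := by ring
        omega
      have h14 : 2 * (C + C * (k + 4) + 3) * m = 2 * ((C + C * (k + 4) + 3) * m) := by ring
      omega
    have h15 : 2 ^ (C * (j + 1)) * 8 ≤ tow (m + 1) := by
      calc 2 ^ (C * (j + 1)) * 8 = 2 ^ (C * (j + 1) + 3) := by ring
        _ ≤ 2 ^ (2 ^ m) := Nat.pow_le_pow_right (by norm_num) h6
        _ ≤ 2 ^ tow m := Nat.pow_le_pow_right (by norm_num) (two_pow_le_tow m)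
        _ = tow (m + 1) := rfl
    have h16 : 1 ≤ 2 ^ (C * (j + 1)) := Nat.one_le_two_pow
    omega
  have h17 := exp_exp_le (C ^ (j + 1)) h4
  push_cast at h17
  refine h17.trans (le_of_eq ?_)
  rw [tow_succ (m + 2), tow_succ (m + 1)]
  push_cast
  rfl

/-- Hadamard orders: for every `k`, all large `q` and all `t ≥ log^[k] q`. -/
theorem hadOrder_iter_of (H : ∃ C : ℕ, 1 ≤ C ∧ ∀ j q t : ℕ, 0 < q → q < tow j → C ^ j ≤ t →
    HadOrder (2 ^ t * q)) (k : ℕ) :
    ∃ q₀ : ℕ, ∀ q t : ℕ, q₀ ≤ q → Real.log^[k] q ≤ t → HadOrder (2 ^ t * q) := by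
  obtain ⟨C, _, h⟩ := H
  obtain ⟨n₀, hn₀⟩ := star_growth C k
  refine ⟨n₀ + 1, fun q t hq ht => ?_⟩
  obtain ⟨j, hj, hle⟩ := hn₀ q (by omega)
  apply h (j + 1) q t (by omega) hj
  have h1 : ((C ^ (j + 1) : ℕ) : ℝ) ≤ t := by
    refine le_trans ?_ (hle.trans ht)
    push_cast
    have h2 := Real.add_one_le_exp ((C : ℝ) ^ (j + 1))
    have h3 := Real.add_one_le_exp (Real.exp ((C : ℝ) ^ (j + 1)))
    linarith
  exact_mod_cast h1

/-- The determinant: for every `k` and all large `n`, `r(n) ≥ 1 / log^[k] n`. -/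
theorem rDet_iter_of (H : ∃ C : ℕ, 1 ≤ C ∧ ∀ j n : ℕ, 0 < n → n < tow j →
      Real.exp (-Real.exp ((C : ℝ) ^ j)) ≤ rDet n) (k : ℕ) :
    ∃ n₀ : ℕ, ∀ n : ℕ, n₀ ≤ n → 0 < Real.log^[k] n ∧ 1 / Real.log^[k] n ≤ rDet n := by
  obtain ⟨C, _, h⟩ := H
  obtain ⟨n₀, hn₀⟩ := star_growth C k
  refine ⟨n₀ + 1, fun n hn => ?_⟩
  obtain ⟨j, hj, hle⟩ := hn₀ n (by omega)
  have hpos : 0 < Real.log^[k] n := lt_of_lt_of_le (Real.exp_pos _) hle
  refine ⟨hpos, le_trans ?_ (h (j + 1) n (by omega) hj)⟩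
  rw [Real.exp_neg, ← one_div]
  exact one_div_le_one_div_of_le (Real.exp_pos _) hle

end HadCalc
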