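import Pool.Agent.Lib_MP_008adc_co.DetS
import Pool.Agent.Lib_MP_008adc_co.HadK

/-!
# The normalised maximal determinant loses at most a constant factor per step
-/

set_option autoImplicit false

namespace HadCalc

open Matrix

/-- the sign of a truth value -/
def sgb (b : Bool) : ℝ := if b then 1 else -1

theorem sgb_cases (b : Bool) : sgb b = 1 ∨ sgb b = -1 := by
  cases b
  · right; rfl
  · left; rfl

/-- Moments of a Rademacher sum. -/
theorem rad_moments (n : ℕ) : ∀ a : Fin n → ℝ,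
    (∑ ε : Fin n → Bool, (∑ j, a j * sgb (ε j)) ^ 2 = 2 ^ n * ∑ j, a j ^ 2) ∧
    (∑ ε : Fin n → Bool, (∑ j, a j * sgb (ε j)) ^ 4 ≤ 3 * (2 ^ n * (∑ j, a j ^ 2) ^ 2)) := by
  induction n with
  | zero =>
    intro a
    simp
  | succ n ih =>
    intro a
    obtain ⟨h2, h4⟩ := ih (fun j => a j.succ)
    have key : ∀ F : ℝ → ℝ, ∑ ε : Fin (n + 1) → Bool, F (∑ j, a j * sgb (ε j)) =
        ∑ ε : Fin n → Bool, (F (a 0 + ∑ j, a j.succ * sgb (ε j)) +
          F (-a 0 + ∑ j, a j.succ * sgb (ε j))) := by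
      intro F
      rw [← (Fin.consEquiv (fun _ : Fin (n + 1) => Bool)).sum_comp, Fintype.sum_prod_type,
        Fintype.sum_bool, ← Finset.sum_add_distrib]
      refine Finset.sum_congr rfl fun ε _ => ?_
      simp only [Fin.consEquiv_apply, Fin.sum_univ_succ, Fin.cons_zero, Fin.cons_succ, sgb]
      norm_num
    obtain ⟨s, hs⟩ : ∃ s, s = ∑ j : Fin n, a j.succ ^ 2 := ⟨_, rfl⟩
    have hs0 : 0 ≤ s := by
      rw [hs]
      exact Finset.sum_nonneg fun j _ => sq_nonneg _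
    rw [← hs] at h2 h4
    have hcard : (∑ _ε : Fin n → Bool, (1 : ℝ)) = 2 ^ n := by
      rw [Finset.sum_const, Finset.card_univ, Fintype.card_fun, Fintype.card_bool,
        Fintype.card_fin, nsmul_eq_mul, mul_one]
      push_cast
      rfl
    rw [Fin.sum_univ_succ, ← hs]
    constructor
    · rw [key (fun x => x ^ 2)]
      have e1 : ∀ ε : Fin n → Bool, (a 0 + ∑ j, a j.succ * sgb (ε j)) ^ 2 +
          (-a 0 + ∑ j, a j.succ * sgb (ε j)) ^ 2 =
          2 * a 0 ^ 2 * 1 + 2 * (∑ j, a j.succ * sgb (ε j)) ^ 2 := fun ε => by ring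
      rw [Finset.sum_congr rfl fun ε _ => e1 ε, Finset.sum_add_distrib, ← Finset.mul_sum,
        ← Finset.mul_sum, hcard, h2]
      ring
    · rw [key (fun x => x ^ 4)]
      have e1 : ∀ ε : Fin n → Bool, (a 0 + ∑ j, a j.succ * sgb (ε j)) ^ 4 +
          (-a 0 + ∑ j, a j.succ * sgb (ε j)) ^ 4 =
          2 * a 0 ^ 4 * 1 + (12 * a 0 ^ 2 * (∑ j, a j.succ * sgb (ε j)) ^ 2 +
            2 * (∑ j, a j.succ * sgb (ε j)) ^ 4) := fun ε => by ring
      rw [Finset.sum_congr rfl fun ε _ => e1 ε, Finset.sum_add_distrib, Finset.sum_add_distrib,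
        ← Finset.mul_sum, ← Finset.mul_sum, ← Finset.mul_sum, hcard, h2]
      have h5 : (0 : ℝ) ≤ 2 ^ n * a 0 ^ 4 := by positivity
      have h6 : 3 * ((2 : ℝ) ^ (n + 1) * (a 0 ^ 2 + s) ^ 2) =
          6 * (2 ^ n * a 0 ^ 4) + 12 * a 0 ^ 2 * (2 ^ n * s) + 2 * (3 * (2 ^ n * s ^ 2)) := by ring
      rw [h6]
      linarith

theorem cube_ineq (y : ℝ) (hy : 0 ≤ y) : 7 / 8 * y - 1 / 10 * y ^ 3 ≤ 1 := by
  have h1 : 0 ≤ (y - 1.708) ^ 2 * (y + 3.416) := by positivity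
  nlinarith

/-- The first moment of a Rademacher sum. -/
theorem rad_first (n : ℕ) (a : Fin n → ℝ) :
    23 / 40 * (2 ^ n * Real.sqrt (∑ j, a j ^ 2)) ≤
      ∑ ε : Fin n → Bool, |∑ j, a j * sgb (ε j)| := by
  obtain ⟨h2, h4⟩ := rad_moments n a
  set S : ℝ := ∑ j, a j ^ 2 with hS
  have hS0 : 0 ≤ S := Finset.sum_nonneg fun j _ => sq_nonneg _
  rcases hS0.eq_or_lt with h0 | h0
  · rw [← h0, Real.sqrt_zero, mul_zero, mul_zero]
    exact Finset.sum_nonneg fun ε _ => abs_nonneg _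
  obtain ⟨σ, hσ⟩ : ∃ σ, σ = Real.sqrt S := ⟨_, rfl⟩
  have hσ0 : 0 < σ := by
    rw [hσ]
    exact Real.sqrt_pos.2 h0
  have hσ2 : σ ^ 2 = S := by
    rw [hσ]
    exact Real.sq_sqrt hS0
  rw [← hσ]
  have hpt : ∀ x : ℝ, 7 / 8 * x ^ 2 / σ - 1 / 10 * x ^ 4 / σ ^ 3 ≤ |x| := by
    intro x
    have h5 := cube_ineq (|x| / σ) (by positivity)
    have h6 := mul_le_mul_of_nonneg_left h5 (abs_nonneg x)
    have h7 : |x| * (7 / 8 * (|x| / σ) - 1 / 10 * (|x| / σ) ^ 3) =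
        7 / 8 * |x| ^ 2 / σ - 1 / 10 * |x| ^ 4 / σ ^ 3 := by
      field_simp
    rw [h7, mul_one] at h6
    have h8 : |x| ^ 4 = x ^ 4 := by
      have : |x| ^ 4 = (|x| ^ 2) ^ 2 := by ring
      rw [this, sq_abs]
      ring
    rwa [sq_abs, h8] at h6
  calc 23 / 40 * (2 ^ n * σ) = 7 / 8 * (2 ^ n * S) / σ - 1 / 10 * (3 * (2 ^ n * S ^ 2)) / σ ^ 3 := by
        rw [← hσ2]
        field_simp
        ring
    _ ≤ 7 / 8 * (∑ ε : Fin n → Bool, (∑ j, a j * sgb (ε j)) ^ 2) / σ -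
        1 / 10 * (∑ ε : Fin n → Bool, (∑ j, a j * sgb (ε j)) ^ 4) / σ ^ 3 := by
        rw [h2]
        have h9 : 1 / 10 * (∑ ε : Fin n → Bool, (∑ j, a j * sgb (ε j)) ^ 4) / σ ^ 3 ≤
            1 / 10 * (3 * (2 ^ n * S ^ 2)) / σ ^ 3 := by
          apply div_le_div_of_nonneg_right _ (by positivity)
          exact mul_le_mul_of_nonneg_left h4 (by norm_num)
        linarith
    _ = ∑ ε : Fin n → Bool, (7 / 8 * (∑ j, a j * sgb (ε j)) ^ 2 / σ -
        1 / 10 * (∑ j, a j * sgb (ε j)) ^ 4 / σ ^ 3) := by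
        rw [Finset.sum_sub_distrib, Finset.mul_sum, Finset.mul_sum, Finset.sum_div,
          Finset.sum_div]
    _ ≤ ∑ ε : Fin n → Bool, |∑ j, a j * sgb (ε j)| := Finset.sum_le_sum fun ε _ => hpt _

/-- The rows of the inverse of a sign matrix are not short. -/
theorem row_inv_ge {n : ℕ} (A : Matrix (Fin n) (Fin n) ℝ) (hA : ∀ i j, A i j = 1 ∨ A i j = -1)
    (hdet : A.det ≠ 0) (i : Fin n) : 1 / Real.sqrt n ≤ Real.sqrt (∑ j, A⁻¹ i j ^ 2) := by
  have hn : 0 < n := Fin.pos i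
  have hnR : (0 : ℝ) < n := by exact_mod_cast hn
  have h1 : A⁻¹ * A = 1 := Matrix.nonsing_inv_mul A (isUnit_iff_ne_zero.2 hdet)
  have h2 : ∑ j, A⁻¹ i j * A j i = 1 := by
    have := congrFun (congrFun h1 i) i
    rwa [Matrix.mul_apply, Matrix.one_apply_eq] at this
  have h3 := Finset.sum_mul_sq_le_sq_mul_sq Finset.univ (fun j => A⁻¹ i j) (fun j => A j i)
  rw [h2] at h3
  have h4 : ∑ j, A j i ^ 2 = n := by
    rw [Finset.sum_congr rfl (g := fun _ => (1 : ℝ))]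
    · simp
    · intro j _
      rcases hA j i with h | h <;> rw [h] <;> norm_num
  rw [h4] at h3
  rw [← Real.sqrt_one, ← Real.sqrt_div (by norm_num)]
  apply Real.sqrt_le_sqrt
  rw [div_le_iff₀ hnR]
  linarith

/-- A good column. -/
theorem exists_col {n : ℕ} (hn : 0 < n) (A : Matrix (Fin n) (Fin n) ℝ)
    (hA : ∀ i j, A i j = 1 ∨ A i j = -1) (hdet : A.det ≠ 0) :
    ∃ ε : Fin n → Bool, 23 / 40 * Real.sqrt n ≤ ∑ i, |∑ j, A⁻¹ i j * sgb (ε j)| := by
  have hnR : (0 : ℝ) < n := by exact_mod_cast hn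
  by_contra hcon
  push Not at hcon
  have h1 : ∑ ε : Fin n → Bool, ∑ i, |∑ j, A⁻¹ i j * sgb (ε j)| <
      ∑ _ε : Fin n → Bool, 23 / 40 * Real.sqrt n :=
    Finset.sum_lt_sum_of_nonempty Finset.univ_nonempty fun ε _ => hcon ε
  rw [Finset.sum_comm] at h1
  have h2 : ∑ i : Fin n, 23 / 40 * ((2 : ℝ) ^ n * (1 / Real.sqrt n)) ≤
      ∑ i : Fin n, ∑ ε : Fin n → Bool, |∑ j, A⁻¹ i j * sgb (ε j)| := by
    refine Finset.sum_le_sum fun i _ => ?_
    refine le_trans ?_ (rad_first n (fun j => A⁻¹ i j))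
    have := row_inv_ge A hA hdet i
    have h3 : (0 : ℝ) ≤ 2 ^ n := by positivity
    apply mul_le_mul_of_nonneg_left _ (by norm_num)
    exact mul_le_mul_of_nonneg_left this h3
  have h3 := lt_of_le_of_lt h2 h1
  rw [Finset.sum_const, Finset.sum_const, Finset.card_univ, Finset.card_univ, Fintype.card_fin,
    Fintype.card_fun, Fintype.card_bool, Fintype.card_fin, nsmul_eq_mul, nsmul_eq_mul] at h3
  push_cast at h3
  have h4 : (n : ℝ) * (23 / 40 * (2 ^ n * (1 / Real.sqrt n))) =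
      2 ^ n * (23 / 40 * Real.sqrt n) := by
    have h5 : (n : ℝ) = Real.sqrt n * Real.sqrt n := (Real.mul_self_sqrt hnR.le).symm
    have h6 : 0 < Real.sqrt n := Real.sqrt_pos.2 hnR
    field_simp
    nlinarith
  rw [h4] at h3
  exact lt_irrefl _ h3

/-- BORDERING by a random column and the best row. -/
theorem maxDet_succ_ge {n : ℕ} (hn : 0 < n) :
    maxDet n * (23 / 40 * Real.sqrt n) ≤ maxDet (n + 1) := by
  obtain ⟨A, hA, hmax⟩ := exists_maxDet n
  have hdet : A.det ≠ 0 := by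
    intro h0
    have := one_le_maxDet n
    rw [hmax, h0, abs_zero] at this
    linarith
  obtain ⟨ε, hε⟩ := exists_col hn A hA hdet
  have hinv : Invertible A := Matrix.invertibleOfIsUnitDet A (isUnit_iff_ne_zero.2 hdet)
  set x : Fin n → ℝ := fun i => ∑ j, A⁻¹ i j * sgb (ε j) with hx
  set c : Fin n → ℝ := fun i => if 0 ≤ x i then -1 else 1 with hc
  set M : Matrix (Fin n ⊕ Fin 1) (Fin n ⊕ Fin 1) ℝ :=
    Matrix.fromBlocks A (Matrix.of fun j _ => sgb (ε j)) (Matrix.of fun _ i => c i)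
      (Matrix.of fun _ _ => 1) with hM
  have hMdet : M.det = A.det * (1 + ∑ i, |x i|) := by
    rw [hM, Matrix.det_fromBlocks₁₁, Matrix.det_fin_one]
    congr 1
    rw [Matrix.sub_apply, Matrix.mul_assoc, Matrix.mul_apply, Matrix.of_apply]
    have h1 : ∀ i, (Matrix.of (fun (_ : Fin 1) (i : Fin n) => c i)) 0 i *
        (⅟A * Matrix.of (fun (j : Fin n) (_ : Fin 1) => sgb (ε j))) i 0 = -|x i| := by
      intro i
      rw [Matrix.of_apply, Matrix.mul_apply, Matrix.invOf_eq_nonsing_inv]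
      have h2 : ∑ j, A⁻¹ i j * (Matrix.of fun (j : Fin n) (_ : Fin 1) => sgb (ε j)) j 0 = x i := by
        rfl
      rw [h2]
      by_cases h3 : 0 ≤ x i
      · rw [hc]
        simp only [if_pos h3, abs_of_nonneg h3]
        ring
      · rw [hc]
        simp only [if_neg h3, abs_of_neg (not_le.1 h3)]
        ring
    rw [Finset.sum_congr rfl fun i _ => h1 i, Finset.sum_neg_distrib]
    ring
  set N : Matrix (Fin (n + 1)) (Fin (n + 1)) ℝ :=
    M.submatrix finSumFinEquiv.symm finSumFinEquiv.symm with hN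
  have hNdet : N.det = M.det := Matrix.det_submatrix_equiv_self _ _
  have hMs : ∀ i j, M i j = 1 ∨ M i j = -1 := by
    intro i j
    rcases i with i | i <;> rcases j with j | j
    · exact hA i j
    · exact sgb_cases _
    · show c j = 1 ∨ c j = -1
      rw [hc]
      by_cases h3 : 0 ≤ x j
      · right
        exact if_pos h3
      · left
        exact if_neg h3
    · left
      rfl
  have h1 := le_maxDet N (fun i j => hMs _ _)
  rw [hNdet, hMdet, abs_mul] at h1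
  have h2 : 0 ≤ ∑ i, |x i| := Finset.sum_nonneg fun i _ => abs_nonneg _
  rw [abs_of_nonneg (by linarith : (0 : ℝ) ≤ 1 + ∑ i, |x i|)] at h1
  rw [hmax]
  refine le_trans ?_ h1
  apply mul_le_mul_of_nonneg_left _ (abs_nonneg _)
  linarith

/-- THE STEP: `r(n + 1) ≥ r(n) / 5`. -/
theorem rDet_succ_ge {n : ℕ} (hn : 0 < n) : rDet n / 5 ≤ rDet (n + 1) := by
  have hnR : (0 : ℝ) < n := by exact_mod_cast hn
  have hn1 : (1 : ℝ) ≤ n := by exact_mod_cast hn
  have h0 := maxDet_succ_ge hn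
  have hm : 0 ≤ maxDet n := le_trans zero_le_one (one_le_maxDet n)
  have hpn : 0 < (n : ℝ) ^ ((n : ℝ) / 2) := Real.rpow_pos_of_pos hnR _
  have hsn : 0 < Real.sqrt n := Real.sqrt_pos.2 hnR
  -- the comparison of the normalisations
  have h1 : ((n : ℝ) + 1) ^ (((n : ℝ) + 1) / 2) ≤ 23 / 8 * (Real.sqrt n * (n : ℝ) ^ ((n : ℝ) / 2)) := by
    have e1 : ((n : ℝ) + 1) / 2 = 1 / 2 + (n : ℝ) / 2 := by ring
    rw [e1, Real.rpow_add (by linarith), ← Real.sqrt_eq_rpow]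
    have e2 : (n : ℝ) + 1 = n * (1 + 1 / n) := by
      field_simp
    have h2 : ((n : ℝ) + 1) ^ ((n : ℝ) / 2) ≤ 5 / 3 * (n : ℝ) ^ ((n : ℝ) / 2) := by
      rw [e2, Real.mul_rpow hnR.le (by positivity), mul_comm]
      apply mul_le_mul_of_nonneg_right _ hpn.le
      have h3 : (1 + 1 / (n : ℝ)) ^ ((n : ℝ) / 2) ≤ Real.exp (1 / n) ^ ((n : ℝ) / 2) := by
        apply Real.rpow_le_rpow (by positivity) _ (by positivity)
        have := Real.add_one_le_exp (1 / (n : ℝ))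
        linarith
      refine h3.trans ?_
      rw [← Real.exp_mul]
      have e3 : 1 / (n : ℝ) * ((n : ℝ) / 2) = 1 / 2 := by
        field_simp
      rw [e3]
      have h4 : Real.exp (1 / 2) * Real.exp (1 / 2) = Real.exp 1 := by
        rw [← Real.exp_add]
        norm_num
      have h5 := Real.exp_one_lt_d9
      have h6 := Real.exp_pos (1 / 2)
      nlinarith
    have h3 : Real.sqrt ((n : ℝ) + 1) ≤ 3 / 2 * Real.sqrt n := by
      rw [show (3 / 2 : ℝ) = Real.sqrt (9 / 4) by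
        rw [show (9 / 4 : ℝ) = (3 / 2) ^ 2 by norm_num, Real.sqrt_sq (by norm_num)],
        ← Real.sqrt_mul (by norm_num)]
      apply Real.sqrt_le_sqrt
      linarith
    calc Real.sqrt ((n : ℝ) + 1) * ((n : ℝ) + 1) ^ ((n : ℝ) / 2)
        ≤ (3 / 2 * Real.sqrt n) * (5 / 3 * (n : ℝ) ^ ((n : ℝ) / 2)) :=
          mul_le_mul h3 h2 (by positivity) (by positivity)
      _ ≤ 23 / 8 * (Real.sqrt n * (n : ℝ) ^ ((n : ℝ) / 2)) := by
          have : 0 ≤ Real.sqrt n * (n : ℝ) ^ ((n : ℝ) / 2) := by positivity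
          nlinarith
  unfold rDet
  push_cast
  have hpn1 : 0 < ((n : ℝ) + 1) ^ (((n : ℝ) + 1) / 2) := Real.rpow_pos_of_pos (by linarith) _
  rw [div_div, div_le_div_iff₀ (by positivity) hpn1]
  calc maxDet n * ((n : ℝ) + 1) ^ (((n : ℝ) + 1) / 2)
      ≤ maxDet n * (23 / 8 * (Real.sqrt n * (n : ℝ) ^ ((n : ℝ) / 2))) :=
        mul_le_mul_of_nonneg_left h1 hm
    _ = maxDet n * (23 / 40 * Real.sqrt n) * ((n : ℝ) ^ ((n : ℝ) / 2) * 5) := by ring
    _ ≤ maxDet (n + 1) * ((n : ℝ) ^ ((n : ℝ) / 2) * 5) :=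
        mul_le_mul_of_nonneg_right h0 (by positivity)

/-- If there is a Hadamard matrix of order `m ≤ n` then `r(n) ≥ 5 ^ (-(n - m))`. -/
theorem rDet_lower5 {m n : ℕ} (hm : 0 < m) (hmn : m ≤ n) (h : HadOrder m) :
    (1 / 5 : ℝ) ^ (n - m) ≤ rDet n := by
  induction n, hmn using Nat.le_induction with
  | base =>
    rw [Nat.sub_self, pow_zero]
    unfold rDet
    have hmR : (0 : ℝ) < m := by exact_mod_cast hm
    rw [le_div_iff₀ (Real.rpow_pos_of_pos hmR _), one_mul]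
    exact maxDet_of_hadOrder hm h
  | succ n hmn ih =>
    have h1 : n + 1 - m = (n - m) + 1 := by omega
    rw [h1, pow_succ]
    have h2 := rDet_succ_ge (n := n) (by omega)
    linarith

end HadCalc
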