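import Pool.Agent.Lib_MP_008adc_co.NTern0

/-!
# Part (B), bilinear sums for a frequency close to a rational number

A discrete Fejér majorant modulo `M` replaces the sum over `min (X_1, 1 / ‖γ r‖)`.
-/

set_option autoImplicit false

namespace HadNT

private theorem bf_cos_sin {x : ℝ} (h0 : 0 ≤ x) (h1 : x ≤ Real.pi / 2) : 1 ≤ Real.cos x + Real.sin x := by
  have hc : 0 ≤ Real.cos x := Real.cos_nonneg_of_mem_Icc ⟨by linarith [Real.pi_pos], h1⟩
  have hs : 0 ≤ Real.sin x := Real.sin_nonneg_of_nonneg_of_le_pi h0 (by linarith [Real.pi_pos])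
  nlinarith [Real.sin_sq_add_cos_sq x, Real.cos_le_one x, Real.sin_le_one x]

/-- The majorant is at least `H ^ 2 / 2` on `[0, X_1)`. -/
theorem fejer_lower (M : ℕ) [NeZero M] (X H u : ℕ) (hHX : 4 * H * X ≤ M) (hu : u < X) :
    (H : ℝ) ^ 2 / 2 ≤ ‖∑ j ∈ Finset.range H, (ZMod.stdAddChar ((u : ZMod M) * (j : ZMod M)) : ℂ)‖ ^ 2 := by
  have hM : (0 : ℝ) < M := by
    have := Nat.pos_of_ne_zero (NeZero.ne M)
    exact_mod_cast this
  obtain ⟨φ, hφ⟩ : ∃ φ : ℕ → ℝ, ∀ j, φ j = 2 * Real.pi * (u * j) / M := ⟨_, fun _ => rfl⟩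
  have h1 : ∀ j : ℕ, (ZMod.stdAddChar ((u : ZMod M) * (j : ZMod M)) : ℂ) =
      Complex.exp ((φ j : ℝ) * Complex.I) := by
    intro j
    have h2 := ZMod.stdAddChar_coe (N := M) ((u * j : ℕ) : ℤ)
    have h3 : (((u * j : ℕ) : ℤ) : ZMod M) = (u : ZMod M) * (j : ZMod M) := by push_cast; rfl
    rw [h3] at h2
    rw [h2, hφ]
    congr 1
    push_cast
    ring
  have hre : ∀ j ∈ Finset.range H, 1 ≤ (Complex.exp ((φ j : ℝ) * Complex.I)).re +
      (Complex.exp ((φ j : ℝ) * Complex.I)).im := by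
    intro j hj
    rw [Complex.exp_ofReal_mul_I_re, Complex.exp_ofReal_mul_I_im]
    have hj' := Finset.mem_range.1 hj
    apply bf_cos_sin
    · rw [hφ]
      positivity
    · rw [hφ, div_le_iff₀ hM]
      have h4 : 4 * (u * j) ≤ M := by
        have h5 : u * j ≤ X * H := Nat.mul_le_mul hu.le hj'.le
        have h6 : 4 * H * X = 4 * (X * H) := by ring
        omega
      have h7 : (4 : ℝ) * (u * j) ≤ M := by exact_mod_cast h4
      nlinarith [Real.pi_pos]
  obtain ⟨S, hS⟩ : ∃ S : ℂ, S = ∑ j ∈ Finset.range H, (ZMod.stdAddChar ((u : ZMod M) * (j : ZMod M)) : ℂ) :=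
    ⟨_, rfl⟩
  rw [← hS]
  have h8 : (H : ℝ) ≤ S.re + S.im := by
    rw [hS, Finset.sum_congr rfl fun j _ => h1 j, Complex.re_sum, Complex.im_sum,
      ← Finset.sum_add_distrib]
    have h9 : (H : ℝ) = ∑ _j ∈ Finset.range H, (1 : ℝ) := by simp
    rw [h9]
    exact Finset.sum_le_sum hre
  have h10 : ‖S‖ ^ 2 = S.re ^ 2 + S.im ^ 2 := by
    rw [Complex.sq_norm, Complex.normSq_apply]
    ring
  rw [h10]
  have h11 : (0 : ℝ) ≤ H := Nat.cast_nonneg _
  nlinarith [sq_nonneg (S.re - S.im)]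

/-- `v, v'` are related if `h (v - v')` lies in the arc `(-H, H)` modulo `M`. -/
def Arc (M H : ℕ) (h : ZMod M) (v v' : ℕ) : Prop :=
  ∃ j < H, ∃ j' < H, (j : ZMod M) + h * (v : ZMod M) = (j' : ZMod M) + h * (v' : ZMod M)

open Classical in
/-- The bilinear bound by the number of related pairs. -/
theorem fejer_bil (M : ℕ) [NeZero M] (h : ZMod M) (U V : Finset ℕ) (X H : ℕ) (hH : 1 ≤ H)
    (hX1 : 1 ≤ X) (hHX : 4 * H * X ≤ M) (hU : ∀ u ∈ U, u < X) :
    ‖∑ u ∈ U, ∑ v ∈ V, (ZMod.stdAddChar (h * (u : ZMod M) * (v : ZMod M)) : ℂ)‖ ^ 2 ≤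
      (U.card : ℝ) * (2 * M / H * (((V ×ˢ V).filter (fun x => Arc M H h x.1 x.2)).card : ℝ)) := by
  have hH0 : (0 : ℝ) < H := by exact_mod_cast hH
  have hM0 : 0 < M := Nat.pos_of_ne_zero (NeZero.ne M)
  have hHM : H ≤ M := by
    have : H ≤ 4 * H * X := by nlinarith
    omega
  have hXM : X ≤ M := by
    have : X ≤ 4 * H * X := by nlinarith
    omega
  obtain ⟨G, hG⟩ : ∃ G : ZMod M → ℝ, ∀ y, G y =
    ‖Sg M (Finset.range H ×ˢ V) (fun x => (x.1 : ZMod M) + h * (x.2 : ZMod M)) y‖ ^ 2 :=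
    ⟨_, fun _ => rfl⟩
  have hG0 : ∀ y, 0 ≤ G y := fun y => by rw [hG]; positivity
  have hsplit : ∀ y : ZMod M, Sg M (Finset.range H ×ˢ V)
      (fun x => (x.1 : ZMod M) + h * (x.2 : ZMod M)) y =
      (∑ j ∈ Finset.range H, (ZMod.stdAddChar (y * (j : ZMod M)) : ℂ)) *
        ∑ v ∈ V, (ZMod.stdAddChar (h * y * (v : ZMod M)) : ℂ) := by
    intro y
    unfold Sg
    rw [Finset.sum_mul_sum, Finset.sum_product]
    refine Finset.sum_congr rfl fun j _ => Finset.sum_congr rfl fun v _ => ?_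
    rw [← AddChar.map_add_eq_mul]
    congr 1
    ring
  have hGsum : ∑ y : ZMod M, G y ≤
      M * (H * (((V ×ˢ V).filter (fun x => Arc M H h x.1 x.2)).card : ℝ)) := by
    have h1 := second_moment M (Finset.range H ×ˢ V)
      (fun x : ℕ × ℕ => (x.1 : ZMod M) + h * (x.2 : ZMod M))
    have h2 : ∑ y : ZMod M, G y = ∑ y : ZMod M,
        ‖Sg M (Finset.range H ×ˢ V) (fun x => (x.1 : ZMod M) + h * (x.2 : ZMod M)) y‖ ^ 2 :=
      Finset.sum_congr rfl fun y _ => hG y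
    rw [h2, h1]
    refine mul_le_mul_of_nonneg_left ?_ (Nat.cast_nonneg _)
    have h3 : (((Finset.range H ×ˢ V) ×ˢ (Finset.range H ×ˢ V)).filter (fun x =>
        (x.1.1 : ZMod M) + h * (x.1.2 : ZMod M) = (x.2.1 : ZMod M) + h * (x.2.2 : ZMod M))).card ≤
        (Finset.range H ×ˢ ((V ×ˢ V).filter (fun x => Arc M H h x.1 x.2))).card := by
      refine Finset.card_le_card_of_injOn (fun x => (x.1.1, (x.1.2, x.2.2))) ?_ ?_
      · intro x hx
        rw [Finset.mem_coe, Finset.mem_filter, Finset.mem_product, Finset.mem_product,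
          Finset.mem_product] at hx
        obtain ⟨⟨⟨h4, h5⟩, ⟨h6, h7⟩⟩, h8⟩ := hx
        rw [Finset.mem_coe, Finset.mem_product, Finset.mem_filter, Finset.mem_product]
        exact ⟨h4, ⟨h5, h7⟩, ⟨x.1.1, Finset.mem_range.1 h4, x.2.1, Finset.mem_range.1 h6, h8⟩⟩
      · intro x hx y hy hxy
        rw [Finset.mem_coe, Finset.mem_filter, Finset.mem_product, Finset.mem_product,
          Finset.mem_product] at hx hy
        obtain ⟨e1, e23⟩ := Prod.ext_iff.1 hxy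
        obtain ⟨e2, e3⟩ := Prod.ext_iff.1 e23
        have e1' : x.1.1 = y.1.1 := e1
        have e2' : x.1.2 = y.1.2 := e2
        have e3' : x.2.2 = y.2.2 := e3
        have e4 : ((x.2.1 : ℕ) : ZMod M) = ((y.2.1 : ℕ) : ZMod M) := by
          have h9 := hx.2
          have h10 := hy.2
          rw [← e1', ← e2', ← e3'] at h10
          exact add_right_cancel (h9.symm.trans h10)
        have e5 : x.2.1 = y.2.1 := by
          rw [ZMod.natCast_eq_natCast_iff] at e4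
          have h11 := Finset.mem_range.1 hx.1.2.1
          have h12 := Finset.mem_range.1 hy.1.2.1
          exact Nat.ModEq.eq_of_lt_of_lt e4 (by omega) (by omega)
        exact Prod.ext (Prod.ext e1' e2') (Prod.ext e5 e3')
    rw [Finset.card_product, Finset.card_range] at h3
    exact_mod_cast h3
  -- the majorant
  have hmaj : ∀ u ∈ U, ‖∑ v ∈ V, (ZMod.stdAddChar (h * (u : ZMod M) * (v : ZMod M)) : ℂ)‖ ^ 2 ≤
      2 / (H : ℝ) ^ 2 * G (u : ZMod M) := by
    intro u hu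
    rw [hG, hsplit, norm_mul, mul_pow]
    have h4 := fejer_lower M X H u hHX (hU u hu)
    have h5 : (1 : ℝ) ≤ 2 / (H : ℝ) ^ 2 *
        ‖∑ j ∈ Finset.range H, (ZMod.stdAddChar ((u : ZMod M) * (j : ZMod M)) : ℂ)‖ ^ 2 := by
      calc (1 : ℝ) = 2 / (H : ℝ) ^ 2 * ((H : ℝ) ^ 2 / 2) := by field_simp
        _ ≤ _ := mul_le_mul_of_nonneg_left h4 (by positivity)
    rw [← mul_assoc]
    exact le_mul_of_one_le_left (by positivity) h5
  have hUsum : ∑ u ∈ U, G (u : ZMod M) ≤ ∑ y : ZMod M, G y := by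
    have h6 : ∑ u ∈ U, G (u : ZMod M) = ∑ y ∈ U.image (fun u : ℕ => (u : ZMod M)), G y := by
      rw [Finset.sum_image]
      intro u hu v hv huv
      have huv' : ((u : ℕ) : ZMod M) = ((v : ℕ) : ZMod M) := huv
      rw [ZMod.natCast_eq_natCast_iff] at huv'
      have h7 := hU u hu
      have h8 := hU v hv
      exact Nat.ModEq.eq_of_lt_of_lt huv' (by omega) (by omega)
    rw [h6]
    exact Finset.sum_le_sum_of_subset_of_nonneg (Finset.subset_univ _) fun y _ _ => hG0 y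
  calc ‖∑ u ∈ U, ∑ v ∈ V, (ZMod.stdAddChar (h * (u : ZMod M) * (v : ZMod M)) : ℂ)‖ ^ 2
      ≤ (∑ u ∈ U, ‖∑ v ∈ V, (ZMod.stdAddChar (h * (u : ZMod M) * (v : ZMod M)) : ℂ)‖) ^ 2 :=
        pow_le_pow_left₀ (norm_nonneg _) (norm_sum_le _ _) 2
    _ ≤ (U.card : ℝ) * ∑ u ∈ U,
          ‖∑ v ∈ V, (ZMod.stdAddChar (h * (u : ZMod M) * (v : ZMod M)) : ℂ)‖ ^ 2 :=
        sq_sum_le_card_mul_sum_sq
    _ ≤ (U.card : ℝ) * ∑ u ∈ U, 2 / (H : ℝ) ^ 2 * G (u : ZMod M) :=
        mul_le_mul_of_nonneg_left (Finset.sum_le_sum hmaj) (Nat.cast_nonneg _)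
    _ = (U.card : ℝ) * (2 / (H : ℝ) ^ 2 * ∑ u ∈ U, G (u : ZMod M)) := by rw [← Finset.mul_sum]
    _ ≤ (U.card : ℝ) * (2 / (H : ℝ) ^ 2 *
          (M * (H * (((V ×ˢ V).filter (fun x => Arc M H h x.1 x.2)).card : ℝ)))) := by
        refine mul_le_mul_of_nonneg_left ?_ (Nat.cast_nonneg _)
        exact mul_le_mul_of_nonneg_left (hUsum.trans hGsum) (by positivity)
    _ = _ := by
        field_simp

/-- If `h / M = a / q + θ`, `q ≤ 2 X_1`, `|θ| q X_2 ≤ 1 / 4`, then related numbers below `X_2` are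
congruent modulo `q` and `|θ| |v - v'| < H / M`. -/
theorem arc_close (M H : ℕ) [NeZero M] (h : ZMod M) (a : ℤ) (q : ℕ) (θ : ℝ) (X₁ X₂ : ℕ)
    (hq : 1 ≤ q) (haq : IsCoprime a (q : ℤ)) (hθ : ((h.val : ℕ) : ℝ) / M = a / q + θ) (hX1 : 1 ≤ X₁)
    (hHX : 4 * H * X₁ ≤ M) (hqX : q ≤ 2 * X₁) (hθX : |θ| * q * X₂ ≤ 1 / 4) (v v' : ℕ)
    (hv : v < X₂) (hv' : v' < X₂) (harc : Arc M H h v v') :
    (q : ℤ) ∣ (v : ℤ) - v' ∧ |θ| * |(v : ℝ) - v'| * M < H := by
  have hM0 : 0 < M := Nat.pos_of_ne_zero (NeZero.ne M)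
  have hM : (0 : ℝ) < M := by exact_mod_cast hM0
  have hq0 : (0 : ℝ) < q := by exact_mod_cast hq
  obtain ⟨j, hj, j', hj', hjj⟩ := harc
  have hH1 : (1 : ℝ) ≤ H := by
    have : 1 ≤ H := by omega
    exact_mod_cast this
  -- the integer relation
  have h1 : ((((h.val : ℕ) : ℤ) * ((v : ℤ) - v') - ((j' : ℤ) - j) : ℤ) : ZMod M) = 0 := by
    push_cast
    rw [ZMod.natCast_zmod_val]
    have h2 : h * (v : ZMod M) - h * (v' : ZMod M) = (j' : ZMod M) - (j : ZMod M) := by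
      have h3 := hjj
      rw [← sub_eq_zero] at h3 ⊢
      rw [← h3]
      ring
    rw [mul_sub, h2, sub_self]
  rw [ZMod.intCast_zmod_eq_zero_iff_dvd] at h1
  obtain ⟨m, hm⟩ := h1
  obtain ⟨r, hr⟩ : ∃ r : ℤ, r = (v : ℤ) - v' := ⟨_, rfl⟩
  obtain ⟨d, hd⟩ : ∃ d : ℤ, d = (j' : ℤ) - j := ⟨_, rfl⟩
  rw [← hr, ← hd] at hm
  have hrR : (r : ℝ) = (v : ℝ) - v' := by
    rw [hr]
    push_cast
    rfl
  have hdabs : |(d : ℝ)| < H := by
    rw [hd]
    push_cast
    have e1 : (j : ℝ) < H := by exact_mod_cast hj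
    have e2 : (j' : ℝ) < H := by exact_mod_cast hj'
    have e3 : (0 : ℝ) ≤ j := Nat.cast_nonneg _
    have e4 : (0 : ℝ) ≤ j' := Nat.cast_nonneg _
    rw [abs_lt]
    constructor <;> linarith
  have hrabs : |(r : ℝ)| ≤ X₂ := by
    rw [hrR]
    have e1 : (v : ℝ) < X₂ := by exact_mod_cast hv
    have e2 : (v' : ℝ) < X₂ := by exact_mod_cast hv'
    have e3 : (0 : ℝ) ≤ v := Nat.cast_nonneg _
    have e4 : (0 : ℝ) ≤ v' := Nat.cast_nonneg _
    rw [abs_le]
    constructor <;> linarith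
  have hmR : ((h.val : ℕ) : ℝ) * r - d = M * m := by
    have := congrArg (fun z : ℤ => (z : ℝ)) hm
    push_cast at this
    exact this
  have hmain : (a : ℝ) / q * r + θ * r = m + d / M := by
    have h2 : ((h.val : ℕ) : ℝ) / M * r = m + d / M := by
      field_simp
      linarith
    rw [hθ] at h2
    rw [← h2]
    ring
  have hHM : (H : ℝ) / M ≤ 1 / (4 * X₁) := by
    rw [div_le_div_iff₀ hM (by positivity)]
    have : ((4 * H * X₁ : ℕ) : ℝ) ≤ (M : ℝ) := by exact_mod_cast hHX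
    push_cast at this
    linarith
  have hdM : |(d : ℝ) / M| < 1 / (4 * X₁) := by
    rw [abs_div, abs_of_pos hM]
    refine lt_of_lt_of_le ?_ hHM
    exact div_lt_div_of_pos_right hdabs hM
  have hX1R : (1 : ℝ) ≤ X₁ := by exact_mod_cast hX1
  have hqXR : (q : ℝ) ≤ 2 * X₁ := by exact_mod_cast hqX
  have hθr : |θ * r| * q ≤ 1 / 4 := by
    rw [abs_mul]
    calc |θ| * |(r : ℝ)| * q ≤ |θ| * X₂ * q := by
          refine mul_le_mul_of_nonneg_right ?_ hq0.le
          exact mul_le_mul_of_nonneg_left hrabs (abs_nonneg _)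
      _ = |θ| * q * X₂ := by ring
      _ ≤ 1 / 4 := hθX
  have hdq : |(d : ℝ) / M| * q < 1 / 2 := by
    calc |(d : ℝ) / M| * q < 1 / (4 * X₁) * q := mul_lt_mul_of_pos_right hdM hq0
      _ ≤ 1 / (4 * X₁) * (2 * X₁) := mul_le_mul_of_nonneg_left hqXR (by positivity)
      _ = 1 / 2 := by
        field_simp
        norm_num
  -- `q` divides `a r`
  have hdvd : (q : ℤ) ∣ a * r := by
    have h3 : ((a * r - m * q : ℤ) : ℝ) = (d / M - θ * r) * q := by
      push_cast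
      have h4 : (a : ℝ) * r = (a / q * r) * q := by
        field_simp
      rw [h4]
      have h5 : (a : ℝ) / q * r = m + d / M - θ * r := by linarith
      rw [h5]
      ring
    have h4 : |((a * r - m * q : ℤ) : ℝ)| < 1 := by
      rw [h3, abs_mul, abs_of_pos hq0]
      calc |(d : ℝ) / M - θ * r| * q ≤ (|(d : ℝ) / M| + |θ * r|) * q :=
            mul_le_mul_of_nonneg_right (abs_sub _ _) hq0.le
        _ = |(d : ℝ) / M| * q + |θ * r| * q := by ring
        _ < 1 := by linarith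
    have h5 : a * r - m * q = 0 := by
      have h6 : |a * r - m * q| < 1 := by exact_mod_cast h4
      exact Int.abs_lt_one_iff.1 h6
    exact ⟨m, by linarith⟩
  have hdvd2 : (q : ℤ) ∣ r := IsCoprime.dvd_of_dvd_mul_left haq.symm hdvd
  rw [hr] at hdvd2
  refine ⟨hdvd2, ?_⟩
  -- `θ r = d / M`
  obtain ⟨k, hk⟩ := hdvd2
  rw [← hr] at hk
  have h6 : θ * r = d / M := by
    have h7 : ((a * k - m : ℤ) : ℝ) = d / M - θ * r := by
      push_cast
      have h8 : (a : ℝ) / q * r = a * k := by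
        rw [hk]
        push_cast
        field_simp
      linarith
    have hq1 : (1 : ℝ) ≤ q := by exact_mod_cast hq
    have h9 : |((a * k - m : ℤ) : ℝ)| < 1 := by
      rw [h7]
      have h10 : |(d : ℝ) / M| ≤ |(d : ℝ) / M| * q := le_mul_of_one_le_right (abs_nonneg _) hq1
      have h11 : |θ * r| ≤ |θ * r| * q := le_mul_of_one_le_right (abs_nonneg _) hq1
      calc |(d : ℝ) / M - θ * r| ≤ |(d : ℝ) / M| + |θ * r| := abs_sub _ _
        _ < 1 := by linarith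
    have h12 : a * k - m = 0 := by
      have h13 : |a * k - m| < 1 := by exact_mod_cast h9
      exact Int.abs_lt_one_iff.1 h13
    rw [h12] at h7
    push_cast at h7
    linarith
  rw [← hrR, ← abs_mul, h6, abs_div, abs_of_pos hM, div_mul_cancel₀ _ hM.ne']
  exact hdabs

open Classical in
/-- The number of related pairs. -/
theorem arc_count (M H : ℕ) [NeZero M] (h : ZMod M) (a : ℤ) (q : ℕ) (θ : ℝ) (X₁ X₂ : ℕ)
    (hq : 1 ≤ q) (haq : IsCoprime a (q : ℤ)) (hθ : ((h.val : ℕ) : ℝ) / M = a / q + θ) (hX1 : 1 ≤ X₁)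
    (hHX : 4 * H * X₁ ≤ M) (hqX : q ≤ 2 * X₁) (hθX : |θ| * q * X₂ ≤ 1 / 4) (V : Finset ℕ)
    (hV : ∀ v ∈ V, v < X₂) :
    (((V ×ˢ V).filter (fun x => Arc M H h x.1 x.2)).card : ℝ) ≤
      (V.card : ℝ) * (1 + 5 / 2 * X₂ / (q * (1 + |θ| * X₁ * X₂))) := by
  have hM0 : 0 < M := Nat.pos_of_ne_zero (NeZero.ne M)
  have hM : (0 : ℝ) < M := by exact_mod_cast hM0
  have hq0 : (0 : ℝ) < q := by exact_mod_cast hq
  have hden : 0 < (q : ℝ) * (1 + |θ| * X₁ * X₂) := by positivity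
  obtain ⟨B, hB⟩ : ∃ B : ℝ, B = 5 / 4 * X₂ / (q * (1 + |θ| * X₁ * X₂)) := ⟨_, rfl⟩
  have hB0 : 0 ≤ B := by
    rw [hB]
    positivity
  have hfib := Finset.card_eq_sum_card_fiberwise (f := Prod.fst)
    (s := (V ×ˢ V).filter (fun x => Arc M H h x.1 x.2)) (t := V) (fun x hx => by
      rw [Finset.mem_coe, Finset.mem_filter, Finset.mem_product] at hx
      exact hx.1.1)
  rw [hfib, Nat.cast_sum]
  have h1 : ∀ v ∈ V, ((((V ×ˢ V).filter (fun x => Arc M H h x.1 x.2)).filter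
      (fun x => x.1 = v)).card : ℝ) ≤ 1 + 2 * B := by
    intro v hv
    have h2 : (((V ×ˢ V).filter (fun x => Arc M H h x.1 x.2)).filter (fun x => x.1 = v)).card ≤
        (Finset.Icc (-(⌊B⌋)) ⌊B⌋).card := by
      refine Finset.card_le_card_of_injOn (fun x => ((v : ℤ) - x.2) / q) ?_ ?_
      · intro x hx
        rw [Finset.mem_coe, Finset.mem_filter, Finset.mem_filter, Finset.mem_product] at hx
        obtain ⟨⟨⟨h3, h4⟩, h5⟩, h6⟩ := hx
        rw [h6] at h5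
        obtain ⟨h7, h8⟩ := arc_close M H h a q θ X₁ X₂ hq haq hθ hX1 hHX hqX hθX v x.2 (hV v hv)
          (hV _ h4) h5
        obtain ⟨k, hk⟩ := h7
        have hqz : (q : ℤ) ≠ 0 := by
          have : 0 < q := hq
          positivity
        have e1 : ((v : ℤ) - x.2) / q = k := by
          rw [hk]
          exact Int.mul_ediv_cancel_left k hqz
        have e2 : (v : ℝ) - x.2 = q * k := by
          have := congrArg (fun z : ℤ => (z : ℝ)) hk
          push_cast at this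
          exact this
        have hkB : |(k : ℝ)| ≤ B := by
          rw [hB, le_div_iff₀ hden]
          rw [e2, abs_mul, abs_of_pos hq0] at h8
          have h9 : (q : ℝ) * |(k : ℝ)| ≤ X₂ := by
            have h10 : |(v : ℝ) - x.2| ≤ X₂ := by
              have e3 : (v : ℝ) < X₂ := by exact_mod_cast hV v hv
              have e4 : (x.2 : ℝ) < X₂ := by exact_mod_cast hV _ h4
              have e5 : (0 : ℝ) ≤ v := Nat.cast_nonneg _
              have e6 : (0 : ℝ) ≤ x.2 := Nat.cast_nonneg _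
              rw [abs_le]
              constructor <;> linarith
            rwa [e2, abs_mul, abs_of_pos hq0] at h10
          have h11 : (4 : ℝ) * H * X₁ ≤ M := by exact_mod_cast hHX
          have hX1R : (0 : ℝ) < X₁ := by exact_mod_cast hX1
          have h12 : |θ| * (q * |(k : ℝ)|) * (4 * X₁) ≤ 1 := by
            have h13 : |θ| * (q * |(k : ℝ)|) * M * (4 * X₁) ≤ H * (4 * X₁) :=
              mul_le_mul_of_nonneg_right h8.le (by positivity)
            have h14 : |θ| * (q * |(k : ℝ)|) * (4 * X₁) * M ≤ 1 * M := by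
              calc |θ| * (q * |(k : ℝ)|) * (4 * X₁) * M = |θ| * (q * |(k : ℝ)|) * M * (4 * X₁) := by ring
                _ ≤ H * (4 * X₁) := h13
                _ = 4 * H * X₁ := by ring
                _ ≤ M := h11
                _ = 1 * M := (one_mul _).symm
            exact le_of_mul_le_mul_right h14 hM
          have hX2 : (0 : ℝ) ≤ X₂ := Nat.cast_nonneg _
          have h15 : |θ| * (q * |(k : ℝ)|) * (4 * X₁) * X₂ ≤ 1 * X₂ :=
            mul_le_mul_of_nonneg_right h12 hX2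
          calc |(k : ℝ)| * (q * (1 + |θ| * X₁ * X₂))
              = q * |(k : ℝ)| + |θ| * (q * |(k : ℝ)|) * (4 * X₁) * X₂ / 4 := by ring
            _ ≤ X₂ + 1 * X₂ / 4 := by linarith
            _ = 5 / 4 * X₂ := by ring
        rw [Finset.mem_coe, Finset.mem_Icc]
        show -⌊B⌋ ≤ ((v : ℤ) - x.2) / q ∧ ((v : ℤ) - x.2) / q ≤ ⌊B⌋
        rw [e1]
        have h16 := abs_le.1 hkB
        constructor
        · have h17 : -k ≤ ⌊B⌋ := by
            rw [Int.le_floor]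
            push_cast
            linarith
          linarith
        · rw [Int.le_floor]
          exact h16.2
      · intro x hx y hy hxy
        rw [Finset.mem_coe, Finset.mem_filter, Finset.mem_filter, Finset.mem_product] at hx hy
        obtain ⟨⟨⟨h3, h4⟩, h5⟩, h6⟩ := hx
        obtain ⟨⟨⟨h3', h4'⟩, h5'⟩, h6'⟩ := hy
        rw [h6] at h5
        rw [h6'] at h5'
        obtain ⟨h7, _⟩ := arc_close M H h a q θ X₁ X₂ hq haq hθ hX1 hHX hqX hθX v x.2 (hV v hv)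
          (hV _ h4) h5
        obtain ⟨h7', _⟩ := arc_close M H h a q θ X₁ X₂ hq haq hθ hX1 hHX hqX hθX v y.2 (hV v hv)
          (hV _ h4') h5'
        have hxy' : ((v : ℤ) - x.2) / q = ((v : ℤ) - y.2) / q := hxy
        have e1 := Int.mul_ediv_cancel' h7
        have e2 := Int.mul_ediv_cancel' h7'
        rw [hxy', e2] at e1
        exact Prod.ext (h6.trans h6'.symm) (by omega)
    have h3 : ((Finset.Icc (-(⌊B⌋)) ⌊B⌋).card : ℝ) ≤ 1 + 2 * B := by
      rw [Int.card_Icc]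
      have h4 : 0 ≤ ⌊B⌋ := Int.floor_nonneg.2 hB0
      have h5 : (((⌊B⌋ + 1 - -⌊B⌋).toNat : ℕ) : ℝ) = ((⌊B⌋ + 1 - -⌊B⌋ : ℤ) : ℝ) := by
        have h6 : (((⌊B⌋ + 1 - -⌊B⌋).toNat : ℕ) : ℤ) = ⌊B⌋ + 1 - -⌊B⌋ :=
          Int.toNat_of_nonneg (by omega)
        exact_mod_cast congrArg (fun z : ℤ => (z : ℝ)) h6
      rw [h5]
      push_cast
      have h6 := Int.floor_le B
      linarith
    have h7 : ((((V ×ˢ V).filter (fun x => Arc M H h x.1 x.2)).filter
      (fun x => x.1 = v)).card : ℝ) ≤ ((Finset.Icc (-(⌊B⌋)) ⌊B⌋).card : ℝ) := by exact_mod_cast h2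
    exact h7.trans h3
  refine (Finset.sum_le_sum h1).trans (le_of_eq ?_)
  rw [Finset.sum_const, nsmul_eq_mul, hB]
  ring

/-- BILINEAR SUMS. If `h / M = a / q + θ` with `(a, q) = 1`, `q ≤ 2 X_1`, `|θ| q X_2 ≤ 1 / 4` then the
sum over `U ⊆ [0, X_1)`, `V ⊆ [0, X_2)` satisfies
`|S| ^ 2 ≤ 16 X_1 |U| |V| (1 + (5 / 2) X_2 / (q (1 + |θ| X_1 X_2)))`. -/
theorem bil_close (M : ℕ) [NeZero M] (h : ZMod M) (a : ℤ) (q : ℕ) (θ : ℝ) (X₁ X₂ : ℕ)
    (hq : 1 ≤ q) (haq : IsCoprime a (q : ℤ)) (hθ : ((h.val : ℕ) : ℝ) / M = a / q + θ) (hX1 : 1 ≤ X₁)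
    (hXM : 4 * X₁ ≤ M) (hqX : q ≤ 2 * X₁) (hθX : |θ| * q * X₂ ≤ 1 / 4) (U V : Finset ℕ)
    (hU : ∀ u ∈ U, u < X₁) (hV : ∀ v ∈ V, v < X₂) :
    ‖∑ u ∈ U, ∑ v ∈ V, (ZMod.stdAddChar (h * (u : ZMod M) * (v : ZMod M)) : ℂ)‖ ^ 2 ≤
      16 * X₁ * U.card * (V.card * (1 + 5 / 2 * X₂ / (q * (1 + |θ| * X₁ * X₂)))) := by
  classical
  have hM0 : 0 < M := Nat.pos_of_ne_zero (NeZero.ne M)
  have hM : (0 : ℝ) < M := by exact_mod_cast hM0
  obtain ⟨H, hH⟩ : ∃ H, H = M / (4 * X₁) := ⟨_, rfl⟩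
  have hH1 : 1 ≤ H := by
    rw [hH]
    exact (Nat.one_le_div_iff (by omega)).2 hXM
  have hHX : 4 * H * X₁ ≤ M := by
    have h1 : 4 * X₁ * H ≤ M := by
      rw [hH]
      exact Nat.mul_div_le _ _
    have h2 : 4 * H * X₁ = 4 * X₁ * H := by ring
    omega
  have hHup : M ≤ 8 * X₁ * H := by
    have h1 : M < 4 * X₁ * (H + 1) := by
      rw [hH]
      exact Nat.lt_mul_div_succ M (by omega)
    nlinarith
  have h1 := fejer_bil M h U V X₁ H hH1 hX1 hHX hU
  have h2 := arc_count M H h a q θ X₁ X₂ hq haq hθ hX1 hHX hqX hθX V hV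
  have hH0 : (0 : ℝ) < H := by exact_mod_cast hH1
  have h3 : 2 * (M : ℝ) / H ≤ 16 * X₁ := by
    rw [div_le_iff₀ hH0]
    have : (M : ℝ) ≤ 8 * X₁ * H := by exact_mod_cast hHup
    nlinarith
  refine h1.trans ?_
  calc (U.card : ℝ) * (2 * M / H * (((V ×ˢ V).filter (fun x => Arc M H h x.1 x.2)).card : ℝ))
      ≤ (U.card : ℝ) * (16 * X₁ *
          (V.card * (1 + 5 / 2 * X₂ / (q * (1 + |θ| * X₁ * X₂))))) := by
        refine mul_le_mul_of_nonneg_left ?_ (Nat.cast_nonneg _)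
        exact mul_le_mul h3 h2 (Nat.cast_nonneg _) (by positivity)
    _ = _ := by ring

end HadNT
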