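import Pool.Agent.Lib_MP_008adc_oct.CMinSum

set_option autoImplicit false

namespace HadNT

open Real Complex in
/-- the additive character `e(x) = exp (2 π i x)` -/
noncomputable def ee (x : ℝ) : ℂ := Complex.exp (Complex.I * ((2 * Real.pi * x : ℝ) : ℂ))

theorem norm_ee (x : ℝ) : ‖ee x‖ = 1 := by
  unfold ee
  rw [mul_comm]
  exact Complex.norm_exp_ofReal_mul_I _

theorem ee_add (x y : ℝ) : ee (x + y) = ee x * ee y := by
  unfold ee
  rw [← Complex.exp_add]
  congr 1
  push_cast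
  ring

theorem ee_zero : ee 0 = 1 := by simp [ee]

theorem ee_mul_nat (x : ℝ) (n : ℕ) : ee (x * n) = ee x ^ n := by
  unfold ee
  rw [← Complex.exp_nat_mul]
  congr 1
  push_cast
  ring

theorem ee_int (n : ℤ) : ee n = 1 := by
  unfold ee
  rw [Complex.exp_eq_one_iff]
  refine ⟨n, ?_⟩
  push_cast
  ring

theorem conj_ee (x : ℝ) : (starRingEnd ℂ) (ee x) = ee (-x) := by
  unfold ee
  rw [← Complex.exp_conj]
  congr 1
  rw [map_mul, Complex.conj_I, Complex.conj_ofReal]
  push_cast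
  ring

theorem nd_neg (x : ℝ) : nd (-x) = nd x := by
  apply le_antisymm
  · have h := nd_le (-x) (-(round x))
    have e : |(-x) - ((-(round x) : ℤ) : ℝ)| = |x - ((round x : ℤ) : ℝ)| := by
      push_cast
      rw [← abs_neg]
      congr 1
      ring
    rw [e] at h
    exact h
  · have h := nd_le x (-(round (-x)))
    have e : |x - ((-(round (-x)) : ℤ) : ℝ)| = |(-x) - ((round (-x) : ℤ) : ℝ)| := by
      push_cast
      rw [← abs_neg]
      congr 1
      ring
    rw [e] at h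
    exact h

theorem ms_neg (X x : ℝ) : ms X (-x) = ms X x := by
  unfold ms
  rw [nd_neg]

theorem four_nd_le (x : ℝ) : 4 * nd x ≤ ‖ee x - 1‖ := by
  have h1 : ee x = ee (x - round x) := by
    have h2 : x = (x - round x) + ((round x : ℤ) : ℝ) := by ring
    conv_lhs => rw [h2]
    rw [ee_add, ee_int, mul_one]
  have h2 : |x - round x| ≤ 1 / 2 := abs_sub_round x
  rw [h1]
  unfold ee
  rw [Complex.norm_exp_I_mul_ofReal_sub_one]
  have h3 : 2 * Real.pi * (x - round x) / 2 = Real.pi * (x - round x) := by ring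
  rw [h3, norm_mul, Real.norm_eq_abs, Real.norm_eq_abs, abs_two]
  have h4 : |Real.pi * (x - round x)| ≤ Real.pi / 2 := by
    rw [abs_mul, abs_of_pos Real.pi_pos]
    have := Real.pi_pos
    nlinarith
  have h5 := Real.mul_abs_le_abs_sin h4
  rw [abs_mul, abs_of_pos Real.pi_pos] at h5
  have h6 : 2 / Real.pi * (Real.pi * |x - round x|) = 2 * |x - round x| := by
    have := Real.pi_pos
    field_simp
  rw [h6] at h5
  unfold nd
  linarith

theorem norm_geom (X : ℕ) (x : ℝ) : ‖∑ u ∈ Finset.range X, ee (x * u)‖ ≤ ms X x := by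
  have h0 : ‖∑ u ∈ Finset.range X, ee (x * u)‖ ≤ X := by
    apply le_trans (norm_sum_le _ _)
    simp [norm_ee]
  unfold ms
  split_ifs with h
  · exact h0
  · apply le_min h0
    have hpos : 0 < nd x := lt_of_le_of_ne (nd_nonneg x) (Ne.symm h)
    have h1 := four_nd_le x
    have hne : ee x ≠ 1 := by
      intro he
      rw [he, sub_self, norm_zero] at h1
      linarith
    have h2 : ∑ u ∈ Finset.range X, ee (x * u) = (ee x ^ X - 1) / (ee x - 1) := by
      simp only [ee_mul_nat]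
      exact geom_sum_eq hne X
    rw [h2, norm_div]
    have h3 : ‖ee x ^ X - 1‖ ≤ 2 := by
      apply le_trans (norm_sub_le _ _)
      rw [norm_pow, norm_ee, one_pow, norm_one]
      norm_num
    rw [div_le_div_iff₀ (by linarith) (by positivity)]
    nlinarith [norm_nonneg (ee x ^ X - 1)]

/-- **bilinear sums, real frequency.** -/
theorem bil_real (U V : Finset ℕ) (X1 X2 : ℕ) (hU : ∀ u ∈ U, u < X1) (hV : ∀ v ∈ V, v < X2)
    (γ : ℝ) : ‖∑ u ∈ U, ∑ v ∈ V, ee (γ * u * v)‖ ^ 2 ≤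
      U.card * V.card * (2 * ∑ r ∈ Finset.range X2, ms X1 (γ * r)) := by
  -- Cauchy-Schwarz in u
  have h1 : ‖∑ u ∈ U, ∑ v ∈ V, ee (γ * u * v)‖ ^ 2 ≤
      U.card * ∑ u ∈ U, ‖∑ v ∈ V, ee (γ * u * v)‖ ^ 2 := by
    have h2 : ‖∑ u ∈ U, ∑ v ∈ V, ee (γ * u * v)‖ ≤ ∑ u ∈ U, ‖∑ v ∈ V, ee (γ * u * v)‖ :=
      norm_sum_le _ _
    calc ‖∑ u ∈ U, ∑ v ∈ V, ee (γ * u * v)‖ ^ 2
        ≤ (∑ u ∈ U, ‖∑ v ∈ V, ee (γ * u * v)‖) ^ 2 := by gcongr
      _ ≤ U.card * ∑ u ∈ U, ‖∑ v ∈ V, ee (γ * u * v)‖ ^ 2 := sq_sum_le_card_mul_sum_sq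
  have h2 : ∑ u ∈ U, ‖∑ v ∈ V, ee (γ * u * v)‖ ^ 2 ≤
      ∑ u ∈ Finset.range X1, ‖∑ v ∈ V, ee (γ * u * v)‖ ^ 2 := by
    apply Finset.sum_le_sum_of_subset_of_nonneg
    · intro u hu
      exact Finset.mem_range.mpr (hU u hu)
    · intro u _ _
      positivity
  -- open the square
  have h3 : ((∑ u ∈ Finset.range X1, ‖∑ v ∈ V, ee (γ * u * v)‖ ^ 2 : ℝ) : ℂ) =
      ∑ v ∈ V, ∑ v' ∈ V, ∑ u ∈ Finset.range X1, ee ((γ * ((v : ℝ) - v')) * u) := by
    push_cast
    have h4 : ∀ u ∈ Finset.range X1, ((‖∑ v ∈ V, ee (γ * u * v)‖ : ℂ)) ^ 2 =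
        ∑ v ∈ V, ∑ v' ∈ V, ee ((γ * ((v : ℝ) - v')) * u) := by
      intro u _
      rw [← Complex.mul_conj', map_sum, Finset.sum_mul_sum]
      apply Finset.sum_congr rfl
      intro v _
      apply Finset.sum_congr rfl
      intro v' _
      rw [conj_ee, ← ee_add]
      congr 1
      ring
    rw [Finset.sum_congr rfl h4, Finset.sum_comm]
    apply Finset.sum_congr rfl
    intro v _
    rw [Finset.sum_comm]
  have h4 : ∑ u ∈ Finset.range X1, ‖∑ v ∈ V, ee (γ * u * v)‖ ^ 2 ≤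
      ∑ v ∈ V, ∑ v' ∈ V, ms X1 (γ * ((v : ℝ) - v')) := by
    have h5 : ‖((∑ u ∈ Finset.range X1, ‖∑ v ∈ V, ee (γ * u * v)‖ ^ 2 : ℝ) : ℂ)‖ =
        ∑ u ∈ Finset.range X1, ‖∑ v ∈ V, ee (γ * u * v)‖ ^ 2 := by
      rw [Complex.norm_real, Real.norm_eq_abs, abs_of_nonneg]
      exact Finset.sum_nonneg (fun u _ => by positivity)
    rw [← h5, h3]
    apply le_trans (norm_sum_le _ _)
    apply Finset.sum_le_sum
    intro v _
    apply le_trans (norm_sum_le _ _)
    apply Finset.sum_le_sum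
    intro v' _
    exact norm_geom X1 _
  have hms : ∀ x, 0 ≤ ms (X1 : ℝ) x := fun x => ms_nonneg (Nat.cast_nonneg _) x
  have h5 : ∀ v ∈ V, ∑ v' ∈ V, ms X1 (γ * ((v : ℝ) - v')) ≤
      2 * ∑ r ∈ Finset.range X2, ms X1 (γ * r) := by
    intro v hv
    have hvX := hV v hv
    have h6 : ∑ v' ∈ V, ms X1 (γ * ((v : ℝ) - v')) ≤
        ∑ v' ∈ Finset.range X2, ms X1 (γ * ((v : ℝ) - v')) := by
      apply Finset.sum_le_sum_of_subset_of_nonneg
      · intro v' hv'
        exact Finset.mem_range.mpr (hV v' hv')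
      · intro v' _ _
        exact hms _
    have h7 : ∑ v' ∈ (Finset.range X2).filter (fun v' => v' ≤ v), ms X1 (γ * ((v : ℝ) - v')) ≤
        ∑ r ∈ Finset.range X2, ms X1 (γ * r) := by
      have hinj : Set.InjOn (fun v' : ℕ => v - v') ((Finset.range X2).filter (fun v' => v' ≤ v)) := by
        intro i hi j hj hij
        simp only [Finset.coe_filter, Finset.mem_range, Set.mem_ofPred_eq] at hi hj hij
        omega
      have h8 : ∑ v' ∈ (Finset.range X2).filter (fun v' => v' ≤ v), ms X1 (γ * ((v : ℝ) - v')) =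
          ∑ r ∈ ((Finset.range X2).filter (fun v' => v' ≤ v)).image (fun v' => v - v'),
            ms X1 (γ * (r : ℝ)) := by
        rw [Finset.sum_image (f := fun r : ℕ => ms X1 (γ * (r : ℝ))) hinj]
        apply Finset.sum_congr rfl
        intro v' hv'
        rw [Finset.mem_filter] at hv'
        rw [Nat.cast_sub hv'.2]
      rw [h8]
      apply Finset.sum_le_sum_of_subset_of_nonneg
      · intro r hr
        rw [Finset.mem_image] at hr
        obtain ⟨v', hv', rfl⟩ := hr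
        rw [Finset.mem_range]
        omega
      · intro r _ _
        exact hms _
    have h8 : ∑ v' ∈ (Finset.range X2).filter (fun v' => ¬ v' ≤ v),
        ms X1 (γ * ((v : ℝ) - v')) ≤ ∑ r ∈ Finset.range X2, ms X1 (γ * r) := by
      have hinj : Set.InjOn (fun v' : ℕ => v' - v)
          ((Finset.range X2).filter (fun v' => ¬ v' ≤ v)) := by
        intro i hi j hj hij
        simp only [Finset.coe_filter, Finset.mem_range, Set.mem_ofPred_eq] at hi hj hij
        omega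
      have h8 : ∑ v' ∈ (Finset.range X2).filter (fun v' => ¬ v' ≤ v),
          ms X1 (γ * ((v : ℝ) - v')) =
          ∑ r ∈ ((Finset.range X2).filter (fun v' => ¬ v' ≤ v)).image (fun v' => v' - v),
            ms X1 (γ * (r : ℝ)) := by
        rw [Finset.sum_image (f := fun r : ℕ => ms X1 (γ * (r : ℝ))) hinj]
        apply Finset.sum_congr rfl
        intro v' hv'
        rw [Finset.mem_filter] at hv'
        rw [Nat.cast_sub (by omega), ← ms_neg]
        congr 1
        ring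
      rw [h8]
      apply Finset.sum_le_sum_of_subset_of_nonneg
      · intro r hr
        rw [Finset.mem_image] at hr
        obtain ⟨v', hv', rfl⟩ := hr
        rw [Finset.mem_filter, Finset.mem_range] at hv'
        rw [Finset.mem_range]
        omega
      · intro r _ _
        exact hms _
    have h9 := Finset.sum_filter_add_sum_filter_not (Finset.range X2) (fun v' => v' ≤ v)
      (fun v' : ℕ => ms X1 (γ * ((v : ℝ) - v')))
    linarith
  have h6 : ∑ v ∈ V, ∑ v' ∈ V, ms X1 (γ * ((v : ℝ) - v')) ≤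
      V.card * (2 * ∑ r ∈ Finset.range X2, ms X1 (γ * r)) := by
    apply le_trans (Finset.sum_le_sum h5)
    rw [Finset.sum_const, nsmul_eq_mul]
  calc ‖∑ u ∈ U, ∑ v ∈ V, ee (γ * u * v)‖ ^ 2
      ≤ U.card * ∑ u ∈ U, ‖∑ v ∈ V, ee (γ * u * v)‖ ^ 2 := h1
    _ ≤ U.card * (V.card * (2 * ∑ r ∈ Finset.range X2, ms X1 (γ * r))) := by
        apply mul_le_mul_of_nonneg_left _ (Nat.cast_nonneg _)
        linarith
    _ = _ := by ring

end HadNT
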