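import Mathlib

set_option autoImplicit false

namespace HadNT

/-- distance to the nearest integer -/
noncomputable def nd (x : ℝ) : ℝ := |x - round x|

theorem nd_nonneg (x : ℝ) : 0 ≤ nd x := abs_nonneg _

theorem nd_le (x : ℝ) (n : ℤ) : nd x ≤ |x - n| := round_le x n

theorem nd_add_int (x : ℝ) (n : ℤ) : nd (x + n) = nd x := by
  unfold nd
  rw [round_add_intCast]
  push_cast
  congr 1
  ring

theorem nd_sub_le (x y : ℝ) : nd y - |x - y| ≤ nd x := by
  have h := nd_le y (round x)
  have h2 : |y - (round x : ℤ)| ≤ |y - x| + |x - (round x : ℤ)| := abs_sub_le _ _ _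
  have h3 : |y - x| = |x - y| := abs_sub_comm _ _
  unfold nd at *
  linarith

theorem nd_eq_abs {x : ℝ} (h : |x| ≤ 1 / 2) : nd x = |x| := by
  apply le_antisymm
  · have := nd_le x 0
    simpa using this
  · unfold nd
    rcases eq_or_ne (round x) 0 with h0 | h0
    · simp [h0]
    · have h1 : (1 : ℝ) ≤ |((round x : ℤ) : ℝ)| := by
        rw [← Int.cast_abs]
        exact_mod_cast Int.one_le_abs h0
      have h2 : |((round x : ℤ) : ℝ)| ≤ |x| + |x - (round x : ℤ)| := by
        have := abs_sub_le (((round x : ℤ) : ℝ)) x 0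
        simp only [sub_zero] at this
        rw [abs_sub_comm] at this
        linarith
      linarith

theorem nd_pos_of {x : ℝ} {c : ℝ} (hc : c ≤ nd x) (h : 0 < c) : 0 < nd x := lt_of_lt_of_le h hc

/-- `1 / nd (j/q) ≤ q/j + q/(q-j)` -/
theorem inv_nd_div (q j : ℕ) (hj : 0 < j) (hjq : j < q) :
    1 / (q : ℝ) ≤ nd ((j : ℝ) / q) ∧
    1 / nd ((j : ℝ) / q) ≤ (q : ℝ) / j + (q : ℝ) / ((q - j : ℕ) : ℝ) := by
  have hq : (0 : ℝ) < q := by exact_mod_cast lt_trans hj hjq
  have hjr : (1 : ℝ) ≤ j := by exact_mod_cast hj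
  have hqj : (1 : ℝ) ≤ ((q - j : ℕ) : ℝ) := by exact_mod_cast (by omega : 1 ≤ q - j)
  have hqj' : ((q - j : ℕ) : ℝ) = (q : ℝ) - j := by
    rw [Nat.cast_sub hjq.le]
  have key : min (j : ℝ) ((q - j : ℕ) : ℝ) / q ≤ nd ((j : ℝ) / q) := by
    unfold nd
    set n := round ((j : ℝ) / q) with hn
    rw [div_le_iff₀ hq]
    have e : |(j : ℝ) / q - (n : ℤ)| * q = |(j : ℝ) - (n : ℤ) * q| := by
      rw [← abs_of_pos hq, ← abs_mul, abs_of_pos hq]
      congr 1
      field_simp
    rw [e]
    rcases le_or_gt n 0 with h0 | h0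
    · apply le_trans (min_le_left _ _)
      have : ((n : ℤ) : ℝ) * q ≤ 0 := by
        apply mul_nonpos_of_nonpos_of_nonneg
        · exact_mod_cast h0
        · exact hq.le
      rw [abs_of_nonneg (by linarith)]
      linarith
    · apply le_trans (min_le_right _ _)
      have h1 : (1 : ℝ) ≤ ((n : ℤ) : ℝ) := by exact_mod_cast h0
      have : (q : ℝ) ≤ ((n : ℤ) : ℝ) * q := by nlinarith
      rw [hqj', abs_of_nonpos (by
        have : (j : ℝ) < q := by exact_mod_cast hjq
        linarith)]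
      linarith
  have hmin : 1 ≤ min (j : ℝ) ((q - j : ℕ) : ℝ) := le_min hjr hqj
  refine ⟨le_trans ?_ key, ?_⟩
  · gcongr
  · have h1 : 1 / nd ((j : ℝ) / q) ≤ 1 / (min (j : ℝ) ((q - j : ℕ) : ℝ) / q) := by
      apply one_div_le_one_div_of_le _ key
      positivity
    apply le_trans h1
    rw [one_div_div]
    rcases min_choice (j : ℝ) ((q - j : ℕ) : ℝ) with h | h
    · rw [h]
      have : 0 ≤ (q : ℝ) / ((q - j : ℕ) : ℝ) := by positivity
      linarith
    · rw [h]
      have : 0 ≤ (q : ℝ) / (j : ℝ) := by positivity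
      linarith

theorem sum_inv_nd_le (q : ℕ) (hq : 0 < q) :
    ∑ j ∈ (Finset.range q).erase 0, 1 / nd ((j : ℝ) / q) ≤ 2 * q * (1 + Real.log q) := by
  have h1 : ∑ j ∈ (Finset.range q).erase 0, 1 / nd ((j : ℝ) / q) ≤
      ∑ j ∈ (Finset.range q).erase 0, ((q : ℝ) / j + (q : ℝ) / ((q - j : ℕ) : ℝ)) := by
    apply Finset.sum_le_sum
    intro j hj
    rw [Finset.mem_erase, Finset.mem_range] at hj
    exact (inv_nd_div q j (Nat.pos_of_ne_zero hj.1) hj.2).2
  apply le_trans h1
  rw [Finset.sum_add_distrib]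
  have e : (Finset.range q).erase 0 = Finset.Ioo 0 q := by
    ext j
    simp only [Finset.mem_erase, Finset.mem_range, Finset.mem_Ioo]
    omega
  have h2 : ∑ j ∈ (Finset.range q).erase 0, (q : ℝ) / ((q - j : ℕ) : ℝ) =
      ∑ j ∈ (Finset.range q).erase 0, (q : ℝ) / j := by
    rw [e]
    apply Finset.sum_nbij' (fun j => q - j) (fun j => q - j)
    · intro j hj; simp only [Finset.mem_Ioo] at *; omega
    · intro j hj; simp only [Finset.mem_Ioo] at *; omega
    · intro j hj; simp only [Finset.mem_Ioo] at *; omega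
    · intro j hj; simp only [Finset.mem_Ioo] at *; omega
    · intro j hj; rfl
  rw [h2]
  have h3 : ∑ j ∈ (Finset.range q).erase 0, (q : ℝ) / j ≤ q * (1 + Real.log q) := by
    have h4 : ∑ j ∈ (Finset.range q).erase 0, (q : ℝ) / j ≤ q * (harmonic q : ℝ) := by
      rw [harmonic_eq_sum_Icc]
      push_cast
      rw [Finset.mul_sum]
      have h5 : ∑ j ∈ (Finset.range q).erase 0, (q : ℝ) / j =
          ∑ j ∈ (Finset.range q).erase 0, (q : ℝ) * ((j : ℝ))⁻¹ := by
        apply Finset.sum_congr rfl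
        intro j _
        rw [div_eq_mul_inv]
      rw [h5]
      apply Finset.sum_le_sum_of_subset_of_nonneg
      · rw [e]
        intro j hj
        simp only [Finset.mem_Ioo, Finset.mem_Icc] at *
        omega
      · intro j _ _
        positivity
    apply le_trans h4
    have := harmonic_le_one_add_log q
    gcongr
  linarith

theorem sum_range_mul_periodic (f : ℕ → ℝ) (q m : ℕ) (hf : ∀ n, f (n + q) = f n) :
    ∑ r ∈ Finset.range (m * q), f r = m * ∑ r ∈ Finset.range q, f r := by
  induction m with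
  | zero => simp
  | succ m ih =>
    have hp : ∀ x, f (m * q + x) = f x := by
      intro x
      clear ih
      induction m with
      | zero => simp
      | succ k ihk =>
        rw [← ihk, ← hf (k * q + x)]
        congr 1
        ring
    rw [Nat.succ_mul, Finset.sum_range_add, ih]
    simp only [hp]
    push_cast
    ring

/-- the terms not divisible by `q` -/
theorem sum_not_dvd (q N : ℕ) (hq : 0 < q) (a : ℤ) (ha : IsCoprime a (q : ℤ)) :
    ∑ r ∈ (Finset.range N).filter (fun r => ¬ q ∣ r), 1 / nd ((a : ℝ) * r / q) ≤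
      ((N / q : ℕ) + 1) * (2 * q * (1 + Real.log q)) := by
  have hq' : (0 : ℝ) < q := by exact_mod_cast hq
  set G : ℕ → ℝ := fun r => if q ∣ r then 0 else 1 / nd ((a : ℝ) * r / q) with hG
  have hG0 : ∀ r, 0 ≤ G r := by
    intro r
    simp only [hG]
    split_ifs
    · exact le_rfl
    · exact one_div_nonneg.mpr (nd_nonneg _)
  have hper : ∀ n, G (n + q) = G n := by
    intro n
    simp only [hG]
    have h1 : q ∣ n + q ↔ q ∣ n := by simp
    have h2 : (a : ℝ) * ((n + q : ℕ) : ℝ) / q = (a : ℝ) * n / q + (a : ℤ) := by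
      push_cast
      field_simp
    simp only [h1, h2, nd_add_int]
  have h1 : ∑ r ∈ (Finset.range N).filter (fun r => ¬ q ∣ r), 1 / nd ((a : ℝ) * r / q) =
      ∑ r ∈ Finset.range N, G r := by
    rw [Finset.sum_filter]
    apply Finset.sum_congr rfl
    intro r _
    simp only [hG]
    by_cases h : q ∣ r <;> simp [h]
  have h2 : ∑ r ∈ Finset.range N, G r ≤ ∑ r ∈ Finset.range ((N / q + 1) * q), G r := by
    apply Finset.sum_le_sum_of_subset_of_nonneg
    · apply Finset.range_subset_range.mpr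
      have := Nat.lt_div_mul_add (a := N) hq
      nlinarith
    · intro r _ _
      exact hG0 r
  rw [h1]
  apply le_trans h2
  rw [sum_range_mul_periodic G q _ hper]
  push_cast
  apply mul_le_mul_of_nonneg_left _ (by positivity)
  -- one period
  apply le_trans _ (sum_inv_nd_le q hq)
  have h3 : ∑ r ∈ Finset.range q, G r = ∑ r ∈ (Finset.range q).erase 0, 1 / nd ((a : ℝ) * r / q) := by
    rw [← Finset.add_sum_erase _ _ (Finset.mem_range.mpr hq)]
    have : G 0 = 0 := by simp [hG]
    rw [this, zero_add]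
    apply Finset.sum_congr rfl
    intro r hr
    rw [Finset.mem_erase, Finset.mem_range] at hr
    simp only [hG]
    rw [if_neg]
    intro hd
    exact absurd (Nat.le_of_dvd (Nat.pos_of_ne_zero hr.1) hd) (by omega)
  rw [h3]
  have hqz : (q : ℤ) ≠ 0 := by exact_mod_cast hq.ne'
  -- reindex r ↦ a r mod q
  have key : ∀ r : ℕ, nd ((a : ℝ) * r / q) = nd ((((a * r) % (q : ℤ)).toNat : ℝ) / q) := by
    intro r
    have h4 : (a * r : ℤ) = q * ((a * r) / q) + (a * r) % q := (Int.mul_ediv_add_emod _ _).symm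
    have h5 : (((a * r) % (q : ℤ)).toNat : ℤ) = (a * r) % q :=
      Int.toNat_of_nonneg (Int.emod_nonneg _ hqz)
    have h6 : (a : ℝ) * r / q = (((a * r) % (q : ℤ)).toNat : ℝ) / q + (((a * r) / (q : ℤ) : ℤ) : ℝ) := by
      have h7 : (a : ℝ) * r = (q : ℝ) * (((a * r) / (q : ℤ) : ℤ) : ℝ) +
          ((((a * r) % (q : ℤ)).toNat : ℤ) : ℝ) := by
        rw [h5]
        exact_mod_cast h4
      rw [h7]
      push_cast
      field_simp
      ring
    rw [h6, nd_add_int]
  have h8 : ∑ r ∈ (Finset.range q).erase 0, 1 / nd ((a : ℝ) * r / q) =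
      ∑ r ∈ (Finset.range q).erase 0, 1 / nd ((((a * r) % (q : ℤ)).toNat : ℝ) / q) := by
    apply Finset.sum_congr rfl
    intro r _
    rw [key]
  rw [h8]
  have hcop : ∀ r : ℕ, r ∈ (Finset.range q).erase 0 → ((a * r) % (q : ℤ)) ≠ 0 := by
    intro r hr h0
    rw [Finset.mem_erase, Finset.mem_range] at hr
    have hd : (q : ℤ) ∣ a * r := Int.dvd_of_emod_eq_zero h0
    have hd2 : (q : ℤ) ∣ r := ha.symm.dvd_of_dvd_mul_left hd
    have hd3 : q ∣ r := by exact_mod_cast hd2
    exact absurd (Nat.le_of_dvd (Nat.pos_of_ne_zero hr.1) hd3) (by omega)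
  have hmaps : ∀ r ∈ (Finset.range q).erase 0,
      ((a * r) % (q : ℤ)).toNat ∈ (Finset.range q).erase 0 := by
    intro r hr
    have h9 := hcop r hr
    have h10 := Int.emod_nonneg (a * r) hqz
    have h11 := Int.emod_lt_of_pos (a * r) (by exact_mod_cast hq : (0 : ℤ) < q)
    rw [Finset.mem_erase, Finset.mem_range]
    constructor
    · omega
    · omega
  have hinj : Set.InjOn (fun r : ℕ => ((a * r) % (q : ℤ)).toNat) ((Finset.range q).erase 0) := by
    intro r hr s hs hrs
    simp only [Finset.coe_erase, Set.mem_sdiff, Finset.mem_coe, Finset.mem_range] at hr hs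
    simp only at hrs
    have h10 := Int.emod_nonneg (a * r) hqz
    have h11 := Int.emod_nonneg (a * s) hqz
    have h12 : (a * r) % (q : ℤ) = (a * s) % (q : ℤ) := by omega
    have h13 : (q : ℤ) ∣ a * r - a * s := Int.ModEq.dvd (Int.ModEq.symm h12)
    rw [← mul_sub] at h13
    have h14 : (q : ℤ) ∣ (r : ℤ) - s := ha.symm.dvd_of_dvd_mul_left h13
    have h15 := Int.eq_zero_of_abs_lt_dvd h14 (by
      rw [abs_lt]
      constructor <;> [have := hs.1; have := hr.1] <;> omega)
    omega
  rw [← Finset.sum_image (f := fun j : ℕ => 1 / nd ((j : ℝ) / q)) hinj]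
  apply Finset.sum_le_sum_of_subset_of_nonneg
  · intro j hj
    rw [Finset.mem_image] at hj
    obtain ⟨r, hr, rfl⟩ := hj
    exact hmaps r hr
  · intro j _ _
    exact one_div_nonneg.mpr (nd_nonneg _)

end HadNT
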