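import Pool.Agent.Lib_MP_008adc_oct.CDist

set_option autoImplicit false

namespace HadNT

/-- the bound `min (X, 1 / (2 nd x))` for a geometric sum with `X` terms -/
noncomputable def ms (X : ℝ) (x : ℝ) : ℝ := if nd x = 0 then X else min X (1 / (2 * nd x))

theorem ms_le (X x : ℝ) : ms X x ≤ X := by
  unfold ms
  split_ifs
  · exact le_rfl
  · exact min_le_left _ _

theorem ms_nonneg {X : ℝ} (hX : 0 ≤ X) (x : ℝ) : 0 ≤ ms X x := by
  unfold ms
  split_ifs
  · exact hX
  · exact le_min hX (by have := nd_nonneg x; positivity)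

theorem ms_le_inv {X x c : ℝ} (hc : 0 < c) (h : c ≤ nd x) : ms X x ≤ 1 / (2 * c) := by
  have h1 : nd x ≠ 0 := by
    intro h0
    linarith
  unfold ms
  rw [if_neg h1]
  apply le_trans (min_le_right _ _)
  apply one_div_le_one_div_of_le (by positivity)
  linarith

/-- **min-sum.** -/
theorem min_sum (q X2 : ℕ) (hq : 0 < q) (hX2 : 0 < X2) (X1 : ℝ) (hX1 : 1 ≤ X1) (a : ℤ)
    (ha : IsCoprime a (q : ℤ)) (θ : ℝ) (hθ : |θ| * q * X2 ≤ 1 / 4) :
    ∑ r ∈ Finset.range X2, ms X1 (((a : ℝ) / q + θ) * r) ≤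
      X1 + 6 * (1 + Real.log (q + X2)) * (X2 + q + X1 * X2 / (q * (1 + |θ| * X1 * X2))) := by
  have hq' : (1 : ℝ) ≤ q := by exact_mod_cast hq
  have hq0 : (0 : ℝ) < q := by linarith
  have hX2' : (1 : ℝ) ≤ X2 := by exact_mod_cast hX2
  have hX20 : (0 : ℝ) < X2 := by linarith
  have hth : 0 ≤ |θ| := abs_nonneg θ
  set Λ : ℝ := 1 + Real.log (q + X2) with hΛ
  have hlog : 0 ≤ Real.log (q + X2) := Real.log_nonneg (by linarith)
  have hΛ1 : 1 ≤ Λ := by rw [hΛ]; linarith
  -- the terms not divisible by q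
  have hA : ∑ r ∈ (Finset.range X2).filter (fun r => ¬ q ∣ r), ms X1 (((a : ℝ) / q + θ) * r) ≤
      2 * Λ * (X2 + q) := by
    have h1 : ∀ r ∈ (Finset.range X2).filter (fun r => ¬ q ∣ r),
        ms X1 (((a : ℝ) / q + θ) * r) ≤ (2 / 3) * (1 / nd ((a : ℝ) * r / q)) := by
      intro r hr
      rw [Finset.mem_filter, Finset.mem_range] at hr
      have hr0 : 0 < r := by
        rcases Nat.eq_zero_or_pos r with h | h
        · exact absurd (h ▸ dvd_zero q) hr.2
        · exact h
      -- nd (a r / q) ≥ 1/q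
      have h2 : 1 / (q : ℝ) ≤ nd ((a : ℝ) * r / q) := by
        have hqz : (q : ℤ) ≠ 0 := by exact_mod_cast hq.ne'
        have h4 : (a * r : ℤ) = q * ((a * r) / q) + (a * r) % q := (Int.mul_ediv_add_emod _ _).symm
        have h10 := Int.emod_nonneg (a * r) hqz
        have h11 := Int.emod_lt_of_pos (a * r) (by exact_mod_cast hq : (0 : ℤ) < q)
        have h5 : (((a * r) % (q : ℤ)).toNat : ℤ) = (a * r) % q := Int.toNat_of_nonneg h10
        have h12 : (a * r) % (q : ℤ) ≠ 0 := by
          intro h0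
          have hd : (q : ℤ) ∣ a * r := Int.dvd_of_emod_eq_zero h0
          have hd2 : (q : ℤ) ∣ r := ha.symm.dvd_of_dvd_mul_left hd
          exact hr.2 (by exact_mod_cast hd2)
        have h6 : (a : ℝ) * r / q =
            (((a * r) % (q : ℤ)).toNat : ℝ) / q + (((a * r) / (q : ℤ) : ℤ) : ℝ) := by
          have h7 : (a : ℝ) * r = (q : ℝ) * (((a * r) / (q : ℤ) : ℤ) : ℝ) +
              ((((a * r) % (q : ℤ)).toNat : ℤ) : ℝ) := by
            rw [h5]
            exact_mod_cast h4
          rw [h7]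
          push_cast
          field_simp
          ring
        rw [h6, nd_add_int]
        exact (inv_nd_div q _ (by omega) (by omega)).1
      have h3 : |((a : ℝ) / q + θ) * r - (a : ℝ) * r / q| ≤ 1 / (4 * q) := by
        have : ((a : ℝ) / q + θ) * r - (a : ℝ) * r / q = θ * r := by ring
        rw [this, abs_mul, Nat.abs_cast]
        have hrX : (r : ℝ) ≤ X2 := by exact_mod_cast hr.1.le
        rw [le_div_iff₀ (by positivity)]
        have : |θ| * r ≤ |θ| * X2 := by gcongr
        nlinarith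
      have h4 := nd_sub_le (((a : ℝ) / q + θ) * r) ((a : ℝ) * r / q)
      have h5 : 1 / (4 * (q : ℝ)) ≤ (1 / 4) * nd ((a : ℝ) * r / q) := by
        have : 1 / (4 * (q : ℝ)) = (1 / 4) * (1 / q) := by field_simp
        rw [this]
        gcongr
      have h6 : (3 / 4) * nd ((a : ℝ) * r / q) ≤ nd (((a : ℝ) / q + θ) * r) := by linarith
      have h7 : 0 < nd ((a : ℝ) * r / q) := lt_of_lt_of_le (by positivity) h2
      apply le_trans (ms_le_inv (by positivity) h6)
      apply le_of_eq
      field_simp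
      norm_num
    apply le_trans (Finset.sum_le_sum h1)
    rw [← Finset.mul_sum]
    have h2 := sum_not_dvd q X2 hq a ha
    have h3 : (((X2 / q : ℕ) : ℝ) + 1) * (2 * q * (1 + Real.log q)) ≤ 2 * (X2 + q) * Λ := by
      have h4 : ((X2 / q : ℕ) : ℝ) ≤ X2 / q := Nat.cast_div_le
      have h5 : Real.log q ≤ Real.log (q + X2) := Real.log_le_log hq0 (by linarith)
      have h6 : 1 + Real.log q ≤ Λ := by rw [hΛ]; linarith
      have h7 : 0 ≤ 1 + Real.log q := by have := Real.log_nonneg hq'; linarith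
      calc (((X2 / q : ℕ) : ℝ) + 1) * (2 * q * (1 + Real.log q))
          ≤ ((X2 : ℝ) / q + 1) * (2 * q * Λ) := by gcongr
        _ = 2 * (X2 + q) * Λ := by field_simp
    have h4 := le_trans h2 h3
    have h5 : 0 ≤ 2 * ((X2 : ℝ) + q) * Λ := by positivity
    linarith
  -- the multiples of q
  have hB : ∑ r ∈ (Finset.range X2).filter (fun r => q ∣ r), ms X1 (((a : ℝ) / q + θ) * r) ≤
      X1 + 4 * Λ * (X1 * X2 / (q * (1 + |θ| * X1 * X2))) := by
    have h1 : (Finset.range X2).filter (fun r => q ∣ r) ⊆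
        (Finset.range (X2 / q + 1)).image (fun j => q * j) := by
      intro r hr
      rw [Finset.mem_filter, Finset.mem_range] at hr
      obtain ⟨j, rfl⟩ := hr.2
      rw [Finset.mem_image]
      refine ⟨j, ?_, rfl⟩
      rw [Finset.mem_range, Nat.lt_succ_iff, Nat.le_div_iff_mul_le hq]
      have := hr.1
      rw [mul_comm]
      exact this.le
    have hinj : Set.InjOn (fun j : ℕ => q * j) (Finset.range (X2 / q + 1)) := by
      intro i _ j _ hij
      exact Nat.eq_of_mul_eq_mul_left hq hij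
    have h2 : ∑ r ∈ (Finset.range X2).filter (fun r => q ∣ r), ms X1 (((a : ℝ) / q + θ) * r) ≤
        ∑ j ∈ Finset.range (X2 / q + 1), ms X1 (((a : ℝ) / q + θ) * ((q * j : ℕ) : ℝ)) := by
      rw [← Finset.sum_image (f := fun r : ℕ => ms X1 (((a : ℝ) / q + θ) * (r : ℝ))) hinj]
      apply Finset.sum_le_sum_of_subset_of_nonneg h1
      intro r _ _
      exact ms_nonneg (by linarith) _
    apply le_trans h2
    rw [Finset.sum_range_succ']
    have h3 : ms X1 (((a : ℝ) / q + θ) * ((q * 0 : ℕ) : ℝ)) ≤ X1 := ms_le _ _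
    have hN : ((X2 / q : ℕ) : ℝ) ≤ X2 / q := Nat.cast_div_le
    have hnd : ∀ j ∈ Finset.range (X2 / q),
        nd (((a : ℝ) / q + θ) * ((q * (j + 1) : ℕ) : ℝ)) = |θ| * q * (j + 1) := by
      intro j hj
      have h4 : ((a : ℝ) / q + θ) * ((q * (j + 1) : ℕ) : ℝ) =
          θ * q * (j + 1) + ((a * ((j + 1 : ℕ) : ℤ) : ℤ) : ℝ) := by
        push_cast
        field_simp
        ring
      have h5 : |θ * q * ((j : ℝ) + 1)| = |θ| * q * (j + 1) := by
        rw [abs_mul, abs_mul, abs_of_pos hq0, abs_of_pos (by positivity : (0 : ℝ) < (j : ℝ) + 1)]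
      rw [h4, nd_add_int, nd_eq_abs, h5]
      rw [h5]
      rw [Finset.mem_range] at hj
      have h6 : ((j : ℝ) + 1) ≤ X2 / q := by
        have : ((j + 1 : ℕ) : ℝ) ≤ ((X2 / q : ℕ) : ℝ) := by exact_mod_cast hj
        push_cast at this
        linarith
      have h7 : (X2 : ℝ) / q ≤ X2 := div_le_self hX20.le hq'
      have h8 : |θ| * q * ((j : ℝ) + 1) ≤ |θ| * q * X2 := by gcongr; linarith
      linarith
    have hY : 0 ≤ X1 * X2 / (q * (1 + |θ| * X1 * X2)) := by positivity
    rcases le_or_gt (|θ| * X1 * X2) 1 with hs | hs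
    · -- small
      have h4 : ∑ j ∈ Finset.range (X2 / q), ms X1 (((a : ℝ) / q + θ) * ((q * (j + 1) : ℕ) : ℝ)) ≤
          ∑ j ∈ Finset.range (X2 / q), X1 := Finset.sum_le_sum (fun j _ => ms_le _ _)
      rw [Finset.sum_const, Finset.card_range, nsmul_eq_mul] at h4
      have h5 : ((X2 / q : ℕ) : ℝ) * X1 ≤ 2 * (X1 * X2 / (q * (1 + |θ| * X1 * X2))) := by
        have h6 : ((X2 / q : ℕ) : ℝ) * X1 ≤ X2 / q * X1 := by gcongr
        have h7 : (X2 : ℝ) / q * X1 ≤ 2 * (X1 * X2 / (q * (1 + |θ| * X1 * X2))) := by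
          rw [show 2 * (X1 * X2 / (q * (1 + |θ| * X1 * X2))) =
            (X2 / q * X1) * (2 / (1 + |θ| * X1 * X2)) by field_simp]
          apply le_mul_of_one_le_right (by positivity)
          rw [le_div_iff₀ (by positivity)]
          linarith
        linarith
      have h8 : 2 * (X1 * X2 / (q * (1 + |θ| * X1 * X2))) ≤
          4 * Λ * (X1 * X2 / (q * (1 + |θ| * X1 * X2))) := by
        apply mul_le_mul_of_nonneg_right _ hY
        linarith
      linarith
    · have hth0 : 0 < |θ| := by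
        rcases hth.lt_or_eq with h | h
        · exact h
        · rw [← h] at hs
          norm_num at hs
      have h4 : ∑ j ∈ Finset.range (X2 / q), ms X1 (((a : ℝ) / q + θ) * ((q * (j + 1) : ℕ) : ℝ)) ≤
          ∑ j ∈ Finset.range (X2 / q), (1 / (2 * |θ| * q)) * (1 / ((j : ℝ) + 1)) := by
        apply Finset.sum_le_sum
        intro j hj
        apply le_trans (ms_le_inv (c := |θ| * q * (j + 1)) (by positivity) (hnd j hj).ge)
        apply le_of_eq
        field_simp
      rw [← Finset.mul_sum] at h4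
      have h5 : ∑ j ∈ Finset.range (X2 / q), 1 / ((j : ℝ) + 1) ≤ Λ := by
        have h6 : ∑ j ∈ Finset.range (X2 / q), 1 / ((j : ℝ) + 1) = (harmonic (X2 / q) : ℝ) := by
          unfold harmonic
          push_cast
          apply Finset.sum_congr rfl
          intro j _
          rw [one_div]
        rw [h6]
        apply le_trans (harmonic_le_one_add_log _)
        rw [hΛ]
        have h7 : Real.log ((X2 / q : ℕ) : ℝ) ≤ Real.log (q + X2) := by
          rcases Nat.eq_zero_or_pos (X2 / q) with h0 | h0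
          · rw [h0]
            simpa using hlog
          · apply Real.log_le_log (by exact_mod_cast h0)
            have : (X2 : ℝ) / q ≤ X2 := div_le_self hX20.le hq'
            linarith
        linarith
      have h6 : (1 / (2 * |θ| * q)) * ∑ j ∈ Finset.range (X2 / q), 1 / ((j : ℝ) + 1) ≤
          (1 / (2 * |θ| * q)) * Λ := by gcongr
      have h7 : (1 / (2 * |θ| * q)) * Λ ≤ 4 * Λ * (X1 * X2 / (q * (1 + |θ| * X1 * X2))) := by
        have h8 : 1 / (2 * |θ| * q) ≤ 4 * (X1 * X2 / (q * (1 + |θ| * X1 * X2))) := by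
          rw [← mul_div_assoc, div_le_div_iff₀ (by positivity) (by positivity)]
          have h9 : 0 ≤ (q : ℝ) * (|θ| * X1 * X2 - 1) := by
            apply mul_nonneg hq0.le
            linarith
          have h10 : 0 ≤ |θ| * q * X1 * X2 := by positivity
          nlinarith
        calc (1 / (2 * |θ| * q)) * Λ ≤ 4 * (X1 * X2 / (q * (1 + |θ| * X1 * X2))) * Λ := by
              gcongr
          _ = _ := by ring
      linarith
  have hsplit : ∑ r ∈ Finset.range X2, ms X1 (((a : ℝ) / q + θ) * r) =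
      ∑ r ∈ (Finset.range X2).filter (fun r => q ∣ r), ms X1 (((a : ℝ) / q + θ) * r) +
      ∑ r ∈ (Finset.range X2).filter (fun r => ¬ q ∣ r), ms X1 (((a : ℝ) / q + θ) * r) :=
    (Finset.sum_filter_add_sum_filter_not _ _ _).symm
  rw [hsplit]
  have hY : 0 ≤ X1 * X2 / (q * (1 + |θ| * X1 * X2)) := by positivity
  have h1 : 0 ≤ Λ * ((X2 : ℝ) + q) := by positivity
  have h2 : 0 ≤ Λ * (X1 * X2 / (q * (1 + |θ| * X1 * X2))) := by positivity
  have h3 : 6 * Λ * (X2 + q + X1 * X2 / (q * (1 + |θ| * X1 * X2))) =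
      6 * (Λ * ((X2 : ℝ) + q)) + 6 * (Λ * (X1 * X2 / (q * (1 + |θ| * X1 * X2)))) := by ring
  rw [h3]
  have h4 : 2 * Λ * ((X2 : ℝ) + q) = 2 * (Λ * ((X2 : ℝ) + q)) := by ring
  have h5 : 4 * Λ * (X1 * X2 / (q * (1 + |θ| * X1 * X2))) =
      4 * (Λ * (X1 * X2 / (q * (1 + |θ| * X1 * X2)))) := by ring
  rw [h4] at hA
  rw [h5] at hB
  linarith

end HadNT
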