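import Mathlib

/-!
# Part (B): the sum over all frequencies of the inverse cube of `Z`
-/

set_option autoImplicit false

namespace HadNT

theorem sum_inv_sq_le (n : ℕ) : ∑ k ∈ Finset.range n, 1 / ((1 : ℝ) + k) ^ 2 ≤ 2 := by
  have h : ∀ n : ℕ, ∑ k ∈ Finset.range (n + 1), 1 / ((1 : ℝ) + k) ^ 2 ≤ 2 - 1 / ((n : ℝ) + 1) := by
    intro n
    induction n with
    | zero => norm_num
    | succ n ih =>
      rw [Finset.sum_range_succ]
      push_cast
      have h0 : (0 : ℝ) ≤ n := Nat.cast_nonneg n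
      have h1 : 1 / ((1 : ℝ) + (n + 1)) ^ 2 ≤ 1 / ((n : ℝ) + 1) - 1 / ((n : ℝ) + 1 + 1) := by
        rw [div_sub_div _ _ (by positivity) (by positivity),
          div_le_div_iff₀ (by positivity) (by positivity)]
        nlinarith
      linarith
  rcases Nat.eq_zero_or_pos n with hn | hn
  · subst hn
    simp
  · obtain ⟨m, rfl⟩ : ∃ m, n = m + 1 := ⟨n - 1, by omega⟩
    have h1 := h m
    have h2 : 0 ≤ 1 / ((m : ℝ) + 1) := by positivity
    linarith

/-- integers at distance at least `0, 1, 2, ...` on each side -/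
theorem sum_inner (H : Finset ℕ) (y : ℝ) (hy : 0 ≤ y) :
    ∑ h ∈ H, 1 / (1 + |(h : ℝ) - y|) ^ 2 ≤ 4 := by
  set m := ⌊y⌋₊ with hm
  have hm1 : (m : ℝ) ≤ y := Nat.floor_le hy
  have hm2 : y < m + 1 := Nat.lt_floor_add_one y
  have hpos : ∀ h : ℕ, (0 : ℝ) ≤ 1 / (1 + |(h : ℝ) - y|) ^ 2 := by
    intro h
    positivity
  have hA : ∑ h ∈ H.filter (fun h => h ≤ m), 1 / (1 + |(h : ℝ) - y|) ^ 2 ≤ 2 := by
    have h1 : ∀ h ∈ H.filter (fun h => h ≤ m), 1 / (1 + |(h : ℝ) - y|) ^ 2 ≤
        1 / ((1 : ℝ) + (m - h : ℕ)) ^ 2 := by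
      intro h hh
      rw [Finset.mem_filter] at hh
      have h2 : (h : ℝ) ≤ m := by exact_mod_cast hh.2
      have h3 : ((m - h : ℕ) : ℝ) = m - h := Nat.cast_sub hh.2
      rw [h3]
      have h4 : (m : ℝ) - h ≤ |(h : ℝ) - y| := by
        rw [abs_sub_comm]
        apply le_trans _ (le_abs_self _)
        linarith
      apply one_div_le_one_div_of_le
      · have : (0 : ℝ) ≤ m - h := by linarith
        positivity
      · have : (0 : ℝ) ≤ m - h := by linarith
        gcongr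
    apply le_trans (Finset.sum_le_sum h1)
    have hinj : Set.InjOn (fun h : ℕ => m - h) (H.filter (fun h => h ≤ m)) := by
      intro i hi j hj hij
      simp only [Finset.coe_filter, Set.mem_ofPred_eq] at hi hj hij
      omega
    rw [← Finset.sum_image (f := fun k : ℕ => 1 / ((1 : ℝ) + (k : ℝ)) ^ 2) hinj]
    apply le_trans _ (sum_inv_sq_le (m + 1))
    apply Finset.sum_le_sum_of_subset_of_nonneg
    · intro k hk
      rw [Finset.mem_image] at hk
      obtain ⟨h, _, rfl⟩ := hk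
      rw [Finset.mem_range]
      omega
    · intro k _ _
      positivity
  have hB : ∑ h ∈ H.filter (fun h => ¬ h ≤ m), 1 / (1 + |(h : ℝ) - y|) ^ 2 ≤ 2 := by
    have h1 : ∀ h ∈ H.filter (fun h => ¬ h ≤ m), 1 / (1 + |(h : ℝ) - y|) ^ 2 ≤
        1 / ((1 : ℝ) + (h - (m + 1) : ℕ)) ^ 2 := by
      intro h hh
      rw [Finset.mem_filter] at hh
      have h2 : ((m + 1 : ℕ) : ℝ) ≤ h := by exact_mod_cast (by omega : m + 1 ≤ h)
      have h3 : ((h - (m + 1) : ℕ) : ℝ) = h - ((m + 1 : ℕ) : ℝ) := Nat.cast_sub (by omega)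
      rw [h3]
      push_cast at h2 ⊢
      have h4 : (h : ℝ) - (m + 1) ≤ |(h : ℝ) - y| := by
        apply le_trans _ (le_abs_self _)
        linarith
      apply one_div_le_one_div_of_le
      · have : (0 : ℝ) ≤ h - (m + 1) := by linarith
        positivity
      · have : (0 : ℝ) ≤ h - (m + 1) := by linarith
        gcongr
    apply le_trans (Finset.sum_le_sum h1)
    have hinj : Set.InjOn (fun h : ℕ => h - (m + 1)) (H.filter (fun h => ¬ h ≤ m)) := by
      intro i hi j hj hij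
      simp only [Finset.coe_filter, Set.mem_ofPred_eq] at hi hj hij
      omega
    rw [← Finset.sum_image (f := fun k : ℕ => 1 / ((1 : ℝ) + (k : ℝ)) ^ 2) hinj]
    apply le_trans _ (sum_inv_sq_le (H.sup id + 1))
    apply Finset.sum_le_sum_of_subset_of_nonneg
    · intro k hk
      rw [Finset.mem_image] at hk
      obtain ⟨h, hh, rfl⟩ := hk
      rw [Finset.mem_range]
      rw [Finset.mem_filter] at hh
      have : h ≤ H.sup id := Finset.le_sup (f := id) hh.1
      omega
    · intro k _ _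
      positivity
  have := Finset.sum_filter_add_sum_filter_not H (fun h => h ≤ m)
    (fun h : ℕ => 1 / (1 + |(h : ℝ) - y|) ^ 2)
  linarith

/-- **sum of `Z⁻³`.** Every `h` carries a fraction `a h / q h ∈ [0, 1]`. -/
theorem sum_Z (H : Finset ℕ) (M : ℝ) (hM : 0 ≤ M) (a q : ℕ → ℕ) (hq : ∀ h ∈ H, 1 ≤ q h)
    (ha : ∀ h ∈ H, a h ≤ q h) :
    ∑ h ∈ H, 1 / ((q h : ℝ) ^ 3 * (1 + |(h : ℝ) - M * (a h / q h)|) ^ 2) ≤ 16 := by
  set F : ℕ → ℕ → ℕ → ℝ := fun h a q => 1 / ((q : ℝ) ^ 3 * (1 + |(h : ℝ) - M * (a / q)|) ^ 2) with hF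
  have hF0 : ∀ h a q, 0 ≤ F h a q := by
    intro h a q
    simp only [hF]
    positivity
  set B := H.sup q with hB
  have h1 : ∀ h ∈ H, F h (a h) (q h) ≤
      ∑ c ∈ Finset.range (B + 1), if 1 ≤ c then ∑ d ∈ Finset.range (c + 1), F h d c else 0 := by
    intro h hh
    have h2 : q h ∈ Finset.range (B + 1) := by
      rw [Finset.mem_range, Nat.lt_succ_iff]
      exact Finset.le_sup hh
    have h3 : F h (a h) (q h) ≤ (if 1 ≤ q h then ∑ d ∈ Finset.range (q h + 1), F h d (q h) else 0) := by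
      rw [if_pos (hq h hh)]
      apply Finset.single_le_sum (f := fun d => F h d (q h)) (fun d _ => hF0 h d (q h))
      rw [Finset.mem_range, Nat.lt_succ_iff]
      exact ha h hh
    apply le_trans h3
    apply Finset.single_le_sum (f := fun c => if 1 ≤ c then ∑ d ∈ Finset.range (c + 1), F h d c else 0)
      _ h2
    intro c _
    split_ifs
    · exact Finset.sum_nonneg (fun d _ => hF0 h d c)
    · exact le_rfl
  apply le_trans (Finset.sum_le_sum h1)
  rw [Finset.sum_comm]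
  have h2 : ∀ c ∈ Finset.range (B + 1),
      ∑ h ∈ H, (if 1 ≤ c then ∑ d ∈ Finset.range (c + 1), F h d c else 0) ≤
      if 1 ≤ c then 8 / (c : ℝ) ^ 2 else 0 := by
    intro c _
    by_cases hc : 1 ≤ c
    · simp only [if_pos hc]
      have hc' : (1 : ℝ) ≤ c := by exact_mod_cast hc
      rw [Finset.sum_comm]
      have h3 : ∀ d ∈ Finset.range (c + 1), ∑ h ∈ H, F h d c ≤ 4 / (c : ℝ) ^ 3 := by
        intro d _
        have h4 : ∑ h ∈ H, F h d c =
            (1 / (c : ℝ) ^ 3) * ∑ h ∈ H, 1 / (1 + |(h : ℝ) - M * (d / c)|) ^ 2 := by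
          rw [Finset.mul_sum]
          apply Finset.sum_congr rfl
          intro h _
          simp only [hF]
          rw [one_div_mul_one_div]
        rw [h4]
        have h5 := sum_inner H (M * (d / c)) (by positivity)
        calc (1 / (c : ℝ) ^ 3) * ∑ h ∈ H, 1 / (1 + |(h : ℝ) - M * (d / c)|) ^ 2
            ≤ (1 / (c : ℝ) ^ 3) * 4 := by gcongr
          _ = 4 / (c : ℝ) ^ 3 := by ring
      apply le_trans (Finset.sum_le_sum h3)
      rw [Finset.sum_const, Finset.card_range, nsmul_eq_mul]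
      push_cast
      rw [← mul_div_assoc, div_le_div_iff₀ (by positivity) (by positivity)]
      have h6 : ((c : ℝ) + 1) * 4 ≤ 8 * c := by linarith
      calc ((c : ℝ) + 1) * 4 * (c : ℝ) ^ 2 ≤ 8 * c * (c : ℝ) ^ 2 := by gcongr
        _ = 8 * (c : ℝ) ^ 3 := by ring
    · simp [hc]
  apply le_trans (Finset.sum_le_sum h2)
  rw [Finset.sum_range_succ']
  simp only [Nat.le_add_left, if_true]
  have h3 : ∑ k ∈ Finset.range B, 8 / (((k + 1 : ℕ) : ℝ)) ^ 2 =
      8 * ∑ k ∈ Finset.range B, 1 / ((1 : ℝ) + k) ^ 2 := by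
    rw [Finset.mul_sum]
    apply Finset.sum_congr rfl
    intro k _
    push_cast
    rw [add_comm (k : ℝ) 1]
    ring
  rw [h3]
  have h4 := sum_inv_sq_le B
  rw [if_neg (by norm_num)]
  linarith

end HadNT
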