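import Pool.Agent.Lib_MP_008adc_oct.DetUpB

/-!
# Bordering a Hadamard matrix: the normalised determinant loses only a constant factor per row
-/

set_option autoImplicit false

namespace HadCalc

open Matrix

/-- The bordered determinant. -/
theorem maxDet_up {m : ℕ} (d : ℕ) (hm : 0 < m) (h : HadOrder m) :
    (m : ℝ) ^ ((m : ℝ) / 2) * ((5 / 9 * Real.sqrt m) ^ d * (m.descFactorial d : ℝ) / (m : ℝ) ^ d) ≤
      maxDet (m + d) := by
  classical
  obtain ⟨H0, hH0, hHH0⟩ := h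
  have hpos : (0 : ℝ) < m := by exact_mod_cast hm
  set H : Matrix (Fin m) (Fin m) ℝ := H0.map (Int.cast : ℤ → ℝ) with hHdef
  have hH : ∀ i j, H i j = 1 ∨ H i j = -1 := by
    intro i j
    rcases hH0 i j with h1 | h1
    · left
      simp [hHdef, h1]
    · right
      simp [hHdef, h1]
  have hHH : H * Hᵀ = (m : ℝ) • (1 : Matrix (Fin m) (Fin m) ℝ) := by
    ext i j
    have h1 := congrFun (congrFun hHH0 i) j
    rw [Matrix.mul_apply, Matrix.smul_apply, Matrix.one_apply, Fintype.card_fin] at h1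
    rw [Matrix.mul_apply, Matrix.smul_apply, Matrix.one_apply]
    have h2 : ∑ k, H i k * Hᵀ k j = ((∑ k, H0 i k * H0ᵀ k j : ℤ) : ℝ) := by
      push_cast
      rfl
    rw [h2, h1]
    split_ifs <;> simp
  have hdetH : |H.det| = (m : ℝ) ^ ((m : ℝ) / 2) := by
    have h1 := congrArg Matrix.det hHH
    rw [Matrix.det_mul, Matrix.det_transpose, Matrix.det_smul, Matrix.det_one, mul_one,
      Fintype.card_fin] at h1
    have hsq : |H.det| ^ 2 = (m : ℝ) ^ m := by
      rw [sq_abs, sq]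
      exact h1
    have h2 : ((m : ℝ) ^ ((m : ℝ) / 2)) ^ 2 = (m : ℝ) ^ m := by
      rw [← Real.rpow_natCast, ← Real.rpow_mul hpos.le, ← Real.rpow_natCast]
      congr 1
      push_cast
      ring
    have h3 : 0 ≤ (m : ℝ) ^ ((m : ℝ) / 2) := Real.rpow_nonneg hpos.le _
    exact (pow_left_inj₀ (abs_nonneg _) h3 two_ne_zero).1 (hsq.trans h2.symm)
  obtain ⟨C, hC⟩ := exists_det d hm H hH hHH
  obtain ⟨ε, hε⟩ := exists_signs (-((m : ℝ)⁻¹ • GM H C)) (fun _ => 1)
  have hinv : H * ((m : ℝ)⁻¹ • Hᵀ) = 1 := by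
    rw [Matrix.mul_smul, hHH, smul_smul, inv_mul_cancel₀ hpos.ne', one_smul]
  let _ : Invertible H := invertibleOfRightInverse H _ hinv
  have hinv' : ⅟H = (m : ℝ)⁻¹ • Hᵀ := by
    have h1 : H * ⅟H = 1 := mul_invOf_self H
    have h2 : ((m : ℝ)⁻¹ • Hᵀ) * H = 1 := mul_eq_one_comm.1 hinv
    calc ⅟H = ((m : ℝ)⁻¹ • Hᵀ) * H * ⅟H := by rw [h2, Matrix.one_mul]
      _ = (m : ℝ)⁻¹ • Hᵀ := by rw [Matrix.mul_assoc, h1, Matrix.mul_one]
  set Y : Matrix (Fin m) (Fin d) ℝ := Matrix.of fun a j => sF (xv H (C j) a) with hY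
  set R : Matrix (Fin d) (Fin m) ℝ := Matrix.of fun i k => sg (C i k) with hR
  set D : Matrix (Fin d) (Fin d) ℝ := Matrix.of fun i _ => sg (ε i) with hD
  have hdet := Matrix.det_fromBlocks₁₁ H Y R D
  have hschur : D - R * ⅟H * Y =
      Matrix.of fun i j => sg (ε i) * 1 + (-((m : ℝ)⁻¹ • GM H C)) i j := by
    ext i j
    have h1 : (R * Hᵀ * Y) i j = GM H C i j := by
      rw [Matrix.mul_apply]
      unfold GM
      refine Finset.sum_congr rfl fun a _ => ?_
      have h2 : (R * Hᵀ) i a = xv H (C i) a := by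
        rw [Matrix.mul_apply]
        unfold xv
        refine Finset.sum_congr rfl fun k _ => ?_
        rw [hR, Matrix.of_apply, Matrix.transpose_apply, mul_comm]
      rw [h2, hY, Matrix.of_apply]
    rw [hinv', Matrix.mul_smul, Matrix.smul_mul, Matrix.sub_apply, Matrix.smul_apply,
      Matrix.of_apply, Matrix.neg_apply, Matrix.smul_apply, mul_one, h1, hD, Matrix.of_apply,
      ← sub_eq_add_neg]
  have hA : ∀ i j, (Matrix.fromBlocks H Y R D) i j = 1 ∨ (Matrix.fromBlocks H Y R D) i j = -1 := by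
    intro i j
    rcases i with i | i <;> rcases j with j | j
    · exact hH i j
    · exact sF_mem _
    · exact sg_mem _
    · exact sg_mem _
  have hmax : |(Matrix.fromBlocks H Y R D).det| ≤ maxDet (m + d) := by
    have h1 := le_maxDet ((Matrix.reindex finSumFinEquiv finSumFinEquiv) (Matrix.fromBlocks H Y R D))
      (fun i j => hA _ _)
    rwa [Matrix.det_reindex_self] at h1
  refine le_trans ?_ hmax
  rw [hdet, abs_mul, hdetH, hschur]
  refine mul_le_mul_of_nonneg_left ?_ (Real.rpow_nonneg hpos.le _)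
  refine le_trans ?_ hε
  rw [Matrix.det_neg, Matrix.det_smul, abs_mul, abs_mul, abs_pow, abs_pow, abs_neg, abs_one,
    one_pow, one_mul, Fintype.card_fin, abs_of_pos (inv_pos.2 hpos), inv_pow, div_eq_inv_mul]
  exact mul_le_mul_of_nonneg_left (hC.trans (le_abs_self _)) (by positivity)

/-- If there is a Hadamard matrix of order `m ≤ n` and `n - m ≤ m / 2` then
`rDet n ≥ exp (-3 (n - m))`. -/
theorem rDet_up {m n : ℕ} (hm : 0 < m) (hmn : m ≤ n) (h2 : 2 * (n - m) ≤ m) (h : HadOrder m) :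
    Real.exp (-(3 * ((n : ℝ) - m))) ≤ rDet n := by
  obtain ⟨d, rfl⟩ := Nat.exists_eq_add_of_le hmn
  have hd : 2 * d ≤ m := by omega
  have hmR : (0 : ℝ) < m := by exact_mod_cast hm
  have hdR : 2 * (d : ℝ) ≤ m := by exact_mod_cast hd
  have hd0 : (0 : ℝ) ≤ d := Nat.cast_nonneg d
  have hnR : (0 : ℝ) < ((m + d : ℕ) : ℝ) := by
    push_cast
    linarith
  have h1 := maxDet_up d hm h
  -- the descending factorial
  have h3 : ((m : ℝ) / 2) ^ d ≤ (m.descFactorial d : ℝ) := by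
    have h4 : (m + 1 - d) ^ d ≤ m.descFactorial d := Nat.pow_sub_le_descFactorial m d
    have h5 : ((m : ℝ) / 2) ≤ ((m + 1 - d : ℕ) : ℝ) := by
      rw [Nat.cast_sub (by omega)]
      push_cast
      linarith
    calc ((m : ℝ) / 2) ^ d ≤ ((m + 1 - d : ℕ) : ℝ) ^ d := pow_le_pow_left₀ (by positivity) h5 d
      _ = (((m + 1 - d) ^ d : ℕ) : ℝ) := by push_cast; ring
      _ ≤ _ := by exact_mod_cast h4
  have hs : Real.sqrt m = (m : ℝ) ^ ((1 : ℝ) / 2) := Real.sqrt_eq_rpow m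
  have h4 : (m : ℝ) ^ (((m + d : ℕ) : ℝ) / 2) * (1 / 4 : ℝ) ^ d ≤ maxDet (m + d) := by
    refine le_trans ?_ h1
    have h5 : (m : ℝ) ^ (((m + d : ℕ) : ℝ) / 2) = (m : ℝ) ^ ((m : ℝ) / 2) * Real.sqrt m ^ d := by
      rw [hs, ← Real.rpow_natCast, ← Real.rpow_mul hmR.le, ← Real.rpow_add hmR]
      congr 1
      push_cast
      ring
    rw [h5, mul_assoc]
    refine mul_le_mul_of_nonneg_left ?_ (Real.rpow_nonneg hmR.le _)
    rw [le_div_iff₀ (by positivity)]
    have h6 : Real.sqrt m ^ d * (1 / 4 : ℝ) ^ d * (m : ℝ) ^ d ≤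
        (5 / 9 * Real.sqrt m) ^ d * ((m : ℝ) / 2) ^ d := by
      rw [← mul_pow, ← mul_pow, ← mul_pow]
      refine pow_le_pow_left₀ (by positivity) ?_ d
      have h7 : 0 ≤ Real.sqrt m * m := by positivity
      nlinarith
    refine h6.trans (mul_le_mul_of_nonneg_left h3 (by positivity))
  -- comparison with `n ^ (n / 2)`
  unfold rDet
  rw [le_div_iff₀ (Real.rpow_pos_of_pos hnR _), Real.rpow_def_of_pos hnR, ← Real.exp_add]
  refine le_trans ?_ h4
  rw [Real.rpow_def_of_pos hmR]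
  have h8 : (1 / 4 : ℝ) ^ d = Real.exp (-(d * (2 * Real.log 2))) := by
    rw [← Real.exp_log (show (0 : ℝ) < (1 / 4) ^ d by positivity), Real.log_pow]
    congr 1
    have h9 : Real.log (1 / 4 : ℝ) = -(2 * Real.log 2) := by
      have h10 : (1 / 4 : ℝ) = ((2 : ℝ) ^ 2)⁻¹ := by norm_num
      rw [h10, Real.log_inv, Real.log_pow]
      push_cast
      ring
    rw [h9]
    ring
  rw [h8, ← Real.exp_add]
  apply Real.exp_le_exp.2
  have hl2 : Real.log 2 < 0.6931471808 := Real.log_two_lt_d9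
  have h9 : Real.log ((m + d : ℕ) : ℝ) - Real.log m ≤ (d : ℝ) / m := by
    rw [← Real.log_div hnR.ne' hmR.ne']
    have h10 := Real.log_le_sub_one_of_pos (div_pos hnR hmR)
    have h11 : ((m + d : ℕ) : ℝ) / m - 1 = (d : ℝ) / m := by
      push_cast
      field_simp
      ring
    linarith
  have h10 : ((m + d : ℕ) : ℝ) / 2 * (Real.log ((m + d : ℕ) : ℝ) - Real.log m) ≤ 3 / 4 * d := by
    have h11 : ((m + d : ℕ) : ℝ) / 2 * (Real.log ((m + d : ℕ) : ℝ) - Real.log m) ≤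
        ((m + d : ℕ) : ℝ) / 2 * ((d : ℝ) / m) := mul_le_mul_of_nonneg_left h9 (by positivity)
    refine h11.trans ?_
    have h12 : ((m + d : ℕ) : ℝ) / 2 * ((d : ℝ) / m) = (((m + d : ℕ) : ℝ) / m) * (d / 2) := by
      field_simp
    rw [h12]
    have h13 : ((m + d : ℕ) : ℝ) / m ≤ 3 / 2 := by
      rw [div_le_iff₀ hmR]
      push_cast
      linarith
    have h14 : (0 : ℝ) ≤ (d : ℝ) / 2 := by positivity
    calc (((m + d : ℕ) : ℝ) / m) * (d / 2) ≤ 3 / 2 * (d / 2) := mul_le_mul_of_nonneg_right h13 h14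
      _ = 3 / 4 * d := by ring
  have h11 : ((m + d : ℕ) : ℝ) - m = d := by
    push_cast
    ring
  rw [h11]
  have h12 : (d : ℝ) * Real.log 2 ≤ d * 0.6931471808 := mul_le_mul_of_nonneg_left hl2.le hd0
  nlinarith

end HadCalc
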