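import Pool.Agent.Lib_MP_008adc_co.DetL

/-!
# Bordering a Hadamard matrix: moments of sums of signs and exchangeability
-/

set_option autoImplicit false

namespace HadCalc

open Matrix

/-- the sign of a Boolean -/
def sg (b : Bool) : ℝ := if b then 1 else -1

/-- the sum of the signs -/
def sgs {m : ℕ} (c : Fin m → Bool) : ℝ := ∑ j, sg (c j)

/-- the sign of a real number, `1` at zero -/
noncomputable def sF (u : ℝ) : ℝ := if 0 ≤ u then 1 else -1

theorem sg_mem (b : Bool) : sg b = 1 ∨ sg b = -1 := by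
  cases b
  · right
    simp [sg]
  · left
    simp [sg]

theorem sF_mem (u : ℝ) : sF u = 1 ∨ sF u = -1 := by
  unfold sF
  split_ifs
  · exact Or.inl rfl
  · exact Or.inr rfl

theorem mul_sF (u : ℝ) : u * sF u = |u| := by
  unfold sF
  split_ifs with h
  · rw [abs_of_nonneg h, mul_one]
  · rw [abs_of_neg (not_le.1 h)]
    ring

theorem sum_cons {m : ℕ} (F : (Fin (m + 1) → Bool) → ℝ) :
    ∑ c, F c = ∑ c : Fin m → Bool, (F (Fin.cons true c) + F (Fin.cons false c)) := by
  rw [← (Fin.consEquiv (fun _ : Fin (m + 1) => Bool)).sum_comp F, Fintype.sum_prod_type,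
    Fintype.sum_bool, ← Finset.sum_add_distrib]
  rfl

theorem sgs_cons {m : ℕ} (b : Bool) (c : Fin m → Bool) :
    sgs (Fin.cons b c : Fin (m + 1) → Bool) = sg b + sgs c := by
  unfold sgs
  rw [Fin.sum_univ_succ]
  simp only [Fin.cons_zero, Fin.cons_succ]

theorem card_cube (m : ℕ) : ∑ _c : Fin m → Bool, (1 : ℝ) = 2 ^ m := by
  rw [Finset.sum_const, Finset.card_univ, Fintype.card_fun, Fintype.card_bool, Fintype.card_fin]
  simp

theorem moment_two (m : ℕ) : ∑ c : Fin m → Bool, sgs c ^ 2 = 2 ^ m * m := by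
  induction m with
  | zero =>
    simp [sgs]
  | succ m ih =>
    rw [sum_cons]
    have h1 : ∀ c : Fin m → Bool, sgs (Fin.cons true c : Fin (m + 1) → Bool) ^ 2 +
        sgs (Fin.cons false c : Fin (m + 1) → Bool) ^ 2 = 2 * 1 + 2 * sgs c ^ 2 := by
      intro c
      rw [sgs_cons, sgs_cons]
      simp only [sg, if_true, Bool.false_eq_true, if_false]
      ring
    rw [Finset.sum_congr rfl (fun c _ => h1 c), Finset.sum_add_distrib, ← Finset.mul_sum,
      ← Finset.mul_sum, card_cube, ih]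
    push_cast
    ring

theorem moment_four (m : ℕ) :
    ∑ c : Fin m → Bool, sgs c ^ 4 = 2 ^ m * (3 * (m : ℝ) ^ 2 - 2 * m) := by
  induction m with
  | zero =>
    simp [sgs]
  | succ m ih =>
    rw [sum_cons]
    have h1 : ∀ c : Fin m → Bool, sgs (Fin.cons true c : Fin (m + 1) → Bool) ^ 4 +
        sgs (Fin.cons false c : Fin (m + 1) → Bool) ^ 4 =
        2 * 1 + 12 * sgs c ^ 2 + 2 * sgs c ^ 4 := by
      intro c
      rw [sgs_cons, sgs_cons]
      simp only [sg, if_true, Bool.false_eq_true, if_false]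
      ring
    rw [Finset.sum_congr rfl (fun c _ => h1 c), Finset.sum_add_distrib, Finset.sum_add_distrib,
      ← Finset.mul_sum, ← Finset.mul_sum, ← Finset.mul_sum, card_cube, ih, moment_two]
    push_cast
    ring

/-- the first absolute moment (times the number of sign vectors) -/
noncomputable def KK (m : ℕ) : ℝ := ∑ c : Fin m → Bool, |sgs c|

theorem KK_lower (m : ℕ) (hm : 0 < m) : 2 ^ m * (5 / 9 * Real.sqrt m) ≤ KK m := by
  have hmR : (0 : ℝ) < m := by exact_mod_cast hm
  have hs : 0 < Real.sqrt m := Real.sqrt_pos.2 hmR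
  have hs2 : Real.sqrt m ^ 2 = m := Real.sq_sqrt hmR.le
  set s := Real.sqrt m with hsdef
  have h1 : ∀ c : Fin m → Bool, s * (sgs c ^ 2 / m) - s * (4 / 27 * (sgs c ^ 4 / m ^ 2)) ≤ |sgs c| := by
    intro c
    have h2 : ∀ u : ℝ, 0 ≤ u → u ^ 2 - 4 / 27 * u ^ 4 ≤ u := by
      intro u hu
      have h3 : 0 ≤ u * ((u - 3 / 2) ^ 2 * (u + 3)) := by positivity
      nlinarith
    have h4 := h2 (|sgs c| / s) (by positivity)
    have h5 : (|sgs c| / s) ^ 2 = sgs c ^ 2 / m := by
      rw [div_pow, sq_abs, hs2]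
    have h6 : (|sgs c| / s) ^ 4 = sgs c ^ 4 / m ^ 2 := by
      have e1 : (|sgs c| / s) ^ 4 = ((|sgs c| / s) ^ 2) ^ 2 := by ring
      rw [e1, h5, div_pow]
      ring
    rw [h5, h6] at h4
    have h7 := mul_le_mul_of_nonneg_left h4 hs.le
    have h8 : s * (|sgs c| / s) = |sgs c| := by field_simp
    rw [h8] at h7
    linarith
  have h2 : ∑ c : Fin m → Bool, (s * (sgs c ^ 2 / m) - s * (4 / 27 * (sgs c ^ 4 / m ^ 2))) ≤ KK m :=
    Finset.sum_le_sum fun c _ => h1 c
  refine le_trans ?_ h2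
  rw [Finset.sum_sub_distrib, ← Finset.mul_sum, ← Finset.mul_sum, ← Finset.mul_sum,
    ← Finset.sum_div, ← Finset.sum_div, moment_two, moment_four]
  have h3 : (2 : ℝ) ^ m * m / m = 2 ^ m := by field_simp
  have h4 : (2 : ℝ) ^ m * (3 * (m : ℝ) ^ 2 - 2 * m) / m ^ 2 ≤ 2 ^ m * 3 := by
    rw [div_le_iff₀ (by positivity)]
    have h5 : (0 : ℝ) < 2 ^ m := by positivity
    nlinarith
  rw [h3]
  have h5 : s * (4 / 27 * (2 ^ m * (3 * (m : ℝ) ^ 2 - 2 * m) / m ^ 2)) ≤ s * (4 / 27 * (2 ^ m * 3)) := by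
    refine mul_le_mul_of_nonneg_left ?_ hs.le
    linarith
  have h6 : s * (4 / 27 * (2 ^ m * (3 * (m : ℝ) ^ 2 - 2 * m) / m ^ 2)) =
      s * (4 / 27 * ((2 ^ m * (3 * (m : ℝ) ^ 2 - 2 * m)) / m ^ 2)) := rfl
  nlinarith

/-- exchangeability: the correlation of one sign with the sign of the sum -/
theorem corr_const {m : ℕ} (j k : Fin m) :
    ∑ c : Fin m → Bool, sg (c j) * sF (sgs c) = ∑ c : Fin m → Bool, sg (c k) * sF (sgs c) := by
  rw [← ((Equiv.swap j k).arrowCongr (Equiv.refl Bool)).sum_comp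
    (fun c : Fin m → Bool => sg (c j) * sF (sgs c))]
  refine Finset.sum_congr rfl fun c _ => ?_
  have h1 : ((Equiv.swap j k).arrowCongr (Equiv.refl Bool) c) j = c k := by
    simp [Equiv.arrowCongr]
  have h2 : sgs ((Equiv.swap j k).arrowCongr (Equiv.refl Bool) c) = sgs c := by
    unfold sgs
    rw [← Equiv.sum_comp (Equiv.swap j k) (fun i => sg (((Equiv.swap j k).arrowCongr (Equiv.refl Bool) c) i))]
    refine Finset.sum_congr rfl fun i _ => ?_
    simp [Equiv.arrowCongr]
  rw [h1, h2]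

theorem corr_sum {m : ℕ} (j : Fin m) :
    (m : ℝ) * ∑ c : Fin m → Bool, sg (c j) * sF (sgs c) = KK m := by
  have h1 : ∑ k : Fin m, ∑ c : Fin m → Bool, sg (c k) * sF (sgs c) = KK m := by
    rw [Finset.sum_comm]
    unfold KK
    refine Finset.sum_congr rfl fun c _ => ?_
    rw [← Finset.sum_mul]
    exact mul_sF (sgs c)
  rw [← h1, Finset.sum_congr rfl (fun k _ => corr_const k j), Finset.sum_const, Finset.card_univ,
    Fintype.card_fin, nsmul_eq_mul]

/-- the correlation with the sign of a linear form with coefficients `1, -1` -/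
theorem corr_row {m : ℕ} (h : Fin m → ℝ) (hh : ∀ j, h j = 1 ∨ h j = -1) (j : Fin m) :
    (m : ℝ) * ∑ c : Fin m → Bool, sg (c j) * sF (∑ i, h i * sg (c i)) = h j * KK m := by
  classical
  set e : (Fin m → Bool) → (Fin m → Bool) := fun c i => if h i = 1 then c i else !(c i) with he
  have hinv : Function.Involutive e := by
    intro c
    funext i
    simp only [he]
    by_cases h1 : h i = 1
    · simp [h1]
    · simp [h1]
  have hsg : ∀ c i, sg (e c i) = h i * sg (c i) := by
    intro c i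
    simp only [he]
    rcases hh i with h1 | h1
    · rw [if_pos h1, h1, one_mul]
    · have h2 : ¬ h i = 1 := by
        rw [h1]
        norm_num
      rw [if_neg h2, h1]
      cases c i <;> simp [sg]
  rw [← corr_sum j, ← Equiv.sum_comp (hinv.toPerm e)
    (fun c : Fin m → Bool => sg (c j) * sF (sgs c))]
  have h3 : h j * ((m : ℝ) * ∑ c : Fin m → Bool, sg ((hinv.toPerm e) c j) * sF (sgs ((hinv.toPerm e) c))) =
      (m : ℝ) * ∑ c : Fin m → Bool, h j * (sg ((hinv.toPerm e) c j) * sF (sgs ((hinv.toPerm e) c))) := by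
    rw [← Finset.mul_sum]
    ring
  rw [h3]
  congr 1
  refine Finset.sum_congr rfl fun c _ => ?_
  have h4 : (hinv.toPerm e) c = e c := rfl
  have h5 : sgs (e c) = ∑ i, h i * sg (c i) := by
    unfold sgs
    exact Finset.sum_congr rfl fun i _ => hsg c i
  rw [h4, h5, hsg, ← mul_assoc, ← mul_assoc]
  have h6 : h j * h j = 1 := by
    rcases hh j with h1 | h1 <;> rw [h1] <;> norm_num
  rw [h6, one_mul]

/-- the covariance matrix of `H c` and its sign vector is `KK` times the identity -/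
theorem cov_id {m : ℕ} (hm : 0 < m) (H : Matrix (Fin m) (Fin m) ℝ)
    (hH : ∀ i j, H i j = 1 ∨ H i j = -1) (hHH : H * Hᵀ = (m : ℝ) • (1 : Matrix (Fin m) (Fin m) ℝ))
    (a b : Fin m) :
    ∑ c : Fin m → Bool, (∑ j, H a j * sg (c j)) * sF (∑ j, H b j * sg (c j)) =
      if a = b then KK m else 0 := by
  have hmR : (m : ℝ) ≠ 0 := by
    have : (0 : ℝ) < m := by exact_mod_cast hm
    exact this.ne'
  have h1 : ∑ c : Fin m → Bool, (∑ j, H a j * sg (c j)) * sF (∑ j, H b j * sg (c j)) =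
      ∑ j, H a j * ∑ c : Fin m → Bool, sg (c j) * sF (∑ i, H b i * sg (c i)) := by
    simp only [Finset.sum_mul, Finset.mul_sum]
    rw [Finset.sum_comm]
    refine Finset.sum_congr rfl fun j _ => Finset.sum_congr rfl fun c _ => ?_
    ring
  rw [h1]
  have h2 : ∀ j, ∑ c : Fin m → Bool, sg (c j) * sF (∑ i, H b i * sg (c i)) = H b j * (KK m / m) := by
    intro j
    have h3 := corr_row (fun i => H b i) (fun i => hH b i) j
    have h4 : ∑ c : Fin m → Bool, sg (c j) * sF (∑ i, H b i * sg (c i)) = H b j * KK m / m := by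
      rw [eq_div_iff hmR, mul_comm]
      exact h3
    rw [h4]
    ring
  simp only [h2]
  have h3 : ∑ j, H a j * (H b j * (KK m / m)) = (H * Hᵀ) a b * (KK m / m) := by
    rw [Matrix.mul_apply, Finset.sum_mul]
    refine Finset.sum_congr rfl fun j _ => ?_
    rw [Matrix.transpose_apply]
    ring
  rw [h3, hHH, Matrix.smul_apply, Matrix.one_apply]
  split_ifs
  · rw [smul_eq_mul, mul_one]
    field_simp
  · simp

end HadCalc
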