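import Pool.Agent.Lib_MP_008adc_oct.DetUpA

/-!
# Bordering a Hadamard matrix: the average determinant
-/

set_option autoImplicit false

namespace HadCalc

open Matrix

/-- the values of the rows of `H` at the sign vector `c` -/
noncomputable def xv {m : ℕ} (H : Matrix (Fin m) (Fin m) ℝ) (c : Fin m → Bool) (a : Fin m) : ℝ :=
  ∑ j, H a j * sg (c j)

/-- the matrix `⟨H c_i, sign (H c_j)⟩` -/
noncomputable def GM {m d : ℕ} (H : Matrix (Fin m) (Fin m) ℝ) (C : Fin d → Fin m → Bool) :
    Matrix (Fin d) (Fin d) ℝ :=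
  fun i j => ∑ a, xv H (C i) a * sF (xv H (C j) a)

theorem sum_pi_prod {m d : ℕ} (g : Fin d → (Fin m → Bool) → ℝ) :
    ∑ C : Fin d → Fin m → Bool, ∏ i, g i (C i) = ∏ i, ∑ c, g i c := by
  rw [Finset.prod_univ_sum, Fintype.piFinset_univ]

theorem det_pattern {m d : ℕ} (f : Fin d → Fin m) :
    (Matrix.of fun i j => if f i = f j then (1 : ℝ) else 0).det =
      if Function.Injective f then 1 else 0 := by
  classical
  split_ifs with h
  · have h1 : (Matrix.of fun i j => if f i = f j then (1 : ℝ) else 0) = 1 := by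
      ext i j
      rw [Matrix.of_apply, Matrix.one_apply]
      by_cases hij : i = j
      · rw [if_pos (congrArg f hij), if_pos hij]
      · rw [if_neg (fun h2 => hij (h h2)), if_neg hij]
    rw [h1, Matrix.det_one]
  · simp only [Function.Injective, not_forall] at h
    obtain ⟨i, j, hf, hij⟩ := h
    refine Matrix.det_zero_of_row_eq hij ?_
    funext k
    rw [Matrix.of_apply, Matrix.of_apply, hf]

theorem card_inj (m d : ℕ) :
    ∑ f : Fin d → Fin m, (if Function.Injective f then (1 : ℝ) else 0) = (m.descFactorial d : ℝ) := by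
  classical
  rw [Finset.sum_boole]
  congr 1
  have h1 : Fintype.card (Fin d ↪ Fin m) = m.descFactorial d := by
    rw [Fintype.card_embedding_eq, Fintype.card_fin, Fintype.card_fin]
  rw [← h1, ← Fintype.card_congr (Equiv.subtypeInjectiveEquivEmbedding (Fin d) (Fin m)),
    Fintype.card_subtype]

/-- THE AVERAGE DETERMINANT. -/
theorem sum_det {m d : ℕ} (hm : 0 < m) (H : Matrix (Fin m) (Fin m) ℝ)
    (hH : ∀ i j, H i j = 1 ∨ H i j = -1) (hHH : H * Hᵀ = (m : ℝ) • (1 : Matrix (Fin m) (Fin m) ℝ)) :
    ∑ C : Fin d → Fin m → Bool, (GM H C).det = KK m ^ d * (m.descFactorial d : ℝ) := by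
  classical
  have h1 : ∀ C : Fin d → Fin m → Bool, (GM H C).det = ∑ σ : Equiv.Perm (Fin d),
      ∑ f : Fin d → Fin m, ((Equiv.Perm.sign σ : ℤ) : ℝ) *
        ∏ k, (xv H (C k) (f (σ.symm k)) * sF (xv H (C k) (f k))) := by
    intro C
    rw [Matrix.det_apply']
    refine Finset.sum_congr rfl fun σ _ => ?_
    have h2 : ∀ i, GM H C (σ i) i = ∑ a, xv H (C (σ i)) a * sF (xv H (C i) a) := fun i => rfl
    simp only [h2]
    rw [Finset.prod_univ_sum, Fintype.piFinset_univ, Finset.mul_sum]
    refine Finset.sum_congr rfl fun f _ => ?_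
    congr 1
    rw [Finset.prod_mul_distrib, Finset.prod_mul_distrib]
    congr 1
    rw [← Equiv.prod_comp σ (fun k => xv H (C k) (f (σ.symm k)))]
    refine Finset.prod_congr rfl fun i _ => ?_
    rw [Equiv.symm_apply_apply]
  have h3 : ∀ (σ : Equiv.Perm (Fin d)) (f : Fin d → Fin m),
      ∑ C : Fin d → Fin m → Bool, ∏ k, (xv H (C k) (f (σ.symm k)) * sF (xv H (C k) (f k))) =
        KK m ^ d * ∏ i, (Matrix.of fun i j => if f i = f j then (1 : ℝ) else 0) (σ i) i := by
    intro σ f
    rw [sum_pi_prod (fun k c => xv H c (f (σ.symm k)) * sF (xv H c (f k)))]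
    have h4 : ∀ k, ∑ c, xv H c (f (σ.symm k)) * sF (xv H c (f k)) =
        KK m * (if f (σ.symm k) = f k then (1 : ℝ) else 0) := by
      intro k
      have h5 := cov_id hm H hH hHH (f (σ.symm k)) (f k)
      unfold xv
      rw [h5]
      split_ifs <;> simp
    simp only [h4]
    rw [Finset.prod_mul_distrib, Finset.prod_const, Finset.card_univ, Fintype.card_fin]
    congr 1
    rw [← Equiv.prod_comp σ (fun k => if f (σ.symm k) = f k then (1 : ℝ) else 0)]
    refine Finset.prod_congr rfl fun i _ => ?_
    rw [Equiv.symm_apply_apply, Matrix.of_apply]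
    by_cases h6 : f i = f (σ i)
    · rw [if_pos h6, if_pos h6.symm]
    · rw [if_neg h6, if_neg (fun h7 => h6 h7.symm)]
  rw [Finset.sum_congr rfl (fun C _ => h1 C), Finset.sum_comm]
  have h6 : ∀ σ : Equiv.Perm (Fin d), ∑ C : Fin d → Fin m → Bool, ∑ f : Fin d → Fin m,
      ((Equiv.Perm.sign σ : ℤ) : ℝ) * ∏ k, (xv H (C k) (f (σ.symm k)) * sF (xv H (C k) (f k))) =
      ∑ f : Fin d → Fin m, KK m ^ d * (((Equiv.Perm.sign σ : ℤ) : ℝ) *
        ∏ i, (Matrix.of fun i j => if f i = f j then (1 : ℝ) else 0) (σ i) i) := by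
    intro σ
    rw [Finset.sum_comm]
    refine Finset.sum_congr rfl fun f _ => ?_
    rw [← Finset.mul_sum, h3 σ f]
    ring
  rw [Finset.sum_congr rfl (fun σ _ => h6 σ), Finset.sum_comm]
  have h7 : ∀ f : Fin d → Fin m, ∑ σ : Equiv.Perm (Fin d), KK m ^ d * (((Equiv.Perm.sign σ : ℤ) : ℝ) *
        ∏ i, (Matrix.of fun i j => if f i = f j then (1 : ℝ) else 0) (σ i) i) =
      KK m ^ d * (if Function.Injective f then 1 else 0) := by
    intro f
    rw [← Finset.mul_sum, ← Matrix.det_apply', det_pattern]
  rw [Finset.sum_congr rfl (fun f _ => h7 f), ← Finset.mul_sum, card_inj]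

/-- Some choice of the rows has a determinant at least the average. -/
theorem exists_det {m : ℕ} (d : ℕ) (hm : 0 < m) (H : Matrix (Fin m) (Fin m) ℝ)
    (hH : ∀ i j, H i j = 1 ∨ H i j = -1) (hHH : H * Hᵀ = (m : ℝ) • (1 : Matrix (Fin m) (Fin m) ℝ)) :
    ∃ C : Fin d → Fin m → Bool,
      (5 / 9 * Real.sqrt m) ^ d * (m.descFactorial d : ℝ) ≤ (GM H C).det := by
  classical
  by_contra hcon
  push Not at hcon
  have h1 := sum_det (d := d) hm H hH hHH
  have h2 : ∑ C : Fin d → Fin m → Bool, (GM H C).det <
      ∑ _C : Fin d → Fin m → Bool, (5 / 9 * Real.sqrt m) ^ d * (m.descFactorial d : ℝ) :=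
    Finset.sum_lt_sum_of_nonempty Finset.univ_nonempty fun C _ => hcon C
  rw [Finset.sum_const, Finset.card_univ, Fintype.card_fun, Fintype.card_fun, Fintype.card_bool,
    Fintype.card_fin, Fintype.card_fin, nsmul_eq_mul, h1] at h2
  have h3 : (2 ^ m * (5 / 9 * Real.sqrt m)) ^ d ≤ KK m ^ d :=
    pow_le_pow_left₀ (by positivity) (KK_lower m hm) d
  have h4 : (((2 ^ m) ^ d : ℕ) : ℝ) * ((5 / 9 * Real.sqrt m) ^ d * (m.descFactorial d : ℝ)) =
      (2 ^ m * (5 / 9 * Real.sqrt m)) ^ d * (m.descFactorial d : ℝ) := by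
    push_cast
    ring
  rw [h4] at h2
  have h5 : (2 ^ m * (5 / 9 * Real.sqrt m)) ^ d * (m.descFactorial d : ℝ) ≤
      KK m ^ d * (m.descFactorial d : ℝ) := mul_le_mul_of_nonneg_right h3 (Nat.cast_nonneg _)
  linarith

/-- Adding suitable multiples `±` of one row `u` to the rows of a matrix does not decrease the
absolute value of its determinant. -/
theorem exists_signs {d : ℕ} (G : Matrix (Fin d) (Fin d) ℝ) (u : Fin d → ℝ) :
    ∃ ε : Fin d → Bool, |G.det| ≤ |(Matrix.of fun i j => sg (ε i) * u j + G i j).det| := by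
  classical
  have h1 : ∀ S : Finset (Fin d), ∃ ε : Fin d → Bool,
      |G.det| ≤ |(Matrix.of fun i j => (if i ∈ S then sg (ε i) * u j else 0) + G i j).det| := by
    intro S
    induction S using Finset.induction_on with
    | empty =>
      refine ⟨fun _ => true, le_of_eq ?_⟩
      congr 2
      ext i j
      simp
    | insert k S hk ih =>
      obtain ⟨ε, hε⟩ := ih
      set M : Matrix (Fin d) (Fin d) ℝ :=
        Matrix.of fun i j => (if i ∈ S then sg (ε i) * u j else 0) + G i j with hM
      have h2 : ∀ b : Bool, (Matrix.of fun i j =>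
          (if i ∈ insert k S then sg (Function.update ε k b i) * u j else 0) + G i j) =
          M.updateRow k (M k + sg b • u) := by
        intro b
        ext i j
        by_cases hik : i = k
        · subst hik
          rw [Matrix.updateRow_self, Matrix.of_apply, if_pos (Finset.mem_insert_self _ _),
            Function.update_self, Pi.add_apply, hM, Matrix.of_apply, if_neg hk]
          simp only [Pi.smul_apply, smul_eq_mul]
          ring
        · rw [Matrix.updateRow_ne hik, Matrix.of_apply, Function.update_of_ne hik, hM,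
            Matrix.of_apply]
          by_cases hiS : i ∈ S
          · rw [if_pos (Finset.mem_insert_of_mem hiS), if_pos hiS]
          · rw [if_neg (fun h => (Finset.mem_insert.1 h).elim hik hiS), if_neg hiS]
      have h3 : ∀ b : Bool, (M.updateRow k (M k + sg b • u)).det =
          M.det + sg b * (M.updateRow k u).det := by
        intro b
        rw [Matrix.det_updateRow_add, Matrix.updateRow_eq_self, Matrix.det_updateRow_smul]
      by_cases h4 : |M.det| ≤ |M.det + (M.updateRow k u).det|
      · refine ⟨Function.update ε k true, ?_⟩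
        rw [h2, h3]
        have h5 : sg true = 1 := by simp [sg]
        rw [h5, one_mul]
        exact hε.trans h4
      · refine ⟨Function.update ε k false, ?_⟩
        rw [h2, h3]
        have h5 : sg false = -1 := by simp [sg]
        rw [h5]
        refine hε.trans ?_
        have h6 := not_le.1 h4
        have h7 : 2 * |M.det| ≤ |M.det + (M.updateRow k u).det| +
            |M.det + -1 * (M.updateRow k u).det| := by
          have h8 := abs_add_le (M.det + (M.updateRow k u).det) (M.det + -1 * (M.updateRow k u).det)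
          have h9 : M.det + (M.updateRow k u).det + (M.det + -1 * (M.updateRow k u).det) =
              2 * M.det := by ring
          rw [h9, abs_mul, abs_two] at h8
          exact h8
        linarith
  obtain ⟨ε, hε⟩ := h1 Finset.univ
  refine ⟨ε, ?_⟩
  simpa using hε

end HadCalc
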