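import Pool.Agent.Lib_MP_008adc_oct.OOct
import Pool.Agent.Lib_MP_008adc_co.IterC

/-!
# The chain: every number `q < 2 ^ (2 ^ e)` is a sum of `81 e + 3` lengths
-/

set_option autoImplicit false

namespace HadCalc

open HadNT

/-- `y` is a sum of at most `m` lengths. -/
def SumL (f c m y : ℕ) : Prop := ∃ l : List ℕ, l.length ≤ m ∧ (∀ x ∈ l, Av f c x) ∧ l.sum = y

theorem SumL.one {f c y : ℕ} (h : Av f c y) : SumL f c 1 y :=
  ⟨[y], le_rfl, by simpa using h, by simp⟩

theorem SumL.mono {f c m m' y : ℕ} (h : SumL f c m y) (hm : m ≤ m') : SumL f c m' y := by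
  obtain ⟨l, h1, h2, h3⟩ := h
  exact ⟨l, h1.trans hm, h2, h3⟩

theorem SumL.add {f c m m' y y' : ℕ} (h : SumL f c m y) (h' : SumL f c m' y') :
    SumL f c (m + m') (y + y') := by
  obtain ⟨l, h1, h2, h3⟩ := h
  obtain ⟨l', h1', h2', h3'⟩ := h'
  refine ⟨l ++ l', ?_, ?_, ?_⟩
  · rw [List.length_append]; omega
  · intro x hx
    rcases List.mem_append.1 hx with h4 | h4
    · exact h2 x h4
    · exact h2' x h4
  · rw [List.sum_append, h3, h3']

theorem SumL.av {f c m q : ℕ} (h : SumL f c m q) : Av (f + 1) (m * (c + f + 2)) (2 * q) := by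
  obtain ⟨l, h1, h2, h3⟩ := h
  have h4 := Av.sum_list (f := f) (l.map (fun x => (c, x))) (by
    intro y hy
    obtain ⟨x, hx, rfl⟩ := List.mem_map.1 hy
    exact h2 x hx)
  have e1 : ((l.map (fun x => (c, x))).map Prod.snd).sum = q := by
    rw [List.map_map, ← h3]
    congr 1
    exact List.map_id' l
  have e2 : ((l.map (fun x => (c, x))).map (fun x => x.1 + f + 2)).sum =
      l.length * (c + f + 2) := by
    rw [List.map_map]
    have : ((fun x : ℕ × ℕ => x.1 + f + 2) ∘ fun x => (c, x)) = fun _ => c + f + 2 := rfl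
    rw [this, List.map_const', List.sum_replicate, smul_eq_mul]
  rw [e1, e2] at h4
  exact h4.mono le_rfl (Nat.mul_le_mul_right _ h1)

/-- the power of two that belongs to a product of `K` numbers -/
def EE (f K : ℕ) : ℕ := f * (K - 1) + K

theorem EE_add {f K : ℕ} (hK : 1 ≤ K) (r : ℕ) : EE f (K + r) = EE f K + (f + 1) * r := by
  unfold EE
  obtain ⟨k, rfl⟩ := Nat.exists_eq_add_of_le' hK
  have e1 : k + 1 + r - 1 = k + r := by omega
  rw [e1, Nat.add_sub_cancel]
  ring

theorem Cov.prodKO {a f c : ℕ} (h : Cov a f c) (ha : 1 ≤ a) {K m : ℕ} (hm : m ≤ K) (hK : 1 ≤ K)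
    (x : Fin m → ℕ) (hx : ∀ j, x j < 2 ^ a) : Av f c (2 ^ EE f K * ∏ j, x j) := by
  have h1 := Av.prod_list (f := f) (c := c)
    ((List.ofFn fun j => 2 * x j) ++ List.replicate (K - m) 2) (by
    intro h0
    have := congrArg List.length h0
    rw [List.length_append, List.length_ofFn, List.length_replicate, List.length_nil] at this
    omega) (by
    intro y hy
    rcases List.mem_append.1 hy with h2 | h2
    · rw [List.mem_ofFn] at h2
      obtain ⟨j, rfl⟩ := h2
      exact h _ (hx j)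
    · rw [List.eq_of_mem_replicate h2]
      exact h 1 (Nat.one_lt_two_pow (by omega)))
  have e1 : ((List.ofFn fun j => 2 * x j) ++ List.replicate (K - m) 2).length = K := by
    rw [List.length_append, List.length_ofFn, List.length_replicate]
    omega
  have e2 : ((List.ofFn fun j => 2 * x j) ++ List.replicate (K - m) 2).prod =
      2 ^ K * ∏ j, x j := by
    rw [List.prod_append, List.prod_ofFn, List.prod_replicate, Finset.prod_mul_distrib,
      Finset.prod_const, Finset.card_univ, Fintype.card_fin]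
    have : 2 ^ K = 2 ^ m * 2 ^ (K - m) := by
      rw [← pow_add]
      congr 1
      omega
    rw [this]
    ring
  rw [e1, e2] at h1
  have e3 : 2 ^ (f * (K - 1)) * (2 ^ K * ∏ j, x j) = 2 ^ EE f K * ∏ j, x j := by
    unfold EE
    rw [pow_add]
    ring
  rw [e3] at h1
  exact h1

/-- one step of the chain -/
theorem chain_stepO {a b f c J : ℕ} (h : Cov a f c) (hb : 8 ≤ b) (hba : b ≤ a)
    {τ : Type} {T : Finset τ} {g : τ → ℕ} (H : Fam b (2 ^ (J + 2) - 3) (b * 2 ^ J) τ T g)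
    {K z : ℕ} (hK : 2 ^ (J + 2) ≤ K) (hz : 2 ^ (b * 2 ^ (J + 2)) ≤ z) :
    ∃ s z', 2 ^ EE f K * z = s + 2 ^ EE f (K + b * 2 ^ J / (f + 1)) * z' ∧ SumL f c 9 s ∧
      z' * 2 ^ ((f + 1) * (b * 2 ^ J / (f + 1))) ≤ z := by
  have h4 : 4 ≤ 2 ^ (J + 2) := by
    calc 4 = 2 ^ 2 := by norm_num
      _ ≤ 2 ^ (J + 2) := Nat.pow_le_pow_right (by norm_num) (by omega)
  set ρ := b * 2 ^ J / (f + 1) with hρ
  have hR : (f + 1) * ρ ≤ b * 2 ^ J := Nat.mul_div_le _ _
  set N := z - z % 2 with hN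
  have hN2 : N % 2 = 0 := by omega
  obtain ⟨x, hxT, hx⟩ := oct_cover H hb hR N hN2
  -- the size
  have hg : ∀ i, g (x i) ≤ 2 ^ (b * (2 ^ (J + 2) - 3)) := by
    intro i
    obtain ⟨y, hy1, hy2⟩ := H.prod (x i) (hxT i)
    rw [hy2]
    calc ∏ j, y j ≤ ∏ _j : Fin (2 ^ (J + 2) - 3), 2 ^ b :=
          Finset.prod_le_prod' fun j _ => (hy1 j).2.le
      _ = 2 ^ (b * (2 ^ (J + 2) - 3)) := by
          rw [Finset.prod_const, Finset.card_univ, Fintype.card_fin, pow_mul]
  have hsum : ∑ i, g (x i) ≤ N := by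
    have h5 : ∑ i, g (x i) ≤ 8 * 2 ^ (b * (2 ^ (J + 2) - 3)) := by
      calc ∑ i, g (x i) ≤ ∑ _i : Fin 8, 2 ^ (b * (2 ^ (J + 2) - 3)) :=
            Finset.sum_le_sum fun i _ => hg i
        _ = 8 * 2 ^ (b * (2 ^ (J + 2) - 3)) := by
            rw [Finset.sum_const, Finset.card_univ, Fintype.card_fin, smul_eq_mul]
    have h6 : 16 * 2 ^ (b * (2 ^ (J + 2) - 3)) ≤ z := by
      refine le_trans ?_ hz
      have e1 : b * 2 ^ (J + 2) = 3 * b + b * (2 ^ (J + 2) - 3) := by
        obtain ⟨w, hw⟩ : ∃ w, 2 ^ (J + 2) = w + 3 := ⟨2 ^ (J + 2) - 3, by omega⟩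
        rw [hw, Nat.add_sub_cancel]
        ring
      rw [e1, pow_add 2 (3 * b)]
      refine Nat.mul_le_mul_right _ ?_
      calc 16 = 2 ^ 4 := by norm_num
        _ ≤ 2 ^ (3 * b) := Nat.pow_le_pow_right (by norm_num) (by omega)
    have h7 : 0 < 2 ^ (b * (2 ^ (J + 2) - 3)) := by positivity
    omega
  have hmod : ∑ i, g (x i) ≡ N [MOD 2 ^ ((f + 1) * ρ)] := (ZMod.natCast_eq_natCast_iff _ _ _).1 hx
  obtain ⟨z', hz'⟩ := (Nat.modEq_iff_dvd' hsum).1 hmod
  have hzz : z = z % 2 + (∑ i, g (x i) + 2 ^ ((f + 1) * ρ) * z') := by omega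
  refine ⟨2 ^ EE f K * (z % 2) + 2 ^ EE f K * ∑ i, g (x i), z', ?_, ?_, ?_⟩
  · rw [EE_add (by omega), pow_add]
    conv_lhs => rw [hzz]
    ring
  · have hA : ∀ i, Av f c (2 ^ EE f K * g (x i)) := by
      intro i
      obtain ⟨y, hy1, hy2⟩ := H.prod (x i) (hxT i)
      rw [hy2]
      exact h.prodKO (by omega) (by omega) (by omega) y fun j =>
        lt_of_lt_of_le (hy1 j).2 (Nat.pow_le_pow_right (by norm_num) hba)
    have h1 : SumL f c 1 (2 ^ EE f K * (z % 2)) := by
      apply SumL.one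
      rcases Nat.mod_two_eq_zero_or_one z with h5 | h5
      · rw [h5, mul_zero]
        exact Av.zero f c
      · rw [h5]
        have := h.prodKO (by omega) (K := K) (m := 0) (by omega) (by omega) (fun _ => 1)
          (fun j => j.elim0)
        simpa using this
    have h8 : SumL f c 8 (2 ^ EE f K * ∑ i, g (x i)) := by
      refine ⟨List.ofFn fun i => 2 ^ EE f K * g (x i), by rw [List.length_ofFn], ?_, ?_⟩
      · intro y hy
        rw [List.mem_ofFn] at hy
        obtain ⟨i, rfl⟩ := hy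
        exact hA i
      · rw [List.sum_ofFn, ← Finset.mul_sum]
    exact h1.add h8
  · rw [mul_comm]
    omega

theorem chain_rho {b f J : ℕ} (hbf : 4 * (f + 1) ≤ b) :
    2 ^ (J + 2) ≤ b * 2 ^ J / (f + 1) := by
  rw [Nat.le_div_iff_mul_le (by omega)]
  calc 2 ^ (J + 2) * (f + 1) = 4 * (f + 1) * 2 ^ J := by rw [pow_add]; ring
    _ ≤ b * 2 ^ J := Nat.mul_le_mul_right _ hbf

theorem chain_rho' (b f J : ℕ) :
    b * 2 ^ J ≤ (f + 1) * (b * 2 ^ J / (f + 1)) + f := by
  have h1 := Nat.div_add_mod (b * 2 ^ J) (f + 1)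
  have h2 := Nat.mod_lt (b * 2 ^ J) (Nat.succ_pos f)
  have h3 : b * 2 ^ J % (f + 1) < f + 1 := h2
  omega

/-- downwards -/
theorem chain_downO {a b l f c : ℕ} (h : Cov a f c) (hb : 8 * l + 8 ≤ b) (hbf : 4 * (f + 1) ≤ b)
    (hab : 4 * b ≤ a) (J : ℕ) (hl : 4 * b * 2 ^ J ≤ 2 ^ l) :
    ∀ K z, 2 ^ (J + 2) ≤ K → z < 2 ^ (b * 2 ^ (J + 2)) → SumL f c (72 * J + 1) (2 ^ EE f K * z) := by
  induction J with
  | zero =>
    intro K z hK hz
    have h1 : z < 2 ^ a := by
      refine lt_of_lt_of_le hz (Nat.pow_le_pow_right (by norm_num) ?_)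
      norm_num
      omega
    have h2 := h.prodKO (by omega) (K := K) (m := 1) (by norm_num at hK; omega)
      (by norm_num at hK; omega) (fun _ => z) (fun _ => h1)
    rw [Finset.prod_const, Finset.card_univ, Fintype.card_fin, pow_one] at h2
    exact SumL.one h2
  | succ J ih =>
    have hl' : 4 * b * 2 ^ J ≤ 2 ^ l :=
      (Nat.mul_le_mul_left _ (Nat.pow_le_pow_right (by norm_num) (by omega))).trans hl
    obtain ⟨τ, T, g, H⟩ := fam_exists hb J hl'
    have key : ∀ s K z, 2 ^ (J + 2) ≤ K → z < 2 ^ (b * 2 ^ (J + 2) + s * (b * 2 ^ J - f)) →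
        SumL f c (9 * s + (72 * J + 1)) (2 ^ EE f K * z) := by
      intro s
      induction s with
      | zero =>
        intro K z hK hz
        rw [zero_mul, add_zero] at hz
        exact (ih hl' K z hK hz).mono (by omega)
      | succ s ihs =>
        intro K z hK hz
        rcases lt_or_ge z (2 ^ (b * 2 ^ (J + 2))) with h1 | h1
        · exact (ih hl' K z hK h1).mono (by omega)
        · obtain ⟨y, z', e1, e2, e3⟩ := chain_stepO (f := f) h (by omega) (by omega) H hK h1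
          have h2 := ihs (K + b * 2 ^ J / (f + 1)) z' (hK.trans (Nat.le_add_right _ _)) (by
            have h3 : b * 2 ^ J - f ≤ (f + 1) * (b * 2 ^ J / (f + 1)) :=
              Nat.sub_le_iff_le_add.2 (chain_rho' b f J)
            have h4 : z' * 2 ^ (b * 2 ^ J - f) < 2 ^ (b * 2 ^ (J + 2) + s * (b * 2 ^ J - f)) *
                2 ^ (b * 2 ^ J - f) := by
              calc z' * 2 ^ (b * 2 ^ J - f)
                  ≤ z' * 2 ^ ((f + 1) * (b * 2 ^ J / (f + 1))) :=
                    Nat.mul_le_mul_left _ (Nat.pow_le_pow_right (by norm_num) h3)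
                _ ≤ z := e3
                _ < 2 ^ (b * 2 ^ (J + 2) + (s + 1) * (b * 2 ^ J - f)) := hz
                _ = 2 ^ (b * 2 ^ (J + 2) + s * (b * 2 ^ J - f)) * 2 ^ (b * 2 ^ J - f) := by
                    rw [← pow_add]
                    congr 1
                    ring
            exact Nat.lt_of_mul_lt_mul_right h4)
          rw [e1]
          exact (e2.add h2).mono (by omega)
    intro K z hK hz
    have hK' : 2 ^ (J + 2) ≤ K :=
      (Nat.pow_le_pow_right (by norm_num) (by omega)).trans hK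
    refine (key 8 K z hK' (lt_of_lt_of_le hz (Nat.pow_le_pow_right (by norm_num) ?_))).mono
      (by omega)
    have h1 : b ≤ b * 2 ^ J := Nat.le_mul_of_pos_right b (by positivity)
    have h2 : b * 2 ^ (J + 1 + 2) = 8 * (b * 2 ^ J) := by
      rw [pow_add, pow_add]; ring
    have h3 : b * 2 ^ (J + 2) = 4 * (b * 2 ^ J) := by
      rw [pow_add]; ring
    omega

/-- upwards -/
theorem chain_upO {a b l f c e : ℕ} (h : Cov a f c) (hb : 8 * l + 8 ≤ b) (hbf : 4 * (f + 1) ≤ b)
    (hab : 4 * b ≤ a) (hl : 4 * b * 2 ^ e ≤ 2 ^ l) (n : ℕ) :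
    ∀ J K z, J + n = e → 2 ^ (J + 2) ≤ K → z < 2 ^ (2 ^ e) →
      SumL f c (9 * n + (72 * e + 1)) (2 ^ EE f K * z) := by
  induction n with
  | zero =>
    intro J K z hJ hK hz
    rw [add_zero] at hJ
    subst hJ
    refine (chain_downO h hb hbf hab J hl K z hK (lt_of_lt_of_le hz
      (Nat.pow_le_pow_right (by norm_num) ?_))).mono (by omega)
    rw [pow_add]
    nlinarith [Nat.one_le_two_pow (n := J)]
  | succ n ih =>
    intro J K z hJ hK hz
    have hl' : 4 * b * 2 ^ J ≤ 2 ^ l :=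
      (Nat.mul_le_mul_left _ (Nat.pow_le_pow_right (by norm_num) (by omega))).trans hl
    rcases lt_or_ge z (2 ^ (b * 2 ^ (J + 2))) with h1 | h1
    · exact (chain_downO h hb hbf hab J hl' K z hK h1).mono (by omega)
    · obtain ⟨τ, T, g, H⟩ := fam_exists hb J hl'
      obtain ⟨y, z', e1, e2, e3⟩ := chain_stepO (f := f) h (by omega) (by omega) H hK h1
      have h2 := ih (J + 1) (K + b * 2 ^ J / (f + 1)) z' (by omega) (by
        have h3 := chain_rho (J := J) hbf
        have h4 : 2 ^ (J + 1 + 2) = 2 ^ (J + 2) + 2 ^ (J + 2) := by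
          rw [pow_succ 2 (J + 2)] <;> ring_nf
        omega) (by
        refine lt_of_le_of_lt ?_ hz
        refine le_trans ?_ e3
        exact Nat.le_mul_of_pos_right z' (by positivity))
      rw [e1]
      exact (e2.add h2).mono (by omega)

/-- THE STEP -/
theorem Cov.big {a b l f c e : ℕ} (h : Cov a f c) (hb : 8 * l + 8 ≤ b) (hbf : 4 * (f + 1) ≤ b)
    (hab : 4 * b ≤ a) (hl : 4 * b * 2 ^ e ≤ 2 ^ l) :
    Cov (2 ^ e) (f + 1) ((81 * e + 3) * (c + f + 2)) := by
  intro q hq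
  apply SumL.av
  have hE : EE f 4 = 3 * f + 4 := by
    unfold EE
    ring
  have h1 := chain_upO h hb hbf hab hl e 0 4 (q / 2 ^ EE f 4) (by omega) (by norm_num)
    (lt_of_le_of_lt (Nat.div_le_self _ _) hq)
  have h2 : SumL f c 1 (2 * (q % 2 ^ EE f 4 / 2)) := by
    apply SumL.one
    refine h _ ?_
    have h3 : q % 2 ^ EE f 4 < 2 ^ EE f 4 := Nat.mod_lt _ (by positivity)
    have h4 : 2 ^ EE f 4 ≤ 2 ^ a := Nat.pow_le_pow_right (by norm_num) (by omega)
    omega
  have h3 : SumL f c 1 (q % 2 ^ EE f 4 % 2) := by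
    apply SumL.one
    rcases Nat.mod_two_eq_zero_or_one (q % 2 ^ EE f 4) with h4 | h4
    · rw [h4]
      exact Av.zero f c
    · rw [h4]
      exact Av.base.mono (Nat.zero_le _) (Nat.zero_le _)
  have h4 := (h1.add h2).add h3
  have e1 : 2 ^ EE f 4 * (q / 2 ^ EE f 4) + 2 * (q % 2 ^ EE f 4 / 2) + q % 2 ^ EE f 4 % 2 = q := by
    have h5 := Nat.div_add_mod q (2 ^ EE f 4)
    omega
  rw [e1] at h4
  exact h4.mono (by omega)

end HadCalc
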