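import Pool.Agent.Lib_MP_008adc_oct.OOct
import Pool.Agent.Lib_MP_008adc_oct.OChain

/-!
# Exponential sums over products of few atoms, modulus a power of two

An atom is a number with the property `A`; atoms are all small numbers and the numbers
`1 + 2 ^ s P`, `P` a product of `k` odd primes.
-/

set_option autoImplicit false

namespace HadNT

/-- A family of odd numbers `g t ≤ 2 ^ S`, products of `m` atoms, whose exponential sums
at the frequencies of order `2 ^ i`, `2 ≤ i ≤ n`, are small, and zero for `i ≤ b`. -/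
structure FamA (A : ℕ → Prop) (b m S n : ℕ) (τ : Type) (T : Finset τ) (g : τ → ℕ) : Prop where
  ne : T.Nonempty
  odd : ∀ t ∈ T, g t % 2 = 1
  prod : ∀ t ∈ T, ∃ x : Fin m → ℕ, (∀ j, A (x j)) ∧ g t = ∏ j, x j
  size : ∀ t ∈ T, g t ≤ 2 ^ S
  zero : ∀ R i, ∀ h : ZMod (2 ^ R), addOrderOf h = 2 ^ i → 2 ≤ i → i ≤ b →
    Sg (2 ^ R) T (fun t => (g t : ZMod (2 ^ R))) h = 0
  small : ∀ R i, ∀ h : ZMod (2 ^ R), addOrderOf h = 2 ^ i → 2 ≤ i → i ≤ n →
    ‖Sg (2 ^ R) T (fun t => (g t : ZMod (2 ^ R))) h‖ * 2 ^ (i / 4) ≤ T.card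

theorem famA_base {A : ℕ → Prop} {b : ℕ} (hb : 1 ≤ b) (hA : ∀ v < 2 ^ b, A v) :
    FamA A b 1 b b ℕ (Finset.range (2 ^ (b - 1))) (fun y => 2 * y + 1) := by
  have H := fam_base hb
  have h2 : 2 ^ b = 2 * 2 ^ (b - 1) := by
    rw [← pow_succ']
    congr 1
    omega
  refine ⟨H.ne, H.odd, fun t ht => ?_, fun t ht => ?_, H.zero, H.small⟩
  · refine ⟨fun _ => 2 * t + 1, fun _ => hA _ ?_, by simp⟩
    have h1 := Finset.mem_range.1 ht
    show 2 * t + 1 < 2 ^ b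
    omega
  · show 2 * t + 1 ≤ 2 ^ b
    have h1 := Finset.mem_range.1 ht
    omega

theorem famA_step {A : ℕ → Prop} {b l m S K : ℕ} (hb : 8 * l + 8 ≤ b) (hK : 1 ≤ K)
    (U : Finset ℕ) (hUA : ∀ u ∈ U, A u) (hodd : ∀ u ∈ U, u % 2 = 1)
    (hUB : ∀ u ∈ U, u ≤ 2 ^ (b * (2 * K)))
    (hden : 2 ^ (b * (2 * K)) ≤ U.card * 2 ^ (l * (2 * K)))
    {τ : Type} {T : Finset τ} {g : τ → ℕ} (h : FamA A b m S (b * K) τ T g) :
    FamA A b (m + 2) (S + 2 * (b * (2 * K))) (b * (2 * K)) (τ × (ℕ × ℕ))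
      (T ×ˢ (U ×ˢ U)) (fun x => g x.1 * (x.2.1 * x.2.2)) := by
  have hUc : 0 < U.card := by
    by_contra h0
    have h1 : U.card = 0 := by omega
    rw [h1, zero_mul] at hden
    have : 0 < 2 ^ (b * (2 * K)) := by positivity
    omega
  have hUne : U.Nonempty := Finset.card_pos.1 hUc
  have hoddm : ∀ u ∈ U, ∀ v ∈ U, (u * v) % 2 = 1 := by
    intro u hu v hv
    rw [Nat.mul_mod, hodd u hu, hodd v hv]
  -- the sums in the order: first over the old family
  have hS1 : ∀ R, ∀ f : ZMod (2 ^ R), Sg (2 ^ R) (T ×ˢ (U ×ˢ U))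
      (fun x => ((g x.1 * (x.2.1 * x.2.2) : ℕ) : ZMod (2 ^ R))) f =
      ∑ y ∈ U ×ˢ U, Sg (2 ^ R) T (fun t => (g t : ZMod (2 ^ R)))
        (f * ((y.1 * y.2 : ℕ) : ZMod (2 ^ R))) := by
    intro R f
    unfold Sg
    rw [Finset.sum_product_right]
    refine Finset.sum_congr rfl fun y _ => Finset.sum_congr rfl fun t _ => ?_
    congr 1
    push_cast
    ring
  have hS2 : ∀ R, ∀ f : ZMod (2 ^ R), Sg (2 ^ R) (T ×ˢ (U ×ˢ U))
      (fun x => ((g x.1 * (x.2.1 * x.2.2) : ℕ) : ZMod (2 ^ R))) f =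
      ∑ t ∈ T, Sg (2 ^ R) (U ×ˢ U) (fun y => ((y.1 * y.2 : ℕ) : ZMod (2 ^ R)))
        (f * (g t : ZMod (2 ^ R))) := by
    intro R f
    unfold Sg
    rw [Finset.sum_product]
    refine Finset.sum_congr rfl fun t _ => Finset.sum_congr rfl fun y _ => ?_
    congr 1
    push_cast
    ring
  refine ⟨h.ne.product (hUne.product hUne), ?_, ?_, ?_, ?_, ?_⟩
  · rintro ⟨t, u, v⟩ hx
    rw [Finset.mem_product, Finset.mem_product] at hx
    show (g t * (u * v)) % 2 = 1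
    rw [Nat.mul_mod, h.odd t hx.1, hoddm u hx.2.1 v hx.2.2]
  · rintro ⟨t, u, v⟩ hx
    rw [Finset.mem_product, Finset.mem_product] at hx
    obtain ⟨x, hx1, hx2⟩ := h.prod t hx.1
    refine ⟨Fin.append x ![u, v], fun j => ?_, ?_⟩
    · refine Fin.addCases (fun i => ?_) (fun i => ?_) j
      · rw [Fin.append_left]
        exact hx1 i
      · rw [Fin.append_right]
        fin_cases i
        · exact hUA u hx.2.1
        · exact hUA v hx.2.2
    · show g t * (u * v) = _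
      rw [Fin.prod_univ_add, hx2]
      simp only [Fin.append_left, Fin.append_right, Fin.prod_univ_two, Matrix.cons_val_zero,
        Matrix.cons_val_one]
  · rintro ⟨t, u, v⟩ hx
    rw [Finset.mem_product, Finset.mem_product] at hx
    show g t * (u * v) ≤ _
    calc g t * (u * v) ≤ 2 ^ S * (2 ^ (b * (2 * K)) * 2 ^ (b * (2 * K))) :=
          Nat.mul_le_mul (h.size t hx.1) (Nat.mul_le_mul (hUB u hx.2.1) (hUB v hx.2.2))
      _ = 2 ^ (S + 2 * (b * (2 * K))) := by rw [← pow_add, ← pow_add]; congr 1; ring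
  · intro R i f hi h2 hib
    rw [hS1]
    refine Finset.sum_eq_zero fun y hy => ?_
    rw [Finset.mem_product] at hy
    exact h.zero R i _ (order_mul_odd f hi (hoddm _ hy.1 _ hy.2)) h2 hib
  · intro R i f hi h2 hin
    have hcard : ((T ×ˢ (U ×ˢ U)).card : ℝ) = T.card * ((U.card : ℝ) * U.card) := by
      rw [Finset.card_product, Finset.card_product]
      push_cast
      ring
    rw [hcard]
    rcases le_or_gt i (b * K) with hiK | hiK
    · rw [hS1]
      calc ‖∑ y ∈ U ×ˢ U, Sg (2 ^ R) T (fun t => (g t : ZMod (2 ^ R)))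
            (f * ((y.1 * y.2 : ℕ) : ZMod (2 ^ R)))‖ * 2 ^ (i / 4)
          ≤ (∑ y ∈ U ×ˢ U, ‖Sg (2 ^ R) T (fun t => (g t : ZMod (2 ^ R)))
            (f * ((y.1 * y.2 : ℕ) : ZMod (2 ^ R)))‖) * 2 ^ (i / 4) :=
            mul_le_mul_of_nonneg_right (norm_sum_le _ _) (by positivity)
        _ = ∑ y ∈ U ×ˢ U, ‖Sg (2 ^ R) T (fun t => (g t : ZMod (2 ^ R)))
            (f * ((y.1 * y.2 : ℕ) : ZMod (2 ^ R)))‖ * 2 ^ (i / 4) := Finset.sum_mul _ _ _
        _ ≤ ∑ y ∈ U ×ˢ U, (T.card : ℝ) := by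
            refine Finset.sum_le_sum fun y hy => ?_
            rw [Finset.mem_product] at hy
            exact h.small R i _ (order_mul_odd f hi (hoddm _ hy.1 _ hy.2)) h2 hiK
        _ = T.card * ((U.card : ℝ) * U.card) := by
            rw [Finset.sum_const, Finset.card_product, nsmul_eq_mul]
            push_cast
            ring
    · -- the bilinear bound
      have hbil : ∀ t ∈ T, ‖Sg (2 ^ R) (U ×ˢ U) (fun y => ((y.1 * y.2 : ℕ) : ZMod (2 ^ R)))
          (f * (g t : ZMod (2 ^ R)))‖ * 2 ^ (i / 4) ≤ (U.card : ℝ) * U.card := by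
        intro t ht
        have ho := order_mul_odd f hi (h.odd t ht)
        have h3 := bil (2 ^ R) (f * (g t : ZMod (2 ^ R))) U U (2 ^ (b * (2 * K)))
          (fun u hu => ⟨by have := hodd u hu; omega, hUB u hu⟩)
          (fun u hu => ⟨by have := hodd u hu; omega, hUB u hu⟩)
        rw [ho] at h3
        have h4 : 2 ^ (b * (2 * K)) / 2 ^ i = 2 ^ (b * (2 * K) - i) :=
          Nat.pow_div hin (by norm_num)
        rw [h4] at h3
        set N := ‖Sg (2 ^ R) (U ×ˢ U) (fun y => ((y.1 * y.2 : ℕ) : ZMod (2 ^ R)))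
          (f * (g t : ZMod (2 ^ R)))‖ with hN
        have hN0 : 0 ≤ N := norm_nonneg _
        have h5 : ((2 ^ (b * (2 * K) - i) + 1 : ℕ) : ℝ) ≤ 2 * 2 ^ (b * (2 * K) - i) := by
          push_cast
          have : (1 : ℝ) ≤ 2 ^ (b * (2 * K) - i) := one_le_pow₀ (by norm_num)
          linarith
        have h6 : N ^ 2 ≤ (U.card : ℝ) * U.card * 2 ^ i * (2 * 2 ^ (b * (2 * K) - i)) ^ 2 := by
          refine h3.trans ?_
          push_cast
          push_cast at h5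
          gcongr
        have h7 : (2 : ℝ) ^ i * (2 * 2 ^ (b * (2 * K) - i)) ^ 2 * (2 ^ (i / 4)) ^ 2 ≤
            (U.card : ℝ) * U.card := by
          have h8 : (2 : ℝ) ^ (b * (2 * K)) ≤ U.card * 2 ^ (l * (2 * K)) := by
            exact_mod_cast hden
          have h9 : (2 : ℝ) ^ i * (2 * 2 ^ (b * (2 * K) - i)) ^ 2 * (2 ^ (i / 4)) ^ 2 *
              (2 ^ (l * (2 * K))) ^ 2 ≤ (2 ^ (b * (2 * K))) ^ 2 := by
            have e := exp_arith hb hK hiK hin
            calc (2 : ℝ) ^ i * (2 * 2 ^ (b * (2 * K) - i)) ^ 2 * (2 ^ (i / 4)) ^ 2 *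
                  (2 ^ (l * (2 * K))) ^ 2
                = 2 ^ (2 + (b * (2 * K) - i) * 2 + i + (i / 4) * 2 + (l * (2 * K)) * 2) := by
                  simp only [pow_add, pow_mul]
                  ring
              _ ≤ 2 ^ ((b * (2 * K)) * 2) := pow_le_pow_right₀ (by norm_num) e
              _ = (2 ^ (b * (2 * K))) ^ 2 := pow_mul _ _ _
          have h10 : ((2 : ℝ) ^ (b * (2 * K))) ^ 2 ≤ (U.card * 2 ^ (l * (2 * K))) ^ 2 :=
            pow_le_pow_left₀ (by positivity) h8 2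
          have h11 : (0 : ℝ) < (2 ^ (l * (2 * K))) ^ 2 := by positivity
          have h12 := h9.trans h10
          rw [mul_pow (U.card : ℝ)] at h12
          have h13 := le_of_mul_le_mul_right h12 h11
          rw [pow_two (U.card : ℝ)] at h13
          exact h13
        have h8 : (N * 2 ^ (i / 4)) ^ 2 ≤ ((U.card : ℝ) * U.card) ^ 2 := by
          calc (N * 2 ^ (i / 4)) ^ 2 = N ^ 2 * (2 ^ (i / 4)) ^ 2 := mul_pow _ _ _
            _ ≤ (U.card : ℝ) * U.card * 2 ^ i * (2 * 2 ^ (b * (2 * K) - i)) ^ 2 *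
                (2 ^ (i / 4)) ^ 2 := mul_le_mul_of_nonneg_right h6 (by positivity)
            _ = (U.card : ℝ) * U.card * (2 ^ i * (2 * 2 ^ (b * (2 * K) - i)) ^ 2 *
                (2 ^ (i / 4)) ^ 2) := by ring
            _ ≤ (U.card : ℝ) * U.card * ((U.card : ℝ) * U.card) :=
                mul_le_mul_of_nonneg_left h7 (by positivity)
            _ = ((U.card : ℝ) * U.card) ^ 2 := by ring
        exact le_of_sq_le_sq h8 (by positivity)
      rw [hS2]
      calc ‖∑ t ∈ T, Sg (2 ^ R) (U ×ˢ U) (fun y => ((y.1 * y.2 : ℕ) : ZMod (2 ^ R)))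
            (f * (g t : ZMod (2 ^ R)))‖ * 2 ^ (i / 4)
          ≤ (∑ t ∈ T, ‖Sg (2 ^ R) (U ×ˢ U) (fun y => ((y.1 * y.2 : ℕ) : ZMod (2 ^ R)))
            (f * (g t : ZMod (2 ^ R)))‖) * 2 ^ (i / 4) :=
            mul_le_mul_of_nonneg_right (norm_sum_le _ _) (by positivity)
        _ = ∑ t ∈ T, ‖Sg (2 ^ R) (U ×ˢ U) (fun y => ((y.1 * y.2 : ℕ) : ZMod (2 ^ R)))
            (f * (g t : ZMod (2 ^ R)))‖ * 2 ^ (i / 4) := Finset.sum_mul _ _ _
        _ ≤ ∑ t ∈ T, (U.card : ℝ) * U.card := Finset.sum_le_sum hbil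
        _ = T.card * ((U.card : ℝ) * U.card) := by
            rw [Finset.sum_const, nsmul_eq_mul]

theorem octA_cover {A : ℕ → Prop} {b m S n : ℕ} {τ : Type} {T : Finset τ} {g : τ → ℕ}
    (H : FamA A b m S n τ T g)
    (hb : 8 ≤ b) {R : ℕ} (hR : R ≤ n) (N : ℕ) (hN : N % 2 = 0) :
    ∃ x : Fin 8 → τ, (∀ i, x i ∈ T) ∧
      ((∑ i, g (x i) : ℕ) : ZMod (2 ^ R)) = (N : ZMod (2 ^ R)) := by
  classical
  by_contra hcon
  push Not at hcon
  set F : ZMod (2 ^ R) → ℂ := fun h => Sg (2 ^ R) T (fun t => (g t : ZMod (2 ^ R))) h with hF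
  have hT0 : (0 : ℝ) < T.card := by exact_mod_cast Finset.card_pos.2 H.ne
  have hsum : ∑ h : ZMod (2 ^ R), F h ^ 8 * (ZMod.stdAddChar (-(h * (N : ZMod (2 ^ R)))) : ℂ) = 0 := by
    have h1 : ∀ h : ZMod (2 ^ R), F h ^ 8 * (ZMod.stdAddChar (-(h * (N : ZMod (2 ^ R)))) : ℂ) =
        ∑ x ∈ Fintype.piFinset (fun _ : Fin 8 => T),
          (ZMod.stdAddChar (h * (((∑ i, g (x i) : ℕ) : ZMod (2 ^ R)) - (N : ZMod (2 ^ R)))) : ℂ) := by
      intro h
      have h2 : F h ^ 8 = ∏ _i : Fin 8, F h := by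
        rw [Finset.prod_const, Finset.card_univ, Fintype.card_fin]
      rw [h2, hF]
      simp only [Sg]
      rw [Finset.prod_univ_sum, Finset.sum_mul]
      refine Finset.sum_congr rfl fun x _ => ?_
      rw [← psi_sumO, ← AddChar.map_add_eq_mul]
      congr 1
      rw [← Finset.mul_sum]
      push_cast
      ring
    rw [Finset.sum_congr rfl (fun h _ => h1 h), Finset.sum_comm]
    refine Finset.sum_eq_zero fun x hx => ?_
    rw [orth, if_neg]
    intro h0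
    exact hcon x (fun i => Fintype.mem_piFinset.1 hx i) (sub_eq_zero.1 h0)
  -- the frequencies of order at most two
  have htriv : ∀ h : ZMod (2 ^ R), 2 * h = 0 →
      F h ^ 8 * (ZMod.stdAddChar (-(h * (N : ZMod (2 ^ R)))) : ℂ) = (T.card : ℂ) ^ 8 := by
    intro h h2
    have hN' : h * (N : ZMod (2 ^ R)) = 0 := by
      obtain ⟨k, hk⟩ := Nat.dvd_of_mod_eq_zero hN
      rw [hk]
      push_cast
      rw [← mul_assoc, mul_comm h 2, h2, zero_mul]
    have hg : ∀ t ∈ T, h * (g t : ZMod (2 ^ R)) = h := by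
      intro t ht
      have h3 := H.odd t ht
      have h4 : g t = 2 * (g t / 2) + 1 := by omega
      rw [h4]
      push_cast
      rw [mul_add, ← mul_assoc, mul_comm h 2, h2, zero_mul, zero_add, mul_one]
    have hFh : F h = T.card * (ZMod.stdAddChar h : ℂ) := by
      rw [hF]
      simp only [Sg]
      rw [Finset.sum_congr rfl (fun t ht => by rw [hg t ht]), Finset.sum_const, nsmul_eq_mul]
    have h8 : (ZMod.stdAddChar h : ℂ) ^ 8 = 1 := by
      rw [← AddChar.map_nsmul_eq_pow]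
      have : (8 : ℕ) • h = 0 := by
        rw [nsmul_eq_mul]
        push_cast
        linear_combination 4 * h2
      rw [this, AddChar.map_zero_eq_one]
    rw [hN', neg_zero, AddChar.map_zero_eq_one, mul_one, hFh, mul_pow, h8, mul_one]
  -- the other frequencies
  set D : Finset (ZMod (2 ^ R)) := Finset.univ.filter (fun h => 2 * h = 0) with hD
  set D' : Finset (ZMod (2 ^ R)) := Finset.univ.filter (fun h => ¬ 2 * h = 0) with hD'
  have hsplit := Finset.sum_filter_add_sum_filter_not (Finset.univ : Finset (ZMod (2 ^ R)))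
    (fun h => 2 * h = 0) (fun h => F h ^ 8 * (ZMod.stdAddChar (-(h * (N : ZMod (2 ^ R)))) : ℂ))
  rw [hsum, ← hD, ← hD'] at hsplit
  have hD0 : (0 : ZMod (2 ^ R)) ∈ D := by
    rw [hD, Finset.mem_filter]
    exact ⟨Finset.mem_univ _, mul_zero _⟩
  have hDc : 1 ≤ D.card := Finset.card_pos.2 ⟨0, hD0⟩
  have h1 : ∑ h ∈ D, F h ^ 8 * (ZMod.stdAddChar (-(h * (N : ZMod (2 ^ R)))) : ℂ) = D.card * (T.card : ℂ) ^ 8 := by
    rw [Finset.sum_congr rfl (fun h hh => htriv h (Finset.mem_filter.1 hh).2), Finset.sum_const,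
      nsmul_eq_mul]
  rw [h1] at hsplit
  have h2 : (D.card : ℝ) * (T.card : ℝ) ^ 8 ≤ ∑ h ∈ D', ‖F h‖ ^ 8 := by
    have h3 : (D.card : ℂ) * (T.card : ℂ) ^ 8 =
        -∑ h ∈ D', F h ^ 8 * (ZMod.stdAddChar (-(h * (N : ZMod (2 ^ R)))) : ℂ) :=
      eq_neg_of_add_eq_zero_left hsplit
    have h4 : ‖(D.card : ℂ) * (T.card : ℂ) ^ 8‖ = (D.card : ℝ) * (T.card : ℝ) ^ 8 := by
      rw [norm_mul, norm_pow, Complex.norm_natCast, Complex.norm_natCast]
    rw [← h4, h3, norm_neg]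
    refine (norm_sum_le _ _).trans (Finset.sum_le_sum fun h _ => ?_)
    rw [norm_mul, norm_pow, ZMod.stdAddChar_apply, Circle.norm_coe, mul_one]
  -- sort the others by their order
  have hord : ∀ h : ZMod (2 ^ R), ∃ i, i ≤ R ∧ addOrderOf h = 2 ^ i := by
    intro h
    have h3 : addOrderOf h ∣ 2 ^ R := by
      apply addOrderOf_dvd_of_nsmul_eq_zero
      rw [nsmul_eq_mul]
      have : ((2 ^ R : ℕ) : ZMod (2 ^ R)) = 0 := ZMod.natCast_self _
      rw [this, zero_mul]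
    exact (Nat.dvd_prime_pow Nat.prime_two).1 h3
  have hlog : ∀ h : ZMod (2 ^ R), ∀ i, addOrderOf h = 2 ^ i →
      Nat.log 2 (addOrderOf h) = i := by
    intro h i hi
    rw [hi, Nat.log_pow (by norm_num)]
  have h3 : ∑ h ∈ D', ‖F h‖ ^ 8 ≤ ∑ j ∈ Finset.range (R + b + 2),
      (64 * (T.card : ℝ) ^ 8) * (if j ≤ b then (0 : ℝ) else (1 / 2) ^ j) := by
    rw [← Finset.sum_fiberwise_of_maps_to (s := D') (t := Finset.range (R + b + 2))
      (g := fun h => Nat.log 2 (addOrderOf h)) (fun h _ => by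
        obtain ⟨i, hi, hi'⟩ := hord h
        rw [hlog h i hi']
        exact Finset.mem_range.2 (by omega))]
    refine Finset.sum_le_sum fun j _ => ?_
    have h4 : ∀ h ∈ D'.filter (fun h => Nat.log 2 (addOrderOf h) = j),
        addOrderOf h = 2 ^ j ∧ 2 ≤ j ∧ j ≤ R := by
      intro h hh
      rw [Finset.mem_filter] at hh
      obtain ⟨i, hi, hi'⟩ := hord h
      have h5 := hlog h i hi'
      rw [hh.2] at h5
      subst h5
      refine ⟨hi', ?_, hi⟩
      by_contra h6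
      have h7 : ¬ 2 * h = 0 := (Finset.mem_filter.1 hh.1).2
      apply h7
      have h8 : addOrderOf h ∣ 2 := by
        rw [hi']
        have : j ≤ 1 := by omega
        calc 2 ^ j ∣ 2 ^ 1 := pow_dvd_pow 2 this
          _ = 2 := by norm_num
      have h9 := addOrderOf_dvd_iff_nsmul_eq_zero.1 h8
      rw [nsmul_eq_mul] at h9
      exact_mod_cast h9
    rcases le_or_gt j b with hjb | hjb
    · rw [if_pos hjb, mul_zero]
      refine le_of_eq (Finset.sum_eq_zero fun h hh => ?_)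
      obtain ⟨h5, h6, h7⟩ := h4 h hh
      have h8 : F h = 0 := H.zero R j h h5 h6 hjb
      rw [h8, norm_zero]
      norm_num
    · rw [if_neg (by omega)]
      have h5 : ∀ h ∈ D'.filter (fun h => Nat.log 2 (addOrderOf h) = j),
          ‖F h‖ ^ 8 ≤ 64 * (T.card : ℝ) ^ 8 * (1 / 4) ^ j := by
        intro h hh
        obtain ⟨h5, h6, h7⟩ := h4 h hh
        have h8 : ‖F h‖ * 2 ^ (j / 4) ≤ T.card := H.small R j h h5 h6 (h7.trans hR)
        have h9 : (‖F h‖ * 2 ^ (j / 4)) ^ 8 ≤ (T.card : ℝ) ^ 8 :=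
          pow_le_pow_left₀ (by positivity) h8 8
        have h10 : (4 : ℝ) ^ j ≤ 64 * (2 ^ (j / 4)) ^ 8 := by
          have h11 : 2 * j ≤ 6 + (j / 4) * 8 := by omega
          calc (4 : ℝ) ^ j = 2 ^ (2 * j) := by rw [pow_mul]; norm_num
            _ ≤ 2 ^ (6 + (j / 4) * 8) := pow_le_pow_right₀ (by norm_num) h11
            _ = 64 * (2 ^ (j / 4)) ^ 8 := by rw [pow_add, pow_mul]; norm_num
        rw [one_div, inv_pow, ← div_eq_mul_inv, le_div_iff₀ (by positivity)]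
        rw [mul_pow] at h9
        calc ‖F h‖ ^ 8 * 4 ^ j ≤ ‖F h‖ ^ 8 * (64 * (2 ^ (j / 4)) ^ 8) :=
              mul_le_mul_of_nonneg_left h10 (by positivity)
          _ = 64 * (‖F h‖ ^ 8 * (2 ^ (j / 4)) ^ 8) := by ring
          _ ≤ 64 * (T.card : ℝ) ^ 8 := by linarith
      have h6 := card_order R j (D'.filter (fun h => Nat.log 2 (addOrderOf h) = j))
        (fun h hh => (h4 h hh).1)
      calc ∑ h ∈ D'.filter (fun h => Nat.log 2 (addOrderOf h) = j), ‖F h‖ ^ 8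
          ≤ ∑ h ∈ D'.filter (fun h => Nat.log 2 (addOrderOf h) = j),
            64 * (T.card : ℝ) ^ 8 * (1 / 4) ^ j := Finset.sum_le_sum h5
        _ = ((D'.filter (fun h => Nat.log 2 (addOrderOf h) = j)).card : ℝ) *
            (64 * (T.card : ℝ) ^ 8 * (1 / 4) ^ j) := by rw [Finset.sum_const, nsmul_eq_mul]
        _ ≤ 2 ^ j * (64 * (T.card : ℝ) ^ 8 * (1 / 4) ^ j) :=
            mul_le_mul_of_nonneg_right h6 (by positivity)
        _ = 64 * (T.card : ℝ) ^ 8 * (1 / 2) ^ j := by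
            have : (2 : ℝ) ^ j * (1 / 4) ^ j = (1 / 2) ^ j := by
              rw [← mul_pow]; norm_num
            linear_combination (64 * (T.card : ℝ) ^ 8) * this
  rw [← Finset.mul_sum] at h3
  have h4 := half_sum b (R + b + 2) (by omega)
  have h5 : (1 / 2 : ℝ) ^ b ≤ 1 / 256 := by
    calc (1 / 2 : ℝ) ^ b ≤ (1 / 2) ^ 8 := pow_le_pow_of_le_one (by norm_num) (by norm_num) hb
      _ = 1 / 256 := by norm_num
  have h6 : (0 : ℝ) < (1 / 2) ^ (R + b + 2 - 1) := by positivity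
  have h7 : (1 : ℝ) ≤ D.card := by exact_mod_cast hDc
  have h8 : (0 : ℝ) < (T.card : ℝ) ^ 8 := by positivity
  have h9 : (∑ j ∈ Finset.range (R + b + 2), if j ≤ b then (0 : ℝ) else (1 / 2) ^ j) ≤ 1 / 256 := by
    linarith
  have h10 : 64 * (T.card : ℝ) ^ 8 * (∑ j ∈ Finset.range (R + b + 2),
      if j ≤ b then (0 : ℝ) else (1 / 2) ^ j) ≤ 64 * (T.card : ℝ) ^ 8 * (1 / 256) :=
    mul_le_mul_of_nonneg_left h9 (by positivity)
  have h11 : (T.card : ℝ) ^ 8 ≤ D.card * (T.card : ℝ) ^ 8 := by nlinarith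
  linarith

/-- The atoms `1 + 2 ^ s P`, `P` a product of `k` odd primes `≤ 2 ^ a`. -/
def UA (a s k : ℕ) : Finset ℕ := (OU (2 ^ a) k).image (fun P => 2 ^ s * P + 1)

theorem UA_card (a s k : ℕ) : (UA a s k).card = (OU (2 ^ a) k).card := by
  unfold UA
  refine Finset.card_image_of_injective _ fun x y h => ?_
  have h1 : 2 ^ s * x + 1 = 2 ^ s * y + 1 := h
  have h2 : 2 ^ s * x = 2 ^ s * y := by omega
  exact Nat.eq_of_mul_eq_mul_left (by positivity) h2

theorem UA_mem {a s k u : ℕ} (hu : u ∈ UA a s k) : ∃ P ∈ OU (2 ^ a) k, u = 2 ^ s * P + 1 := by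
  unfold UA at hu
  obtain ⟨P, hP, rfl⟩ := Finset.mem_image.1 hu
  exact ⟨P, hP, rfl⟩

theorem UA_odd {a s k u : ℕ} (hs : 1 ≤ s) (hu : u ∈ UA a s k) : u % 2 = 1 := by
  obtain ⟨P, -, rfl⟩ := UA_mem hu
  obtain ⟨s', rfl⟩ := Nat.exists_eq_add_of_le' hs
  have : 2 ^ (s' + 1) * P = 2 * (2 ^ s' * P) := by rw [pow_succ]; ring
  omega

theorem UA_le {a f s k u : ℕ} (hk : 1 ≤ k) (hs : s ≤ (f + 1) * k) (hu : u ∈ UA a s k) :
    u ≤ 2 ^ ((a + f + 2) * k) := by
  obtain ⟨P, hP, rfl⟩ := UA_mem hu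
  have h1 := (OU_bound hP).2
  rw [← pow_mul] at h1
  have h2 : 2 ^ s * P ≤ 2 ^ ((f + 1) * k) * 2 ^ (a * k) :=
    Nat.mul_le_mul (Nat.pow_le_pow_right (by norm_num) hs) h1
  have h3 : 2 ^ ((a + f + 2) * k) = 2 ^ ((f + 1) * k) * 2 ^ (a * k) * 2 ^ k := by
    rw [← pow_add, ← pow_add]; congr 1; ring
  have h4 : 2 ≤ 2 ^ k := by
    calc 2 = 2 ^ 1 := by norm_num
      _ ≤ 2 ^ k := Nat.pow_le_pow_right (by norm_num) hk
  have h5 : 0 < 2 ^ ((f + 1) * k) * 2 ^ (a * k) := by positivity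
  rw [h3]
  nlinarith

/-- all levels: `2 J + 1` atoms -/
theorem famA_exists {A : ℕ → Prop} {a f l : ℕ} (ha : 8 * (l + f + 2) + 8 ≤ a)
    (hA0 : ∀ v < 2 ^ (a + f + 2), A v)
    (hA1 : ∀ k, 1 ≤ k → ∀ P ∈ OU (2 ^ a) k, A (2 ^ (f * (k - 1) + k) * P + 1)) (J : ℕ)
    (hl : 4 * a * 2 ^ J ≤ 2 ^ l) :
    ∃ (τ : Type) (T : Finset τ) (g : τ → ℕ),
      FamA A (a + f + 2) (2 * J + 1) ((a + f + 2) * (2 ^ (J + 2) - 3)) ((a + f + 2) * 2 ^ J) τ T g := by
  induction J with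
  | zero =>
    refine ⟨ℕ, Finset.range (2 ^ (a + f + 2 - 1)), fun y => 2 * y + 1, ?_⟩
    have := famA_base (A := A) (b := a + f + 2) (by omega) hA0
    norm_num
    exact this
  | succ J ih =>
    obtain ⟨τ, T, g, h⟩ := ih (by
      refine le_trans ?_ hl
      exact Nat.mul_le_mul_left _ (Nat.pow_le_pow_right (by norm_num) (by omega)))
    have hk : 1 ≤ 2 * 2 ^ J := by have := Nat.one_le_two_pow (n := J); omega
    have hs1 : 1 ≤ f * (2 * 2 ^ J - 1) + 2 * 2 ^ J := by omega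
    have hs2 : f * (2 * 2 ^ J - 1) + 2 * 2 ^ J ≤ (f + 1) * (2 * 2 ^ J) := by
      have : f * (2 * 2 ^ J - 1) ≤ f * (2 * 2 ^ J) := Nat.mul_le_mul_left _ (Nat.sub_le _ _)
      calc f * (2 * 2 ^ J - 1) + 2 * 2 ^ J ≤ f * (2 * 2 ^ J) + 2 * 2 ^ J := by omega
        _ = (f + 1) * (2 * 2 ^ J) := by ring
    have hla : l ≤ a := by omega
    have hden := OU_density (b := a) (k := 2 * 2 ^ J) (l := l) (by omega) hk
      (by rw [← pow_succ']; exact hl) hla
    have h1 := famA_step (A := A) (b := a + f + 2) (l := l + f + 2) (K := 2 ^ J) (by omega)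
      Nat.one_le_two_pow (UA a (f * (2 * 2 ^ J - 1) + 2 * 2 ^ J) (2 * 2 ^ J))
      (fun u hu => by
        obtain ⟨P, hP, rfl⟩ := UA_mem hu
        exact hA1 _ hk P hP)
      (fun u hu => UA_odd hs1 hu) (fun u hu => UA_le hk hs2 hu) (by
        rw [UA_card]
        calc 2 ^ ((a + f + 2) * (2 * 2 ^ J)) = 2 ^ (a * (2 * 2 ^ J)) * 2 ^ ((f + 2) * (2 * 2 ^ J)) := by
              rw [← pow_add]; congr 1; ring
          _ ≤ (OU (2 ^ a) (2 * 2 ^ J)).card * 2 ^ (l * (2 * 2 ^ J)) * 2 ^ ((f + 2) * (2 * 2 ^ J)) :=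
              Nat.mul_le_mul_right _ hden
          _ = (OU (2 ^ a) (2 * 2 ^ J)).card * 2 ^ ((l + f + 2) * (2 * 2 ^ J)) := by
              rw [mul_assoc, ← pow_add]; congr 2; ring) h
    have e1 : (a + f + 2) * (2 ^ (J + 2) - 3) + 2 * ((a + f + 2) * (2 * 2 ^ J)) =
        (a + f + 2) * (2 ^ (J + 1 + 2) - 3) := by
      have : 4 ≤ 2 ^ (J + 2) := by
        calc 4 = 2 ^ 2 := by norm_num
          _ ≤ 2 ^ (J + 2) := Nat.pow_le_pow_right (by norm_num) (by omega)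
      have e2 : 2 ^ (J + 2) = 4 * 2 ^ J := by rw [pow_add]; ring
      have e3 : 2 ^ (J + 1 + 2) = 8 * 2 ^ J := by rw [pow_add, pow_add]; ring
      obtain ⟨w, hw⟩ : ∃ w, 2 ^ (J + 2) = w + 3 := ⟨2 ^ (J + 2) - 3, by omega⟩
      have e4 : 2 ^ (J + 1 + 2) - 3 = w + 4 * 2 ^ J := by omega
      rw [e4, hw, Nat.add_sub_cancel]
      ring
    have e2 : 2 * 2 ^ J = 2 ^ (J + 1) := by rw [pow_succ']
    have e3 : 2 * J + 1 + 2 = 2 * (J + 1) + 1 := by ring
    rw [e1, e3] at h1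
    rw [e2] at h1
    exact ⟨_, _, _, h1⟩

end HadNT
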