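import Pool.Agent.Lib_MP_008adc_co.CovA

/-!
# Base with binary digits (same as in `OIter`, other names)
-/

set_option autoImplicit false

namespace HadCalc


/-- `y` is a sum of at most `N` lengths of structures with `2 ^ f` classes, dimension exponent `c` -/
def SLs (f c N y : ℕ) : Prop :=
  ∃ l : List ℕ, l.length ≤ N ∧ (∀ x ∈ l, Av f c x) ∧ l.sum = y

theorem SLs.one {f c y : ℕ} (h : Av f c y) : SLs f c 1 y :=
  ⟨[y], by simp, by simpa using h, by simp⟩

theorem SLs.add {f c M N x y : ℕ} (hx : SLs f c M x) (hy : SLs f c N y) : SLs f c (M + N) (x + y) := by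
  obtain ⟨l, h1, h2, h3⟩ := hx
  obtain ⟨m, h4, h5, h6⟩ := hy
  refine ⟨l ++ m, by rw [List.length_append]; omega, fun z hz => ?_, by rw [List.sum_append, h3, h6]⟩
  rcases List.mem_append.1 hz with h | h
  · exact h2 z h
  · exact h5 z h

theorem SLs.mono {f c M N y : ℕ} (h : SLs f c M y) (hMN : M ≤ N) : SLs f c N y := by
  obtain ⟨l, h1, h2, h3⟩ := h
  exact ⟨l, h1.trans hMN, h2, h3⟩

theorem SLs.av {f c N y : ℕ} (h : SLs f c N y) : Av (f + 1) (N * (c + f + 2)) (2 * y) := by
  obtain ⟨l, h1, h2, h3⟩ := h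
  have h4 := Av.sum_list (f := f) (l.map (fun x => ((c, x) : ℕ × ℕ))) (by
    intro x hx
    obtain ⟨y, hy, rfl⟩ := List.mem_map.1 hx
    exact h2 y hy)
  have e1 : ((l.map (fun x => ((c, x) : ℕ × ℕ))).map (fun x => x.1 + f + 2)).sum =
      l.length * (c + f + 2) := by
    rw [List.map_map]
    have : ((fun x : ℕ × ℕ => x.1 + f + 2) ∘ fun x => ((c, x) : ℕ × ℕ)) = fun _ => c + f + 2 := rfl
    rw [this, List.map_const', List.sum_replicate, smul_eq_mul]
  have e2 : ((l.map (fun x => ((c, x) : ℕ × ℕ))).map Prod.snd) = l := by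
    rw [List.map_map]
    have : (Prod.snd ∘ fun x => ((c, x) : ℕ × ℕ)) = id := rfl
    rw [this, List.map_id]
  rw [e1, e2, h3] at h4
  exact h4.mono le_rfl (Nat.mul_le_mul_right _ h1)

theorem Av12s_odd (n : ℕ) : Av 1 2 (2 ^ (2 * n + 1)) := by
  have h2 : Av 1 2 2 := by
    have h := Av.sum_list (f := 0) [((0, 1) : ℕ × ℕ)] (by
      intro x hx
      rw [List.mem_singleton.1 hx]
      exact Av.base)
    simpa using h
  have h3 := Av.prod_list (f := 1) (c := 2) (List.replicate (n + 1) 2) (by simp) (by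
    intro x hx
    rw [List.eq_of_mem_replicate hx]
    exact h2)
  rw [List.length_replicate, List.prod_replicate, ← pow_add] at h3
  have e1 : 1 * (n + 1 - 1) + (n + 1) = 2 * n + 1 := by omega
  rwa [e1] at h3

theorem SLs12 (a : ℕ) : SLs 1 2 2 (2 ^ a) := by
  rcases Nat.eq_zero_or_pos a with h0 | h0
  · subst h0
    exact (SLs.one (Av.base.mono (Nat.zero_le _) (Nat.zero_le _))).mono (by norm_num)
  · rcases Nat.even_or_odd' a with ⟨n, hn | hn⟩
    · have h1 := Av12s_odd (n - 1)
      have e1 : 2 * (n - 1) + 1 = a - 1 := by omega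
      rw [e1] at h1
      have e2 : 2 ^ a = 2 ^ (a - 1) + 2 ^ (a - 1) := by
        rw [← two_mul, ← pow_succ']
        congr 1
        omega
      rw [e2]
      exact (SLs.one h1).add (SLs.one h1)
    · rw [hn]
      exact (SLs.one (Av12s_odd n)).mono (by norm_num)

theorem SLs_bin (a : ℕ) : ∀ q < 2 ^ a, SLs 1 2 (2 * a) q := by
  induction a with
  | zero =>
    intro q hq
    have : q = 0 := by simpa using hq
    subst this
    exact ⟨[], by simp, by simp, by simp⟩
  | succ a ih =>
    intro q hq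
    have h1 := ih (q % 2 ^ a) (Nat.mod_lt _ (by positivity))
    have h2 : q / 2 ^ a < 2 := by
      rw [Nat.div_lt_iff_lt_mul (by positivity), ← pow_succ']
      exact hq
    have h3 : 2 ^ a * (q / 2 ^ a) + q % 2 ^ a = q := Nat.div_add_mod _ _
    rcases Nat.lt_or_ge (q / 2 ^ a) 1 with h4 | h4
    · have h5 : q / 2 ^ a = 0 := Nat.lt_one_iff.1 h4
      rw [h5, mul_zero, zero_add] at h3
      rw [h3] at h1
      exact h1.mono (by omega)
    · have h5 : q / 2 ^ a = 1 := le_antisymm (Nat.le_of_lt_succ h2) h4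
      rw [h5, mul_one] at h3
      have h6 := (SLs12 a).add h1
      rw [h3] at h6
      exact h6.mono (by omega)

/-- BASE: binary digits. -/
theorem Cov.baseS (a : ℕ) : Cov a 2 (10 * a) := by
  intro q hq
  have h := (SLs_bin a q hq).av
  have e1 : 2 * a * (2 + 1 + 2) = 10 * a := by ring
  rwa [e1] at h

theorem Cov.monoS {a a' f c c' : ℕ} (h : Cov a f c) (ha : a' ≤ a) (hc : c ≤ c') : Cov a' f c' :=
  fun q hq => (h q (lt_of_lt_of_le hq (Nat.pow_le_pow_right (by norm_num) ha))).mono le_rfl hc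

end HadCalc
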