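import Mathlib

/-!
# The statement of part (B): representation of all large numbers, all bits at once
-/

set_option autoImplicit false

namespace HadNT

/-- Every `z` with `2 ^ (C1 b) ≤ z < 2 ^ (2 ^ e)` is `ε + X_1 + ... + X_16 + 2 ^ R w` with `X_i`
products of `K` numbers smaller than `2 ^ b`, `K b ≤ 4 log z`, and `w < 2 ^ (C1 b)`. -/
def RepZ (Cb C1 : ℕ) : Prop := ∀ e b z : ℕ, Cb * (e + 1) ≤ b → 2 ^ (C1 * b) ≤ z →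
  z < 2 ^ (2 ^ e) → ∃ (K R w ε : ℕ) (X : Fin 16 → ℕ), ε ≤ 1 ∧ w < 2 ^ (C1 * b) ∧
    z = ε + ∑ i, X i + 2 ^ R * w ∧ K * b ≤ 4 * Nat.log 2 z ∧
    ∀ i, ∃ x : Fin K → ℕ, (∀ j, x j < 2 ^ b) ∧ X i = ∏ j, x j

end HadNT
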