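import Pool.Agent.Lib_MP_008adc_oct.OAtom
import Pool.Agent.Lib_MP_008adc_oct.ORep

/-!
# The giant step: a constant number of lengths
-/

set_option autoImplicit false

namespace HadCalc

open HadNT

/-- an atom -/
def At (f c v : ℕ) : Prop := Av f c (2 * v)

theorem prodA {f c κ m : ℕ} (h1 : At f c 1) (hm : m ≤ κ) (hκ : 1 ≤ κ) (x : Fin m → ℕ)
    (hx : ∀ j, At f c (x j)) : Av f c (2 ^ EE f κ * ∏ j, x j) := by
  have h2 := Av.prod_list (f := f) (c := c)
    ((List.ofFn fun j => 2 * x j) ++ List.replicate (κ - m) 2) (by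
    intro h0
    have := congrArg List.length h0
    rw [List.length_append, List.length_ofFn, List.length_replicate, List.length_nil] at this
    omega) (by
    intro y hy
    rcases List.mem_append.1 hy with h2 | h2
    · rw [List.mem_ofFn] at h2
      obtain ⟨j, rfl⟩ := h2
      exact hx j
    · rw [List.eq_of_mem_replicate h2]
      exact h1)
  have e1 : ((List.ofFn fun j => 2 * x j) ++ List.replicate (κ - m) 2).length = κ := by
    rw [List.length_append, List.length_ofFn, List.length_replicate]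
    omega
  have e2 : ((List.ofFn fun j => 2 * x j) ++ List.replicate (κ - m) 2).prod =
      2 ^ κ * ∏ j, x j := by
    rw [List.prod_append, List.prod_ofFn, List.prod_replicate, Finset.prod_mul_distrib,
      Finset.prod_const, Finset.card_univ, Fintype.card_fin]
    have : 2 ^ κ = 2 ^ m * 2 ^ (κ - m) := by
      rw [← pow_add]
      congr 1
      omega
    rw [this]
    ring
  rw [e1, e2] at h2
  have e3 : 2 ^ (f * (κ - 1)) * (2 ^ κ * ∏ j, x j) = 2 ^ EE f κ * ∏ j, x j := by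
    unfold EE
    rw [pow_add]
    ring
  rw [e3] at h2
  exact h2

/-- The atoms `2 ^ s P + 1`. -/
theorem at_plus {a a0 f c : ℕ} (h : Cov a0 f c) (ha : a + 1 ≤ a0) {k P : ℕ} (ha1 : 1 ≤ a)
    (hk : 1 ≤ k) (hP : P ∈ OU (2 ^ a) k) :
    At (f + 1) (c + 2 * f + 4) (2 ^ (f * (k - 1) + k) * P + 1) := by
  obtain ⟨x, hx, hxP⟩ := OU_prod ha1 hP
  have h1 := h.prodKO (by omega) (le_refl k) hk x
    (fun j => lt_of_lt_of_le (hx j).2 (Nat.pow_le_pow_right (by norm_num) (by omega)))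
  rw [← hxP] at h1
  have h2 := Av.sum_list (f := f) [(c, 2 ^ EE f k * P), (0, 1)] (by
    intro y hy
    simp only [List.mem_cons, List.not_mem_nil, or_false] at hy
    rcases hy with rfl | rfl
    · exact h1
    · exact Av.base.mono (Nat.zero_le _) le_rfl)
  simp only [List.map_cons, List.map_nil, List.sum_cons, List.sum_nil] at h2
  have e1 : c + f + 2 + (0 + f + 2 + 0) = c + 2 * f + 4 := by ring
  rw [e1, add_zero] at h2
  exact h2

theorem at_small {a0 f c v : ℕ} (h : Cov a0 f c) (hv : v < 2 ^ a0) :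
    At (f + 1) (c + 2 * f + 4) v := (h v hv).mono (by omega) (by omega)

/-- a power of two as a product of small numbers -/
theorem two_pow_prod {b n m : ℕ} (h : n ≤ m * b) : ∃ x : Fin m → ℕ, (∀ j, x j ≤ 2 ^ b) ∧
    2 ^ n = ∏ j, x j := by
  induction m generalizing n with
  | zero =>
    refine ⟨fun j => 1, fun j => j.elim0, ?_⟩
    rw [zero_mul] at h
    simp [Nat.le_zero.1 h]
  | succ m ih =>
    rcases le_or_gt n b with hn | hn
    · refine ⟨Fin.cons (2 ^ n) (fun _ => 1), fun j => ?_, ?_⟩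
      · refine Fin.cases ?_ (fun i => ?_) j
        · exact Nat.pow_le_pow_right (by norm_num) hn
        · exact Nat.one_le_two_pow
      · rw [Fin.prod_cons]
        simp
    · obtain ⟨x, hx1, hx2⟩ := ih (n := n - b) (by rw [Nat.succ_mul] at h; omega)
      refine ⟨Fin.cons (2 ^ b) x, fun j => ?_, ?_⟩
      · refine Fin.cases ?_ (fun i => ?_) j
        · exact le_refl _
        · exact hx1 i
      · rw [Fin.prod_cons, ← hx2, ← pow_add]
        congr 1
        omega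

/-- the second part: `2 ^ EE f κ z` for all `z`, `κ` large -/
theorem big_B {Cb C1 : ℕ} (HB : RepZ Cb C1) {a a0 e f c κ z n : ℕ} (h : Cov a0 f c)
    (ha : Cb * (e + 1) ≤ a) (ha0 : C1 * a ≤ a0) (haa : a + 1 ≤ a0)
    (hz : z < 2 ^ (2 ^ e)) (hn : z < 2 ^ (n + 1)) (hκ1 : 1 ≤ κ) (haf : 2 ≤ a)
    (hκ : 4 * n ≤ κ * a) (hκ2 : n + 2 * a ≤ κ * (a - 1)) :
    SumL (f + 1) (c + 2 * f + 4) 18 (2 ^ EE (f + 1) κ * z) := by
  have hsm : ∀ v < 2 ^ a0, At (f + 1) (c + 2 * f + 4) v := fun v hv => at_small h hv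
  have hone : At (f + 1) (c + 2 * f + 4) 1 := hsm 1 (Nat.one_lt_two_pow (by omega))
  have hlt : ∀ v ≤ 2 ^ a, At (f + 1) (c + 2 * f + 4) v := fun v hv => hsm v
    (lt_of_le_of_lt hv (Nat.pow_lt_pow_right (by norm_num) (by omega)))
  rcases lt_or_ge z (2 ^ (C1 * a)) with hzs | hzb
  · have h1 := prodA hone (κ := κ) (m := 1) hκ1 hκ1 (fun _ => z)
      (fun _ => hsm z (lt_of_lt_of_le hzs (Nat.pow_le_pow_right (by norm_num) ha0)))
    rw [Finset.prod_const, Finset.card_univ, Fintype.card_fin, pow_one] at h1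
    exact (SumL.one h1).mono (by omega)
  · obtain ⟨K, R, w, ε, X, hε, hw, hzz, hK, hX⟩ := HB e a z ha hzb hz
    have hz0 : z ≠ 0 := by
      have : 0 < 2 ^ (C1 * a) := by positivity
      omega
    have hlog : Nat.log 2 z ≤ n := by
      have := Nat.log_lt_of_lt_pow hz0 hn
      omega
    have hKκ : K ≤ κ := by
      have h1 : K * a ≤ κ * a := by omega
      exact Nat.le_of_mul_le_mul_right h1 (by omega)
    -- the unit
    have s1 : SumL (f + 1) (c + 2 * f + 4) 1 (2 ^ EE (f + 1) κ * ε) := by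
      apply SumL.one
      have hε' : ε = 0 ∨ ε = 1 := by omega
      rcases hε' with h5 | h5
      · rw [h5, mul_zero]
        exact Av.zero _ _
      · rw [h5]
        have := prodA hone (κ := κ) (m := 0) (by omega) hκ1 (fun _ => 1) (fun j => j.elim0)
        simpa using this
    have s2 : SumL (f + 1) (c + 2 * f + 4) 16 (2 ^ EE (f + 1) κ * ∑ i, X i) := by
      refine ⟨List.ofFn fun i => 2 ^ EE (f + 1) κ * X i, by rw [List.length_ofFn], ?_, ?_⟩
      · intro y hy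
        rw [List.mem_ofFn] at hy
        obtain ⟨i, rfl⟩ := hy
        obtain ⟨x, hx1, hx2⟩ := hX i
        rw [hx2]
        exact prodA hone hKκ hκ1 x fun j => hlt _ (hx1 j).le
      · rw [List.sum_ofFn, ← Finset.mul_sum]
    have s3 : SumL (f + 1) (c + 2 * f + 4) 1 (2 ^ EE (f + 1) κ * (2 ^ R * w)) := by
      apply SumL.one
      rcases Nat.eq_zero_or_pos w with h0 | h0
      · rw [h0, mul_zero, mul_zero]
        exact Av.zero _ _
      · have hR : R ≤ n := by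
          have h1 : 2 ^ R ≤ z := by
            rw [hzz]
            have : 2 ^ R * 1 ≤ 2 ^ R * w := Nat.mul_le_mul_left _ h0
            omega
          have h2 : 2 ^ R < 2 ^ (n + 1) := lt_of_le_of_lt h1 hn
          have := (Nat.pow_lt_pow_iff_right (by norm_num : 1 < 2)).1 h2
          omega
        obtain ⟨m, hm⟩ : ∃ m, κ = m + 1 := ⟨κ - 1, by omega⟩
        have hRm : R ≤ m * (a - 1) := by
          have h3 : κ * (a - 1) = m * (a - 1) + (a - 1) := by rw [hm]; ring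
          obtain ⟨M, hM⟩ : ∃ M, M = m * (a - 1) := ⟨_, rfl⟩
          rw [h3, ← hM] at hκ2
          rw [← hM]
          omega
        obtain ⟨x, hx1, hx2⟩ := two_pow_prod hRm
        have h3 := prodA hone (κ := κ) (m := m + 1) (by omega) hκ1 (Fin.cons w x) (fun j => by
          refine Fin.cases ?_ (fun i => ?_) j
          · exact hsm w (lt_of_lt_of_le hw (Nat.pow_le_pow_right (by norm_num) ha0))
          · exact hlt _ ((hx1 i).trans (Nat.pow_le_pow_right (by norm_num) (by omega))))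
        rw [Fin.prod_cons, ← hx2, mul_comm w] at h3
        exact h3
    have hsum := (s1.add s2).add s3
    have e1 : 2 ^ EE (f + 1) κ * ε + 2 ^ EE (f + 1) κ * ∑ i, X i +
        2 ^ EE (f + 1) κ * (2 ^ R * w) = 2 ^ EE (f + 1) κ * z := by
      conv_rhs => rw [hzz]
      ring
    rw [e1] at hsum
    exact hsum

/-- the first part: all `2 ^ EE f κ₀ z` -/
theorem big_A {Cb C1 : ℕ} (HB : RepZ Cb C1) {a a0 e f c l z : ℕ} (h : Cov a0 f c)
    (ha : Cb * (e + 1) ≤ a) (ha0 : C1 * a ≤ a0) (ha4 : 4 * (a + f + 2) + 8 ≤ a0)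
    (hal : 8 * (l + f + 2) + 8 ≤ a) (hl : 4 * a * 2 ^ e ≤ 2 ^ l) (haf : 128 * (f + 3) ≤ a)
    (hz : z < 2 ^ (2 ^ e)) :
    SumL (f + 1) (c + 2 * f + 4) 27 (2 ^ EE (f + 1) (2 * e + 1) * z) := by
  have hsm : ∀ v < 2 ^ a0, At (f + 1) (c + 2 * f + 4) v := fun v hv => at_small h hv
  have hone : At (f + 1) (c + 2 * f + 4) 1 := hsm 1 (Nat.one_lt_two_pow (by omega))
  obtain ⟨b', hb'⟩ : ∃ b', b' = a + f + 2 := ⟨_, rfl⟩
  rcases lt_or_ge z (2 ^ (4 * b' + 5)) with hzs | hzb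
  · have h1 := prodA hone (κ := 2 * e + 1) (m := 1) (by omega) (by omega) (fun _ => z)
      (fun _ => hsm z (lt_of_lt_of_le hzs (Nat.pow_le_pow_right (by norm_num) (by omega))))
    rw [Finset.prod_const, Finset.card_univ, Fintype.card_fin, pow_one] at h1
    exact (SumL.one h1).mono (by omega)
  · have hz0 : z ≠ 0 := by
      have : 0 < 2 ^ (4 * b' + 5) := by positivity
      omega
    obtain ⟨n, hn⟩ : ∃ n, n = Nat.log 2 z := ⟨_, rfl⟩
    have hnz : 2 ^ n ≤ z := by rw [hn]; exact Nat.pow_log_le_self 2 hz0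
    have hzn : z < 2 ^ (n + 1) := by rw [hn]; exact Nat.lt_pow_succ_log_self (by norm_num) z
    have hn4 : 4 * b' + 5 ≤ n := by rw [hn]; exact Nat.le_log_of_pow_le (by norm_num) hzb
    have hne : n < 2 ^ e := by
      have h1 : 2 ^ n < 2 ^ (2 ^ e) := lt_of_le_of_lt hnz hz
      exact (Nat.pow_lt_pow_iff_right (by norm_num : 1 < 2)).1 h1
    obtain ⟨J, hJ⟩ : ∃ J, J = Nat.log 2 ((n - 5) / (4 * b')) := ⟨_, rfl⟩
    have hq1 : 1 ≤ (n - 5) / (4 * b') := by
      rw [Nat.le_div_iff_mul_le (by omega)]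
      omega
    have hJ1 : 4 * b' * 2 ^ J ≤ n - 5 := by
      have h1 : 2 ^ J ≤ (n - 5) / (4 * b') := by
        rw [hJ]; exact Nat.pow_log_le_self 2 (by omega)
      have h2 := (Nat.le_div_iff_mul_le (by omega)).1 h1
      rw [mul_comm]
      exact h2
    have hJ2 : n - 5 < 8 * (b' * 2 ^ J) := by
      have h1 : (n - 5) / (4 * b') < 2 ^ (J + 1) := by
        rw [hJ]; exact Nat.lt_pow_succ_log_self (by norm_num) _
      have h2 := (Nat.div_lt_iff_lt_mul (by omega)).1 h1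
      calc n - 5 < 2 ^ (J + 1) * (4 * b') := h2
        _ = 8 * (b' * 2 ^ J) := by rw [pow_succ]; ring
    have hJe : J ≤ e := by
      by_contra hcon
      have h1 : 2 ^ e ≤ 2 ^ J := Nat.pow_le_pow_right (by norm_num) (by omega)
      have h2 : 1 * 2 ^ J ≤ 4 * b' * 2 ^ J := Nat.mul_le_mul_right _ (by omega)
      omega
    have hlJ : 4 * a * 2 ^ J ≤ 2 ^ l :=
      (Nat.mul_le_mul_left _ (Nat.pow_le_pow_right (by norm_num) hJe)).trans hl
    obtain ⟨τ, T, g, H⟩ := famA_exists (A := At (f + 1) (c + 2 * f + 4)) (a := a) (f := f) (l := l)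
      hal (fun v hv => hsm v (lt_of_lt_of_le hv (Nat.pow_le_pow_right (by norm_num) (by omega))))
      (fun k hk P hP => at_plus h (by omega) (by omega) hk hP) J hlJ
    rw [← hb'] at H
    obtain ⟨ρ, hρ⟩ : ∃ ρ, ρ = b' * 2 ^ J / (f + 1 + 1) := ⟨_, rfl⟩
    have hR : (f + 1 + 1) * ρ ≤ b' * 2 ^ J := by rw [hρ]; exact Nat.mul_div_le _ _
    have hR2 : b' * 2 ^ J < (f + 1 + 1) * (ρ + 1) := by
      have h1 := Nat.div_add_mod (b' * 2 ^ J) (f + 1 + 1)
      have h2 := Nat.mod_lt (b' * 2 ^ J) (Nat.succ_pos (f + 1))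
      rw [← hρ] at h1
      have h3 : b' * 2 ^ J % (f + 1 + 1) < f + 1 + 1 := h2
      calc b' * 2 ^ J = (f + 1 + 1) * ρ + b' * 2 ^ J % (f + 1 + 1) := h1.symm
        _ < (f + 1 + 1) * ρ + (f + 1 + 1) := by omega
        _ = (f + 1 + 1) * (ρ + 1) := by ring
    obtain ⟨N, hN⟩ : ∃ N, N = z - z % 2 := ⟨_, rfl⟩
    have hN2 : N % 2 = 0 := by omega
    obtain ⟨x, hxT, hx⟩ := octA_cover H (by omega) hR N hN2
    have hg : ∀ i, g (x i) ≤ 2 ^ (b' * (2 ^ (J + 2) - 3)) := fun i => H.size _ (hxT i)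
    have hsum : ∑ i, g (x i) ≤ N := by
      have h5 : ∑ i, g (x i) ≤ 8 * 2 ^ (b' * (2 ^ (J + 2) - 3)) := by
        calc ∑ i, g (x i) ≤ ∑ _i : Fin 8, 2 ^ (b' * (2 ^ (J + 2) - 3)) :=
              Finset.sum_le_sum fun i _ => hg i
          _ = 8 * 2 ^ (b' * (2 ^ (J + 2) - 3)) := by
              rw [Finset.sum_const, Finset.card_univ, Fintype.card_fin, smul_eq_mul]
      have h6 : 16 * 2 ^ (b' * (2 ^ (J + 2) - 3)) ≤ z := by
        refine le_trans ?_ hnz
        have e1 : 4 + b' * (2 ^ (J + 2) - 3) ≤ n := by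
          have h7 : b' * (2 ^ (J + 2) - 3) ≤ b' * 2 ^ (J + 2) :=
            Nat.mul_le_mul_left _ (Nat.sub_le _ _)
          have h8 : b' * 2 ^ (J + 2) = 4 * b' * 2 ^ J := by rw [pow_add]; ring
          omega
        calc 16 * 2 ^ (b' * (2 ^ (J + 2) - 3)) = 2 ^ (4 + b' * (2 ^ (J + 2) - 3)) := by
              rw [pow_add 2 4]; norm_num
          _ ≤ 2 ^ n := Nat.pow_le_pow_right (by norm_num) e1
      have h7 : 0 < 2 ^ (b' * (2 ^ (J + 2) - 3)) := by positivity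
      omega
    have hmod : ∑ i, g (x i) ≡ N [MOD 2 ^ ((f + 1 + 1) * ρ)] :=
      (ZMod.natCast_eq_natCast_iff _ _ _).1 hx
    obtain ⟨z', hz'⟩ := (Nat.modEq_iff_dvd' hsum).1 hmod
    have hzz : z = z % 2 + (∑ i, g (x i) + 2 ^ ((f + 1 + 1) * ρ) * z') := by omega
    have hz'z : z' ≤ z := by
      have : 1 * z' ≤ 2 ^ ((f + 1 + 1) * ρ) * z' := Nat.mul_le_mul_right _ Nat.one_le_two_pow
      omega
    have s1 : SumL (f + 1) (c + 2 * f + 4) 1 (2 ^ EE (f + 1) (2 * e + 1) * (z % 2)) := by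
      apply SumL.one
      rcases Nat.mod_two_eq_zero_or_one z with h5 | h5
      · rw [h5, mul_zero]
        exact Av.zero _ _
      · rw [h5]
        have := prodA hone (κ := 2 * e + 1) (m := 0) (by omega) (by omega) (fun _ => 1)
          (fun j => j.elim0)
        simpa using this
    have s2 : SumL (f + 1) (c + 2 * f + 4) 8 (2 ^ EE (f + 1) (2 * e + 1) * ∑ i, g (x i)) := by
      refine ⟨List.ofFn fun i => 2 ^ EE (f + 1) (2 * e + 1) * g (x i), by rw [List.length_ofFn],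
        ?_, ?_⟩
      · intro y hy
        rw [List.mem_ofFn] at hy
        obtain ⟨i, rfl⟩ := hy
        obtain ⟨y, hy1, hy2⟩ := H.prod (x i) (hxT i)
        rw [hy2]
        exact prodA hone (by omega) (by omega) y hy1
      · rw [List.sum_ofFn, ← Finset.mul_sum]
    -- the rest
    have hρn : n - 5 < 8 * ((f + 2) * (ρ + 1)) := by
      calc n - 5 < 8 * (b' * 2 ^ J) := hJ2
        _ ≤ 8 * ((f + 2) * (ρ + 1)) := by
            have : b' * 2 ^ J ≤ (f + 2) * (ρ + 1) := hR2.le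
            omega
    have hκa : 4 * n ≤ (2 * e + 1 + ρ) * a := by
      have h1 : (ρ + 1) * (128 * (f + 3)) ≤ (2 * e + 1 + ρ) * a :=
        Nat.mul_le_mul (by omega) haf
      have h2 : 8 * ((f + 2) * (ρ + 1)) * 16 ≤ (ρ + 1) * (128 * (f + 3)) := by
        nlinarith [Nat.zero_le ρ, Nat.zero_le f]
      omega
    have hκa2 : n + 2 * a ≤ (2 * e + 1 + ρ) * (a - 1) := by
      have h1 : (ρ + 1) * (a - 1) ≤ (2 * e + 1 + ρ) * (a - 1) :=
        Nat.mul_le_mul_right _ (by omega)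
      have h3 : 64 * (f + 2) ≤ a - 1 := by omega
      have h4 : (ρ + 1) * (64 * (f + 2)) ≤ (ρ + 1) * (a - 1) := Nat.mul_le_mul_left _ h3
      have h5 : (ρ + 1) * (64 * (f + 2)) = 8 * (8 * ((f + 2) * (ρ + 1))) := by ring
      omega
    have s3 := big_B HB (κ := 2 * e + 1 + ρ) (n := n) h ha ha0 (by omega)
      (lt_of_le_of_lt hz'z hz) (lt_of_le_of_lt hz'z hzn) (by omega) (by omega) hκa hκa2
    rw [EE_add (by omega), pow_add] at s3
    have hs := (s1.add s2).add s3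
    have e1 : 2 ^ EE (f + 1) (2 * e + 1) * (z % 2) + 2 ^ EE (f + 1) (2 * e + 1) * ∑ i, g (x i) +
        2 ^ EE (f + 1) (2 * e + 1) * 2 ^ ((f + 1 + 1) * ρ) * z' =
        2 ^ EE (f + 1) (2 * e + 1) * z := by
      conv_rhs => rw [hzz]
      ring
    rw [e1] at hs
    exact hs

/-- THE GIANT STEP. -/
theorem Cov.giant' {Cb C1 : ℕ} (HB : RepZ Cb C1) {a a0 e f c l : ℕ} (h : Cov a0 f c)
    (ha : Cb * (e + 1) ≤ a) (ha0 : C1 * a ≤ a0) (ha4 : 4 * (a + f + 2) + 8 ≤ a0)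
    (hal : 8 * (l + f + 2) + 8 ≤ a) (hl : 4 * a * 2 ^ e ≤ 2 ^ l) (haf : 128 * (f + 3) ≤ a)
    (hw : (2 * f + 4) * (e + 1) ≤ a0) :
    Cov (2 ^ e) (f + 2) (29 * (c + 3 * f + 7)) := by
  intro q hq
  have hE : EE (f + 1) (2 * e + 1) ≤ a0 := by
    refine le_trans ?_ hw
    unfold EE
    rw [Nat.add_sub_cancel]
    nlinarith
  have h1 := big_A HB h ha ha0 ha4 hal hl haf (z := q / 2 ^ EE (f + 1) (2 * e + 1))
    (lt_of_le_of_lt (Nat.div_le_self _ _) hq)
  have h2 : SumL (f + 1) (c + 2 * f + 4) 1 (2 * (q % 2 ^ EE (f + 1) (2 * e + 1) / 2)) := by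
    apply SumL.one
    refine at_small h ?_
    have h3 : q % 2 ^ EE (f + 1) (2 * e + 1) < 2 ^ EE (f + 1) (2 * e + 1) :=
      Nat.mod_lt _ (by positivity)
    have h4 : 2 ^ EE (f + 1) (2 * e + 1) ≤ 2 ^ a0 := Nat.pow_le_pow_right (by norm_num) hE
    omega
  have h3 : SumL (f + 1) (c + 2 * f + 4) 1 (q % 2 ^ EE (f + 1) (2 * e + 1) % 2) := by
    apply SumL.one
    rcases Nat.mod_two_eq_zero_or_one (q % 2 ^ EE (f + 1) (2 * e + 1)) with h4 | h4
    · rw [h4]
      exact Av.zero _ _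
    · rw [h4]
      exact Av.base.mono (Nat.zero_le _) (Nat.zero_le _)
  have h4 := (h1.add h2).add h3
  have e1 : 2 ^ EE (f + 1) (2 * e + 1) * (q / 2 ^ EE (f + 1) (2 * e + 1)) +
      2 * (q % 2 ^ EE (f + 1) (2 * e + 1) / 2) + q % 2 ^ EE (f + 1) (2 * e + 1) % 2 = q := by
    have h5 := Nat.div_add_mod q (2 ^ EE (f + 1) (2 * e + 1))
    omega
  rw [e1] at h4
  have h5 := h4.av
  refine h5.mono (by omega) (le_of_eq ?_)
  ring

theorem two_pow_big (f Cb : ℕ) : 4096 * (f + 1) + Cb ≤ 2 ^ (f + 12 + Cb) := by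
  have h2 : f + 1 ≤ 2 ^ f := Nat.lt_two_pow_self
  have h3 : Cb + 1 ≤ 2 ^ Cb := Nat.lt_two_pow_self
  have h4 : 2 ^ (f + 12 + Cb) = 4096 * (2 ^ f * 2 ^ Cb) := by
    rw [pow_add, pow_add]; ring
  rw [h4]
  have h5 : (f + 1) * (Cb + 1) ≤ 2 ^ f * 2 ^ Cb := Nat.mul_le_mul h2 h3
  nlinarith [Nat.zero_le (f * Cb)]

/-- The giant step, with a constant depending on `f` only. -/
theorem Cov.giant {Cb C1 : ℕ} (HB : RepZ Cb C1) (f : ℕ) : ∃ C0 : ℕ, ∀ e c : ℕ,
    Cov (C0 * (e + 1)) f c → Cov (2 ^ e) (f + 2) (29 * (c + 3 * f + 7)) := by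
  obtain ⟨L, hL⟩ : ∃ L, L = f + 12 + Cb := ⟨_, rfl⟩
  obtain ⟨A, hA⟩ : ∃ A, A = 2 ^ L := ⟨_, rfl⟩
  have hA1 : 4096 * (f + 1) + Cb ≤ A := by
    rw [hA, hL]
    exact two_pow_big f Cb
  have hA2 : 64 * L ≤ A := by
    have h1 : 2 ^ L = 2 ^ (f + Cb) * 4096 := by
      rw [hL, show f + 12 + Cb = f + Cb + 12 by ring, pow_add]; norm_num
    have h2 : f + Cb + 1 ≤ 2 ^ (f + Cb) := Nat.lt_two_pow_self
    rw [hA, h1]
    omega
  refine ⟨(C1 + 8) * A, fun e c h => ?_⟩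
  have he : e + 1 ≤ 2 ^ e := Nat.lt_two_pow_self
  have hAe : A * 1 ≤ A * (e + 1) := Nat.mul_le_mul_left _ (by omega)
  have hae : 4096 * (e + 1) ≤ A * (e + 1) := Nat.mul_le_mul_right _ (by omega)
  have hLe : 64 * L ≤ A * (e + 1) := by omega
  refine Cov.giant' HB (a := A * (e + 1)) (l := 2 * e + L + 2) h ?_ ?_ ?_ ?_ ?_ ?_ ?_
  · exact Nat.mul_le_mul_right _ (by omega)
  · calc C1 * (A * (e + 1)) ≤ (C1 + 8) * (A * (e + 1)) := Nat.mul_le_mul_right _ (by omega)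
      _ = (C1 + 8) * A * (e + 1) := by ring
  · have h1 : 8 * (A * (e + 1)) ≤ (C1 + 8) * A * (e + 1) := by
      calc 8 * (A * (e + 1)) ≤ (C1 + 8) * (A * (e + 1)) := Nat.mul_le_mul_right _ (by omega)
        _ = (C1 + 8) * A * (e + 1) := by ring
    omega
  · omega
  · calc 4 * (A * (e + 1)) * 2 ^ e ≤ 4 * (A * 2 ^ e) * 2 ^ e :=
          Nat.mul_le_mul_right _ (Nat.mul_le_mul_left _ (Nat.mul_le_mul_left _ he))
      _ = 2 ^ (2 * e + L + 2) := by
          rw [hA, pow_add, pow_add, two_mul, pow_add]; ring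
  · omega
  · have h1 : 8 * (A * (e + 1)) ≤ (C1 + 8) * A * (e + 1) := by
      calc 8 * (A * (e + 1)) ≤ (C1 + 8) * (A * (e + 1)) := Nat.mul_le_mul_right _ (by omega)
        _ = (C1 + 8) * A * (e + 1) := by ring
    have h2 : (2 * f + 4) * (e + 1) ≤ A * (e + 1) := Nat.mul_le_mul_right _ (by omega)
    omega

end HadCalc
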