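import Pool.Agent.Lib_MP_008adc_oct.OSet
import Pool.Agent.Lib_MP_008adc_co.NBil

/-!
# Exponential sums over products of small primes, modulus a power of two
-/

set_option autoImplicit false

namespace HadNT

/-- a family of odd numbers, products of `m` numbers smaller than `2 ^ b`, whose exponential sums
at the frequencies of order `2 ^ i`, `2 ≤ i ≤ n`, are small, and zero for `i ≤ b` -/
structure Fam (b m n : ℕ) (τ : Type) (T : Finset τ) (g : τ → ℕ) : Prop where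
  ne : T.Nonempty
  odd : ∀ t ∈ T, g t % 2 = 1
  prod : ∀ t ∈ T, ∃ x : Fin m → ℕ, (∀ j, 1 ≤ x j ∧ x j < 2 ^ b) ∧ g t = ∏ j, x j
  zero : ∀ R i, ∀ h : ZMod (2 ^ R), addOrderOf h = 2 ^ i → 2 ≤ i → i ≤ b →
    Sg (2 ^ R) T (fun t => (g t : ZMod (2 ^ R))) h = 0
  small : ∀ R i, ∀ h : ZMod (2 ^ R), addOrderOf h = 2 ^ i → 2 ≤ i → i ≤ n →
    ‖Sg (2 ^ R) T (fun t => (g t : ZMod (2 ^ R))) h‖ * 2 ^ (i / 4) ≤ T.card

theorem order_mul_odd {R : ℕ} (h : ZMod (2 ^ R)) {i m : ℕ} (hi : addOrderOf h = 2 ^ i)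
    (hm : m % 2 = 1) : addOrderOf (h * (m : ZMod (2 ^ R))) = 2 ^ i := by
  have h1 : h * (m : ZMod (2 ^ R)) = m • h := by rw [nsmul_eq_mul, mul_comm]
  rw [h1, Nat.Coprime.addOrderOf_nsmul, hi]
  rw [hi]
  apply Nat.Coprime.pow_left
  rw [Nat.coprime_two_left, Nat.odd_iff]
  exact hm

theorem fam_base {b : ℕ} (hb : 1 ≤ b) : Fam b 1 b ℕ (Finset.range (2 ^ (b - 1)))
    (fun y => 2 * y + 1) := by
  have hz : ∀ R i, ∀ h : ZMod (2 ^ R), addOrderOf h = 2 ^ i → 2 ≤ i → i ≤ b →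
    Sg (2 ^ R) (Finset.range (2 ^ (b - 1))) (fun t => ((2 * t + 1 : ℕ) : ZMod (2 ^ R))) h = 0 := by
    intro R i h hi h2 hib
    unfold Sg
    have h1 : ∀ y : ℕ, (ZMod.stdAddChar (h * ((2 * y + 1 : ℕ) : ZMod (2 ^ R))) : ℂ) =
        ZMod.stdAddChar h * (ZMod.stdAddChar (2 * h) : ℂ) ^ y := by
      intro y
      rw [← AddChar.map_nsmul_eq_pow, ← AddChar.map_add_eq_mul]
      congr 1
      rw [nsmul_eq_mul]
      push_cast
      ring
    simp only [h1]
    rw [← Finset.mul_sum]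
    have h3 : (ZMod.stdAddChar (2 * h) : ℂ) ≠ 1 := by
      intro h4
      have h5 : (2 : ZMod (2 ^ R)) * h = 0 := by
        apply ZMod.injective_stdAddChar (N := 2 ^ R)
        rw [h4, AddChar.map_zero_eq_one]
      have h6 : 2 • h = 0 := by rw [nsmul_eq_mul]; exact_mod_cast h5
      have h7 := addOrderOf_dvd_of_nsmul_eq_zero h6
      rw [hi] at h7
      have h8 := Nat.le_of_dvd (by norm_num) h7
      have h9 : 2 ^ 2 ≤ 2 ^ i := Nat.pow_le_pow_right (by norm_num) h2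
      omega
    have h4 : (ZMod.stdAddChar (2 * h) : ℂ) ^ (2 ^ (b - 1)) = 1 := by
      rw [← AddChar.map_nsmul_eq_pow]
      have h5 : 2 ^ (b - 1) • (2 * h) = 0 := by
        have h6 : 2 ^ (b - 1) • (2 * h) = 2 ^ b • h := by
          rw [nsmul_eq_mul, nsmul_eq_mul, ← mul_assoc]
          congr 1
          rw [show b = b - 1 + 1 by omega, pow_succ]
          push_cast
          simp
        rw [h6]
        apply addOrderOf_dvd_iff_nsmul_eq_zero.1
        rw [hi]
        exact pow_dvd_pow 2 hib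
      rw [h5, AddChar.map_zero_eq_one]
    have h5 := geom_sum_eq h3 (2 ^ (b - 1))
    rw [h5, h4, sub_self, zero_div, mul_zero]
  refine ⟨⟨0, Finset.mem_range.2 (by positivity)⟩, fun t _ => ?_, fun t ht => ?_, hz, ?_⟩
  · show (2 * t + 1) % 2 = 1
    omega
  · refine ⟨fun _ => 2 * t + 1, fun _ => ⟨Nat.le_add_left 1 _, ?_⟩, by simp⟩
    show 2 * t + 1 < 2 ^ b
    have h1 := Finset.mem_range.1 ht
    have h2 : 2 ^ b = 2 * 2 ^ (b - 1) := by
      rw [← pow_succ']
      congr 1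
      omega
    omega
  · intro R i h hi h2 hib
    rw [hz R i h hi h2 hib, norm_zero, zero_mul]
    exact Nat.cast_nonneg _

/-- the arithmetic of the exponents -/
theorem exp_arith {b l K i : ℕ} (hb : 8 * l + 8 ≤ b) (hK : 1 ≤ K) (h1 : b * K < i)
    (h2 : i ≤ b * (2 * K)) :
    2 + (b * (2 * K) - i) * 2 + i + (i / 4) * 2 + (l * (2 * K)) * 2 ≤ (b * (2 * K)) * 2 := by
  have h3 : 8 * (l * K) + 8 * K ≤ b * K := by
    calc 8 * (l * K) + 8 * K = (8 * l + 8) * K := by ring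
      _ ≤ b * K := Nat.mul_le_mul_right K hb
  have h4 : b * (2 * K) = 2 * (b * K) := by ring
  have h5 : l * (2 * K) = 2 * (l * K) := by ring
  rw [h4] at h2 ⊢
  rw [h5]
  omega

theorem fam_step {b l m K : ℕ} (hb : 8 * l + 8 ≤ b) (hK : 1 ≤ K)
    (hl : 4 * b * (2 * K) ≤ 2 ^ l) {τ : Type} {T : Finset τ} {g : τ → ℕ}
    (h : Fam b m (b * K) τ T g) :
    Fam b (m + (2 * K + 2 * K)) (b * (2 * K)) (τ × (ℕ × ℕ))
      (T ×ˢ (OU (2 ^ b) (2 * K) ×ˢ OU (2 ^ b) (2 * K))) (fun x => g x.1 * (x.2.1 * x.2.2)) := by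
  set U := OU (2 ^ b) (2 * K) with hU
  have hden := OU_density (b := b) (k := 2 * K) (l := l) (by omega) (by omega) hl (by omega)
  rw [← hU] at hden
  have hUc : 0 < U.card := by
    by_contra h0
    have h1 : U.card = 0 := by omega
    rw [h1, zero_mul] at hden
    have : 0 < 2 ^ (b * (2 * K)) := by positivity
    omega
  have hUne : U.Nonempty := Finset.card_pos.1 hUc
  have hodd : ∀ u ∈ U, u % 2 = 1 := fun u hu => OU_odd hu
  have hoddm : ∀ u ∈ U, ∀ v ∈ U, (u * v) % 2 = 1 := by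
    intro u hu v hv
    rw [Nat.mul_mod, hodd u hu, hodd v hv]
  -- the sums in the order: first over the old family
  have hS1 : ∀ R, ∀ f : ZMod (2 ^ R), Sg (2 ^ R) (T ×ˢ (U ×ˢ U))
      (fun x => ((g x.1 * (x.2.1 * x.2.2) : ℕ) : ZMod (2 ^ R))) f =
      ∑ y ∈ U ×ˢ U, Sg (2 ^ R) T (fun t => (g t : ZMod (2 ^ R)))
        (f * ((y.1 * y.2 : ℕ) : ZMod (2 ^ R))) := by
    intro R f
    unfold Sg
    rw [Finset.sum_product_right]
    refine Finset.sum_congr rfl fun y _ => Finset.sum_congr rfl fun t _ => ?_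
    congr 1
    push_cast
    ring
  have hS2 : ∀ R, ∀ f : ZMod (2 ^ R), Sg (2 ^ R) (T ×ˢ (U ×ˢ U))
      (fun x => ((g x.1 * (x.2.1 * x.2.2) : ℕ) : ZMod (2 ^ R))) f =
      ∑ t ∈ T, Sg (2 ^ R) (U ×ˢ U) (fun y => ((y.1 * y.2 : ℕ) : ZMod (2 ^ R)))
        (f * (g t : ZMod (2 ^ R))) := by
    intro R f
    unfold Sg
    rw [Finset.sum_product]
    refine Finset.sum_congr rfl fun t _ => Finset.sum_congr rfl fun y _ => ?_
    congr 1
    push_cast
    ring
  refine ⟨h.ne.product (hUne.product hUne), ?_, ?_, ?_, ?_⟩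
  · rintro ⟨t, u, v⟩ hx
    rw [Finset.mem_product, Finset.mem_product] at hx
    show (g t * (u * v)) % 2 = 1
    rw [Nat.mul_mod, h.odd t hx.1, hoddm u hx.2.1 v hx.2.2]
  · rintro ⟨t, u, v⟩ hx
    rw [Finset.mem_product, Finset.mem_product] at hx
    obtain ⟨x, hx1, hx2⟩ := h.prod t hx.1
    obtain ⟨y, hy1, hy2⟩ := OU_prod (by omega) hx.2.1
    obtain ⟨z, hz1, hz2⟩ := OU_prod (by omega) hx.2.2
    refine ⟨Fin.append x (Fin.append y z), fun j => ?_, ?_⟩
    · refine Fin.addCases (fun i => ?_) (fun i => ?_) j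
      · rw [Fin.append_left]
        exact hx1 i
      · rw [Fin.append_right]
        refine Fin.addCases (fun i => ?_) (fun i => ?_) i
        · rw [Fin.append_left]
          exact hy1 i
        · rw [Fin.append_right]
          exact hz1 i
    · show g t * (u * v) = _
      dsimp only at hy2 hz2
      rw [Fin.prod_univ_add, Fin.prod_univ_add, hx2, hy2, hz2]
      simp only [Fin.append_left, Fin.append_right]
  · intro R i f hi h2 hib
    rw [hS1]
    refine Finset.sum_eq_zero fun y hy => ?_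
    rw [Finset.mem_product] at hy
    exact h.zero R i _ (order_mul_odd f hi (hoddm _ hy.1 _ hy.2)) h2 hib
  · intro R i f hi h2 hin
    have hcard : ((T ×ˢ (U ×ˢ U)).card : ℝ) = T.card * ((U.card : ℝ) * U.card) := by
      rw [Finset.card_product, Finset.card_product]
      push_cast
      ring
    rw [hcard]
    rcases le_or_gt i (b * K) with hiK | hiK
    · rw [hS1]
      calc ‖∑ y ∈ U ×ˢ U, Sg (2 ^ R) T (fun t => (g t : ZMod (2 ^ R)))
            (f * ((y.1 * y.2 : ℕ) : ZMod (2 ^ R)))‖ * 2 ^ (i / 4)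
          ≤ (∑ y ∈ U ×ˢ U, ‖Sg (2 ^ R) T (fun t => (g t : ZMod (2 ^ R)))
            (f * ((y.1 * y.2 : ℕ) : ZMod (2 ^ R)))‖) * 2 ^ (i / 4) :=
            mul_le_mul_of_nonneg_right (norm_sum_le _ _) (by positivity)
        _ = ∑ y ∈ U ×ˢ U, ‖Sg (2 ^ R) T (fun t => (g t : ZMod (2 ^ R)))
            (f * ((y.1 * y.2 : ℕ) : ZMod (2 ^ R)))‖ * 2 ^ (i / 4) := Finset.sum_mul _ _ _
        _ ≤ ∑ y ∈ U ×ˢ U, (T.card : ℝ) := by
            refine Finset.sum_le_sum fun y hy => ?_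
            rw [Finset.mem_product] at hy
            exact h.small R i _ (order_mul_odd f hi (hoddm _ hy.1 _ hy.2)) h2 hiK
        _ = T.card * ((U.card : ℝ) * U.card) := by
            rw [Finset.sum_const, Finset.card_product, nsmul_eq_mul]
            push_cast
            ring
    · -- the bilinear bound
      have hbil : ∀ t ∈ T, ‖Sg (2 ^ R) (U ×ˢ U) (fun y => ((y.1 * y.2 : ℕ) : ZMod (2 ^ R)))
          (f * (g t : ZMod (2 ^ R)))‖ * 2 ^ (i / 4) ≤ (U.card : ℝ) * U.card := by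
        intro t ht
        have ho := order_mul_odd f hi (h.odd t ht)
        have h3 := bil (2 ^ R) (f * (g t : ZMod (2 ^ R))) U U (2 ^ (b * (2 * K)))
          (fun u hu => by
            have := OU_bound hu
            rw [← pow_mul] at this
            exact this)
          (fun u hu => by
            have := OU_bound hu
            rw [← pow_mul] at this
            exact this)
        rw [ho] at h3
        have h4 : 2 ^ (b * (2 * K)) / 2 ^ i = 2 ^ (b * (2 * K) - i) :=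
          Nat.pow_div hin (by norm_num)
        rw [h4] at h3
        set N := ‖Sg (2 ^ R) (U ×ˢ U) (fun y => ((y.1 * y.2 : ℕ) : ZMod (2 ^ R)))
          (f * (g t : ZMod (2 ^ R)))‖ with hN
        have hN0 : 0 ≤ N := norm_nonneg _
        have h5 : ((2 ^ (b * (2 * K) - i) + 1 : ℕ) : ℝ) ≤ 2 * 2 ^ (b * (2 * K) - i) := by
          push_cast
          have : (1 : ℝ) ≤ 2 ^ (b * (2 * K) - i) := one_le_pow₀ (by norm_num)
          linarith
        have h6 : N ^ 2 ≤ (U.card : ℝ) * U.card * 2 ^ i * (2 * 2 ^ (b * (2 * K) - i)) ^ 2 := by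
          refine h3.trans ?_
          push_cast
          push_cast at h5
          gcongr
        have h7 : (2 : ℝ) ^ i * (2 * 2 ^ (b * (2 * K) - i)) ^ 2 * (2 ^ (i / 4)) ^ 2 ≤
            (U.card : ℝ) * U.card := by
          have h8 : (2 : ℝ) ^ (b * (2 * K)) ≤ U.card * 2 ^ (l * (2 * K)) := by
            exact_mod_cast hden
          have h9 : (2 : ℝ) ^ i * (2 * 2 ^ (b * (2 * K) - i)) ^ 2 * (2 ^ (i / 4)) ^ 2 *
              (2 ^ (l * (2 * K))) ^ 2 ≤ (2 ^ (b * (2 * K))) ^ 2 := by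
            have e := exp_arith hb hK hiK hin
            calc (2 : ℝ) ^ i * (2 * 2 ^ (b * (2 * K) - i)) ^ 2 * (2 ^ (i / 4)) ^ 2 *
                  (2 ^ (l * (2 * K))) ^ 2
                = 2 ^ (2 + (b * (2 * K) - i) * 2 + i + (i / 4) * 2 + (l * (2 * K)) * 2) := by
                  simp only [pow_add, pow_mul]
                  ring
              _ ≤ 2 ^ ((b * (2 * K)) * 2) := pow_le_pow_right₀ (by norm_num) e
              _ = (2 ^ (b * (2 * K))) ^ 2 := pow_mul _ _ _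
          have h10 : ((2 : ℝ) ^ (b * (2 * K))) ^ 2 ≤ (U.card * 2 ^ (l * (2 * K))) ^ 2 :=
            pow_le_pow_left₀ (by positivity) h8 2
          have h11 : (0 : ℝ) < (2 ^ (l * (2 * K))) ^ 2 := by positivity
          have h12 := h9.trans h10
          rw [mul_pow (U.card : ℝ)] at h12
          have h13 := le_of_mul_le_mul_right h12 h11
          rw [pow_two (U.card : ℝ)] at h13
          exact h13
        have h8 : (N * 2 ^ (i / 4)) ^ 2 ≤ ((U.card : ℝ) * U.card) ^ 2 := by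
          calc (N * 2 ^ (i / 4)) ^ 2 = N ^ 2 * (2 ^ (i / 4)) ^ 2 := mul_pow _ _ _
            _ ≤ (U.card : ℝ) * U.card * 2 ^ i * (2 * 2 ^ (b * (2 * K) - i)) ^ 2 *
                (2 ^ (i / 4)) ^ 2 := mul_le_mul_of_nonneg_right h6 (by positivity)
            _ = (U.card : ℝ) * U.card * (2 ^ i * (2 * 2 ^ (b * (2 * K) - i)) ^ 2 *
                (2 ^ (i / 4)) ^ 2) := by ring
            _ ≤ (U.card : ℝ) * U.card * ((U.card : ℝ) * U.card) :=
                mul_le_mul_of_nonneg_left h7 (by positivity)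
            _ = ((U.card : ℝ) * U.card) ^ 2 := by ring
        exact le_of_sq_le_sq h8 (by positivity)
      rw [hS2]
      calc ‖∑ t ∈ T, Sg (2 ^ R) (U ×ˢ U) (fun y => ((y.1 * y.2 : ℕ) : ZMod (2 ^ R)))
            (f * (g t : ZMod (2 ^ R)))‖ * 2 ^ (i / 4)
          ≤ (∑ t ∈ T, ‖Sg (2 ^ R) (U ×ˢ U) (fun y => ((y.1 * y.2 : ℕ) : ZMod (2 ^ R)))
            (f * (g t : ZMod (2 ^ R)))‖) * 2 ^ (i / 4) :=
            mul_le_mul_of_nonneg_right (norm_sum_le _ _) (by positivity)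
        _ = ∑ t ∈ T, ‖Sg (2 ^ R) (U ×ˢ U) (fun y => ((y.1 * y.2 : ℕ) : ZMod (2 ^ R)))
            (f * (g t : ZMod (2 ^ R)))‖ * 2 ^ (i / 4) := Finset.sum_mul _ _ _
        _ ≤ ∑ t ∈ T, (U.card : ℝ) * U.card := Finset.sum_le_sum hbil
        _ = T.card * ((U.card : ℝ) * U.card) := by
            rw [Finset.sum_const, nsmul_eq_mul]

/-- all levels -/
theorem fam_exists {b l : ℕ} (hb : 8 * l + 8 ≤ b) (J : ℕ) (hl : 4 * b * 2 ^ J ≤ 2 ^ l) :
    ∃ (τ : Type) (T : Finset τ) (g : τ → ℕ), Fam b (2 ^ (J + 2) - 3) (b * 2 ^ J) τ T g := by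
  induction J with
  | zero =>
    refine ⟨ℕ, Finset.range (2 ^ (b - 1)), fun y => 2 * y + 1, ?_⟩
    rw [pow_zero, mul_one]
    exact fam_base (by omega)
  | succ J ih =>
    obtain ⟨τ, T, g, h⟩ := ih (by
      refine le_trans ?_ hl
      exact Nat.mul_le_mul_left _ (Nat.pow_le_pow_right (by norm_num) (by omega)))
    have h1 := fam_step (K := 2 ^ J) hb Nat.one_le_two_pow (by rw [← pow_succ']; exact hl) h
    have e1 : 2 ^ (J + 2) - 3 + (2 * 2 ^ J + 2 * 2 ^ J) = 2 ^ (J + 1 + 2) - 3 := by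
      have : 4 ≤ 2 ^ (J + 2) := by
        calc 4 = 2 ^ 2 := by norm_num
          _ ≤ 2 ^ (J + 2) := Nat.pow_le_pow_right (by norm_num) (by omega)
      have e2 : 2 ^ (J + 2) = 4 * 2 ^ J := by rw [pow_add]; ring
      have e3 : 2 ^ (J + 1 + 2) = 8 * 2 ^ J := by rw [pow_add, pow_add]; ring
      omega
    have e2 : 2 * 2 ^ J = 2 ^ (J + 1) := by rw [pow_succ']
    rw [e1] at h1
    rw [e2] at h1
    exact ⟨_, _, _, h1⟩

end HadNT
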