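import Pool.Agent.Lib_MP_008adc_oct.ORep

/-!
# From the frozen form of part (B) to `RepZ`
-/

set_option autoImplicit false

namespace HadNT

/-- the frozen form of (B9) -/
def RepB : Prop := ∀ e d : ℕ, 4 * e + 40 ≤ d → ∀ z : ℕ, 2 ^ (1000 * (1000 * (d + 1))) ≤ z →
  z < 2 ^ (2 ^ e) → ∃ (K R w eps : ℕ) (L : Fin 16 → List ℕ),
    (∀ i, (L i).length = K + 1 ∧ ∀ x ∈ L i, 1 ≤ x ∧ x < 2 ^ (1000 * (d + 1))) ∧ eps ≤ 1 ∧
      w < 2 ^ (2 * (1000 * (d + 1)) + 5) ∧ K * (500 * (d + 1)) ≤ Nat.log 2 z ∧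
      z = eps + ∑ i, (L i).prod + 2 ^ R * w

theorem two_mono {m n : ℕ} (h : m ≤ n) : 2 ^ m ≤ 2 ^ n := Nat.pow_le_pow_right (by norm_num) h

theorem conv_aux {e b : ℕ} (hb : 42000 * (e + 1) ≤ b) : ∃ d, 1000 * (d + 1) ≤ b ∧
    b ≤ 1100 * (d + 1) ∧ 1000 * (1000 * (d + 1)) ≤ 1000 * b ∧
    2 * (1000 * (d + 1)) + 5 ≤ 1000 * b ∧ 4 * e + 40 ≤ d := by
  obtain ⟨d, hd⟩ : ∃ d, d + 1 = b / 1000 := ⟨b / 1000 - 1, by omega⟩
  have hd1 : 1000 * (d + 1) ≤ b := by omega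
  have hd2 : b < 1000 * (d + 2) := by omega
  clear hd
  refine ⟨d, hd1, ?_, Nat.mul_le_mul_left _ hd1, ?_, ?_⟩
  · linarith
  · linarith
  · by_contra hc
    have : d + 1 ≤ 4 * e + 40 := by omega
    linarith

theorem repZ_of_repB (HB : RepB) : RepZ 42000 1000 := by
  intro e b z hb hz hz2
  obtain ⟨d, hd1, hd2, e1, e2, e5⟩ := conv_aux hb
  have e3 : 2 ^ (1000 * (1000 * (d + 1))) ≤ 2 ^ (1000 * b) :=
    two_mono e1
  have e4 : 2 ^ (2 * (1000 * (d + 1)) + 5) ≤ 2 ^ (1000 * b) :=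
    two_mono e2
  obtain ⟨K, R, w, eps, L, hL, heps, hw, hK, hzz⟩ := HB e d e5 z (e3.trans hz) hz2
  refine ⟨K + 1, R, w, eps, fun i => (L i).prod, heps, lt_of_lt_of_le hw e4, hzz, ?_,
    fun i => ?_⟩
  · have hz0 : z ≠ 0 := by
      have : 0 < 2 ^ (1000 * b) := by positivity
      omega
    have h1 : 1000 * b ≤ Nat.log 2 z := Nat.le_log_of_pow_le (by norm_num) hz
    have h2 : K * b ≤ K * (1100 * (d + 1)) := Nat.mul_le_mul_left _ hd2
    have h3 : K * (1100 * (d + 1)) ≤ 3 * Nat.log 2 z := by nlinarith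
    have h4 : (K + 1) * b = K * b + b := by ring
    omega
  · obtain ⟨h1, h2⟩ := hL i
    refine ⟨fun j => (L i).get (Fin.cast h1.symm j), fun j => ?_, ?_⟩
    · exact lt_of_lt_of_le (h2 _ (List.get_mem _ _)).2 (two_mono hd1)
    · show (L i).prod = _
      have h3 : ∏ j : Fin (K + 1), (L i).get (Fin.cast h1.symm j) =
          ∏ j : Fin (L i).length, (L i).get j :=
        Fintype.prod_equiv (finCongr h1.symm) _ _ fun j => rfl
      rw [h3, ← List.prod_ofFn, List.ofFn_get]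

end HadNT
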