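import Pool.Agent.Lib_MP_008adc_oct.OUni
import Pool.Agent.Lib_MP_008adc_oct.OStarK
import Pool.Agent.Lib_MP_008adc_co.DetU

/-!
# From part (B) (`RepZ`) to all final forms
-/

set_option autoImplicit false

namespace HadCalc

open HadNT

/-- Hadamard matrices of order `2 ^ t q` for all `0 < q < tow j` and `t ≥ C ^ j`. -/
theorem hadOrder_star_of_repZ {Cb C1 : ℕ} (HB : RepZ Cb C1) :
    ∃ C : ℕ, 1 ≤ C ∧ ∀ j q t : ℕ, 0 < q → q < tow j → C ^ j ≤ t → HadOrder (2 ^ t * q) := by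
  obtain ⟨D, hD⟩ := Cov.giantU HB
  exact star_of D 29 hD

/-- Exact values of the maximal determinant. -/
theorem maxDet_star_of_repZ {Cb C1 : ℕ} (HB : RepZ Cb C1) :
    ∃ C : ℕ, 1 ≤ C ∧ ∀ j q t : ℕ, 0 < q → q < tow j → C ^ j ≤ t →
      maxDet (2 ^ t * q) = ((2 ^ t * q : ℕ) : ℝ) ^ (((2 ^ t * q : ℕ) : ℝ) / 2) := by
  obtain ⟨C, hC, h⟩ := hadOrder_star_of_repZ HB
  exact ⟨C, hC, fun j q t hq hj ht =>
    maxDet_eq (Nat.mul_pos (Nat.two_pow_pos t) hq) (h j q t hq hj ht)⟩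

/-- The lower bound for all `n`. -/
theorem rDet_star_of_repZ {Cb C1 : ℕ} (HB : RepZ Cb C1) :
    ∃ C : ℕ, 1 ≤ C ∧ ∀ j n : ℕ, 0 < n → n < tow j →
      Real.exp (-Real.exp ((C : ℝ) ^ j)) ≤ rDet n :=
  rDet_star_of (hadOrder_star_of_repZ HB)

/-- For every `k`, Hadamard matrices of order `2 ^ t q` for all large `q` and `t ≥ log^[k] q`. -/
theorem hadOrder_iter_of_repZ {Cb C1 : ℕ} (HB : RepZ Cb C1) (k : ℕ) :
    ∃ q₀ : ℕ, ∀ q t : ℕ, q₀ ≤ q → Real.log^[k] q ≤ t → HadOrder (2 ^ t * q) :=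
  hadOrder_iter_of (hadOrder_star_of_repZ HB) k

/-- For every `k`, `r(n) ≥ 1 / log^[k] n` for all large `n`. -/
theorem rDet_iter_of_repZ {Cb C1 : ℕ} (HB : RepZ Cb C1) (k : ℕ) :
    ∃ n₀ : ℕ, ∀ n : ℕ, n₀ ≤ n → 0 < Real.log^[k] n ∧ 1 / Real.log^[k] n ≤ rDet n :=
  rDet_iter_of (rDet_star_of_repZ HB) k

end HadCalc
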