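import Pool.Agent.Lib_MP_008adc_oct.OEnd
import Pool.Agent.Lib_MP_008adc_oct.OConv
import Pool.Agent.Lib_MP_008adc_t3.RepB

/-!
# The final forms, without hypotheses
-/

set_option autoImplicit false

namespace HadCalc

/-- Part (B), in the form used by the recursion. -/
theorem repZ_final : HadNT.RepZ 42000 1000 :=
  HadNT.repZ_of_repB fun e d hd z h1 h2 => HadT3.repB e d hd z h1 h2

/-- Hadamard matrices of order `2 ^ t q` for all `0 < q < tow j` and `t ≥ C ^ j`. -/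
theorem hadOrder_star :
    ∃ C : ℕ, 1 ≤ C ∧ ∀ j q t : ℕ, 0 < q → q < tow j → C ^ j ≤ t → HadOrder (2 ^ t * q) :=
  hadOrder_star_of_repZ repZ_final

/-- Exact values of the maximal determinant. -/
theorem maxDet_star :
    ∃ C : ℕ, 1 ≤ C ∧ ∀ j q t : ℕ, 0 < q → q < tow j → C ^ j ≤ t →
      maxDet (2 ^ t * q) = ((2 ^ t * q : ℕ) : ℝ) ^ (((2 ^ t * q : ℕ) : ℝ) / 2) :=
  maxDet_star_of_repZ repZ_final

/-- The lower bound for all `n`. -/
theorem rDet_star :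
    ∃ C : ℕ, 1 ≤ C ∧ ∀ j n : ℕ, 0 < n → n < tow j →
      Real.exp (-Real.exp ((C : ℝ) ^ j)) ≤ rDet n :=
  rDet_star_of_repZ repZ_final

/-- For every `k`, Hadamard matrices of order `2 ^ t q` for all large `q` and `t ≥ log^[k] q`. -/
theorem hadOrder_iter (k : ℕ) :
    ∃ q₀ : ℕ, ∀ q t : ℕ, q₀ ≤ q → Real.log^[k] q ≤ t → HadOrder (2 ^ t * q) :=
  hadOrder_iter_of hadOrder_star k

/-- For every `k`, `r(n) ≥ 1 / log^[k] n` for all large `n`. -/
theorem rDet_iter (k : ℕ) :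
    ∃ n₀ : ℕ, ∀ n : ℕ, n₀ ≤ n → 0 < Real.log^[k] n ∧ 1 / Real.log^[k] n ≤ rDet n :=
  rDet_iter_of rDet_star k

end HadCalc
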