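import Pool.Agent.Lib_MP_008adc_oct.OStar
import Pool.Agent.Lib_MP_008adc_oct.DetK

/-!
# From Hadamard orders to the normalised maximal determinant, log star form
-/

set_option autoImplicit false

namespace HadCalc

theorem hadOrder_one : HadOrder 1 := by
  have := HadOrder.one
  exact this

/-- If all `2 ^ t q` with `0 < q ≤ n` are Hadamard orders then `r(n) ≥ exp (-exp (t + 1))`. -/
theorem rDet_of_exp {n t : ℕ} (hn : 0 < n)
    (H : ∀ q : ℕ, 0 < q → q ≤ n → HadOrder (2 ^ t * q)) :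
    Real.exp (-Real.exp ((t : ℝ) + 1)) ≤ rDet n := by
  have key : ∀ d : ℕ, d ≤ 2 ^ t → Real.exp (-Real.exp ((t : ℝ) + 1)) ≤ (1 / 5 : ℝ) ^ d := by
    intro d hd
    have h1 : (1 / 5 : ℝ) ^ (2 ^ t) ≤ (1 / 5 : ℝ) ^ d :=
      pow_le_pow_of_le_one (by norm_num) (by norm_num) hd
    refine le_trans ?_ h1
    have h5 : Real.exp (-2) ≤ 1 / 5 := by
      rw [Real.exp_neg, ← one_div]
      apply one_div_le_one_div_of_le (by norm_num)
      have h6 : Real.exp 2 = Real.exp 1 * Real.exp 1 := by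
        rw [← Real.exp_add]
        norm_num
      rw [h6]
      have h7 := Real.exp_one_gt_d9
      nlinarith
    have h2 : Real.exp (-2) ^ (2 ^ t) ≤ (1 / 5 : ℝ) ^ (2 ^ t) :=
      pow_le_pow_left₀ (Real.exp_pos _).le h5 _
    refine le_trans ?_ h2
    rw [← Real.exp_nat_mul]
    apply Real.exp_le_exp.2
    push_cast
    have h3 : (2 : ℝ) ^ t ≤ Real.exp t := by
      have h8 : (2 : ℝ) ≤ Real.exp 1 := by
        have := Real.exp_one_gt_d9
        linarith
      calc (2 : ℝ) ^ t ≤ Real.exp 1 ^ t := pow_le_pow_left₀ (by norm_num) h8 t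
        _ = Real.exp t := by rw [← Real.exp_nat_mul, mul_one]
    have h9 : Real.exp ((t : ℝ) + 1) = Real.exp t * Real.exp 1 := Real.exp_add _ _
    have h10 := Real.exp_one_gt_d9
    have h11 := Real.exp_pos (t : ℝ)
    rw [h9]
    nlinarith
  rcases Nat.eq_zero_or_pos (n / 2 ^ t) with hq | hq
  · have hnt : n < 2 ^ t := by
      rcases (Nat.div_eq_zero_iff).1 hq with h3 | h3
      · exact absurd h3 (by positivity)
      · exact h3
    exact (key (n - 1) (by omega)).trans (rDet_lower5 Nat.one_pos hn hadOrder_one)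
  · have hmn : 2 ^ t * (n / 2 ^ t) ≤ n := Nat.mul_div_le n (2 ^ t)
    have hm0 : 0 < 2 ^ t * (n / 2 ^ t) := Nat.mul_pos (by positivity) hq
    have hH := H (n / 2 ^ t) hq (Nat.div_le_self _ _)
    refine (key (n - 2 ^ t * (n / 2 ^ t)) ?_).trans (rDet_lower5 hm0 hmn hH)
    have h4 : 2 ^ t * (n / 2 ^ t) + n % 2 ^ t = n := Nat.div_add_mod n (2 ^ t)
    have h5 : n % 2 ^ t < 2 ^ t := Nat.mod_lt n (by positivity)
    omega

/-- LOG STAR FORM: `r(n) ≥ exp (-exp (C ^ j))` for `0 < n < tow j`. -/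
theorem rDet_star_of (H : ∃ C : ℕ, 1 ≤ C ∧ ∀ j q t : ℕ, 0 < q → q < tow j → C ^ j ≤ t →
    HadOrder (2 ^ t * q)) :
    ∃ C : ℕ, 1 ≤ C ∧ ∀ j n : ℕ, 0 < n → n < tow j →
      Real.exp (-Real.exp ((C : ℝ) ^ j)) ≤ rDet n := by
  obtain ⟨C, hC, h⟩ := H
  refine ⟨2 * C, by omega, fun j n hn hnj => ?_⟩
  cases j with
  | zero =>
    have : tow 0 = 1 := rfl
    omega
  | succ j =>
    have h1 := rDet_of_exp (n := n) (t := C ^ (j + 1)) hn
      (fun q hq hqn => h (j + 1) q (C ^ (j + 1)) hq (lt_of_le_of_lt hqn hnj) le_rfl)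
    refine le_trans (Real.exp_le_exp.2 (neg_le_neg (Real.exp_le_exp.2 ?_))) h1
    have h2 : C ^ (j + 1) + 1 ≤ (2 * C) ^ (j + 1) := by
      rw [mul_pow]
      have h3 : 2 ^ 1 ≤ 2 ^ (j + 1) := Nat.pow_le_pow_right (by norm_num) (by omega)
      have h4 : 1 ≤ C ^ (j + 1) := Nat.one_le_pow _ _ hC
      nlinarith
    have h5 : ((C ^ (j + 1) + 1 : ℕ) : ℝ) ≤ (((2 * C) ^ (j + 1) : ℕ) : ℝ) := by exact_mod_cast h2
    push_cast at h5 ⊢
    exact h5

end HadCalc
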