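import Pool.Agent.Lib_MP_008adc_oct.OBig

/-!
# The giant step, uniform in `f`
-/

set_option autoImplicit false

namespace HadCalc

open HadNT

/-- The giant step, with a constant that does not depend on `f`. -/
theorem Cov.giantU {Cb C1 : ℕ} (HB : RepZ Cb C1) : ∃ D : ℕ, ∀ e f c : ℕ,
    Cov (D * ((f + 1) * (e + 8))) f c → Cov (2 ^ e) (f + 2) (29 * (c + 3 * f + 7)) := by
  obtain ⟨L, hL⟩ : ∃ L, L = 0 + 12 + Cb := ⟨_, rfl⟩
  obtain ⟨A, hA⟩ : ∃ A, A = 2 ^ L := ⟨_, rfl⟩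
  have hA1 : 4096 * (0 + 1) + Cb ≤ A := by
    rw [hA, hL]
    exact two_pow_big 0 Cb
  have hA2 : 64 * L ≤ A := by
    have h1 : 2 ^ L = 2 ^ Cb * 4096 := by
      rw [hL, show 0 + 12 + Cb = Cb + 12 by ring, pow_add]; norm_num
    have h2 : Cb + 1 ≤ 2 ^ Cb := Nat.lt_two_pow_self
    rw [hA, h1]
    omega
  refine ⟨(C1 + 8) * A, fun e f c h => ?_⟩
  obtain ⟨y, hy⟩ : ∃ y, y = (f + 1) * (e + 8) := ⟨_, rfl⟩
  rw [← hy] at h
  have hye : e + 8 * f + 8 ≤ y := by rw [hy]; nlinarith [Nat.zero_le (f * e)]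
  have hyw : (2 * f + 4) * (e + 1) ≤ 4 * y := by rw [hy]; nlinarith [Nat.zero_le (f * e)]
  have hy2 : y ≤ 2 ^ (f + (e + 3)) := by
    have h1 : f + 1 ≤ 2 ^ f := Nat.lt_two_pow_self
    have h2 : e + 1 ≤ 2 ^ e := Nat.lt_two_pow_self
    have h3 : e + 8 ≤ 2 ^ (e + 3) := by
      have : 2 ^ (e + 3) = 2 ^ e * 8 := by rw [pow_add]; norm_num
      omega
    rw [hy, pow_add]
    exact Nat.mul_le_mul h1 h3
  have h4096 : 4096 * y ≤ A * y := Nat.mul_le_mul_right _ (by omega)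
  have hAy : A * 1 ≤ A * y := Nat.mul_le_mul_left _ (by omega)
  have hLy : 64 * L ≤ A * y := by omega
  have hC1 : C1 * (A * y) ≤ (C1 + 8) * A * y := by
    calc C1 * (A * y) ≤ (C1 + 8) * (A * y) := Nat.mul_le_mul_right _ (by omega)
      _ = (C1 + 8) * A * y := by ring
  have h8 : 8 * (A * y) ≤ (C1 + 8) * A * y := by
    calc 8 * (A * y) ≤ (C1 + 8) * (A * y) := Nat.mul_le_mul_right _ (by omega)
      _ = (C1 + 8) * A * y := by ring
  refine Cov.giant' HB (a := A * y) (l := 2 * e + f + L + 5) h ?_ hC1 ?_ ?_ ?_ ?_ ?_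
  · calc Cb * (e + 1) ≤ A * (e + 1) := Nat.mul_le_mul_right _ (by omega)
      _ ≤ A * y := Nat.mul_le_mul_left _ (by omega)
  · omega
  · omega
  · calc 4 * (A * y) * 2 ^ e ≤ 4 * (A * 2 ^ (f + (e + 3))) * 2 ^ e :=
          Nat.mul_le_mul_right _ (Nat.mul_le_mul_left _ (Nat.mul_le_mul_left _ hy2))
      _ = 2 ^ (2 * e + f + L + 5) := by
          rw [hA]
          simp only [pow_add]
          ring
  · omega
  · omega

end HadCalc
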