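import Pool.Agent.Lib_MP_008adc_oct.OConv
import Pool.Agent.Lib_MP_008adc_oct.OUni
import Pool.Agent.Lib_MP_008adc_oct.OStarDet

/-!
# Log star form from the number theoretic input
-/

set_option autoImplicit false

namespace HadCalc

/-- Hadamard orders in log star form, from the representation theorem (B). -/
theorem hadOrder_star_of {Cb C1 : ℕ} (HB : HadNT.RepZ Cb C1) : ∃ C : ℕ, 1 ≤ C ∧
    ∀ j q t : ℕ, 0 < q → q < tow j → C ^ j ≤ t → HadOrder (2 ^ t * q) := by
  obtain ⟨D, hD⟩ := Cov.giantU HB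
  exact star_of D 29 hD

/-- `r(n)` in log star form, from the representation theorem (B). -/
theorem rDet_star_of' {Cb C1 : ℕ} (HB : HadNT.RepZ Cb C1) : ∃ C : ℕ, 1 ≤ C ∧
    ∀ j n : ℕ, 0 < n → n < tow j → Real.exp (-Real.exp ((C : ℝ) ^ j)) ≤ rDet n :=
  rDet_star_of (hadOrder_star_of HB)

end HadCalc
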