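import Pool.Agent.Lib_MP_008adc_oct.OStar
import Pool.Agent.Lib_MP_3de5be_an.RStA
import Pool.Agent.Lib_MP_3de5be_an.RStB
import Pool.Agent.Lib_MP_3de5be_trip.Quad

/-!
# Real frames attaining the Welch bound, log star forms (generic in the main theorem)
-/

set_option autoImplicit false

namespace HadCalc

/-- FRAMES, first family: `n ^ 2` vectors. -/
theorem frames_star_of (H : ∃ C : ℕ, 1 ≤ C ∧ ∀ j q t : ℕ, 0 < q → q < tow j → C ^ j ≤ t →
    HadOrder (2 ^ t * q)) :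
    ∃ C : ℕ, 1 ≤ C ∧ ∀ j q t : ℕ, 0 < q → q < tow j → C ^ j ≤ t →
      ∀ n d : ℕ, n = 2 ^ t * q → (d = n * (n - 1) / 2 ∨ d = n * (n + 1) / 2) →
        RealETF.cFrame (n ^ 2) d =
          Real.sqrt ((((n ^ 2 : ℕ) : ℝ) - d) / (d * (((n ^ 2 : ℕ) : ℝ) - 1))) := by
  obtain ⟨C, hC, h⟩ := H
  refine ⟨2 * C, by omega, fun j q t hq0 hq ht n d hn hd => ?_⟩
  have hj : j ≠ 0 := by
    rintro rfl
    have : tow 0 = 1 := rfl
    omega
  have hCt : C ^ j ≤ t := (Nat.pow_le_pow_left (by omega) j).trans ht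
  have ht2 : 2 ≤ t := by
    refine le_trans ?_ ht
    calc 2 = 2 ^ 1 := by norm_num
      _ ≤ 2 ^ j := Nat.pow_le_pow_right (by norm_num) (by omega)
      _ ≤ (2 * C) ^ j := Nat.pow_le_pow_left (by omega) j
  have h4 : 4 ≤ n := by
    rw [hn]
    calc 4 = 2 ^ 2 * 1 := by norm_num
      _ ≤ 2 ^ t * q := Nat.mul_le_mul (Nat.pow_le_pow_right (by norm_num) ht2) hq0
  have hH : HadOrder n := by rw [hn]; exact h j q t hq0 hq hCt
  rcases hd with hd | hd
  · rw [hd]; exact RealETF.steiner_minus h4 hH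
  · rw [hd]; exact RealETF.steiner_plus h4 hH

/-- FRAMES, second family: `n (2 n ∓ 1)` vectors. -/
theorem triples_star_of (H : ∃ C : ℕ, 1 ≤ C ∧ ∀ j q t : ℕ, 0 < q → q < tow j → C ^ j ≤ t →
    HadOrder (2 ^ t * q)) :
    ∃ C : ℕ, 1 ≤ C ∧ ∀ j q t : ℕ, ¬ 3 ∣ q → q < tow j → C ^ j ≤ t → ∀ n N d : ℕ, n = 2 ^ t * q →
      ((N = n * (2 * n - 1) ∧
          (3 * d = (n - 1) * (2 * n - 1) ∨ 3 * d = (2 * n + 1) * (2 * n - 1))) ∨
        (N = n * (2 * n + 1) ∧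
          (3 * d = (n + 1) * (2 * n + 1) ∨ 3 * d = (2 * n + 1) * (2 * n - 1)))) →
        RealETF.cFrame N d = Real.sqrt (((N : ℝ) - d) / (d * ((N : ℝ) - 1))) := by
  obtain ⟨C, hC, h⟩ := H
  refine ⟨2 * C, by omega, fun j q t h3 hq ht n N d hn hNd => ?_⟩
  have hq0 : 0 < q := by
    rcases Nat.eq_zero_or_pos q with h0 | h0
    · exact absurd (by rw [h0]; exact dvd_zero 3) h3
    · exact h0
  have hj : j ≠ 0 := by
    rintro rfl
    have : tow 0 = 1 := rfl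
    omega
  have hCt : C ^ j ≤ t := (Nat.pow_le_pow_left (by omega) j).trans ht
  have ht2 : 2 ≤ t := by
    refine le_trans ?_ ht
    calc 2 = 2 ^ 1 := by norm_num
      _ ≤ 2 ^ j := Nat.pow_le_pow_right (by norm_num) (by omega)
      _ ≤ (2 * C) ^ j := Nat.pow_le_pow_left (by omega) j
  have he : Even n := by
    rw [hn]
    exact (Nat.even_pow.2 ⟨even_two, by omega⟩).mul_right q
  have hn3 : n % 3 ≠ 0 := by
    intro h0
    have h1 : 3 ∣ 2 ^ t * q := by rw [← hn]; exact Nat.dvd_of_mod_eq_zero h0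
    rcases (Nat.Prime.dvd_mul Nat.prime_three).1 h1 with h2 | h2
    · have := Nat.Prime.dvd_of_dvd_pow Nat.prime_three h2
      omega
    · exact h3 h2
  have hn4 : 4 ≤ n := by
    rw [hn]
    calc 4 = 2 ^ 2 * 1 := by norm_num
      _ ≤ 2 ^ t * q := Nat.mul_le_mul (Nat.pow_le_pow_right (by norm_num) ht2) hq0
  have hH : HadOrder n := by rw [hn]; exact h j q t hq0 hq hCt
  have hH2 : HadOrder (2 * n) := by
    have h1 : 2 * n = 2 ^ (t + 1) * q := by rw [hn, pow_succ]; ring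
    rw [h1]
    exact h j q (t + 1) hq0 hq (by omega)
  exact RealETF.quad he hn3 hn4 hH hH2 hNd

end HadCalc
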