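import Pool.Agent.Lib_MP_008adc_oct.OStarK

/-!
# All multiples of a tiny power of two are Hadamard orders
-/

set_option autoImplicit false

namespace HadCalc

/-- For every `k` and all large `x` there is `t` with `2 ^ t ≤ log^[k] x` such that every positive multiple of `2 ^ t`
up to `x` is the order of a Hadamard matrix. -/
theorem multiples_of (H : ∃ C : ℕ, 1 ≤ C ∧ ∀ j q t : ℕ, 0 < q → q < tow j → C ^ j ≤ t →
    HadOrder (2 ^ t * q)) (k : ℕ) :
    ∃ x₀ : ℕ, ∀ x : ℕ, x₀ ≤ x → ∃ t : ℕ, ((2 ^ t : ℕ) : ℝ) ≤ Real.log^[k] x ∧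
      ∀ m : ℕ, 0 < m → m ≤ x → 2 ^ t ∣ m → HadOrder m := by
  obtain ⟨C, _, h⟩ := H
  obtain ⟨n₀, hn₀⟩ := star_growth C k
  refine ⟨n₀, fun x hx => ?_⟩
  obtain ⟨j, hj, hle⟩ := hn₀ x hx
  refine ⟨C ^ (j + 1), ?_, ?_⟩
  · refine le_trans ?_ hle
    have h1 : (2 : ℝ) ^ (C ^ (j + 1)) ≤ Real.exp ((C : ℝ) ^ (j + 1)) := by
      have h2 : (2 : ℝ) ≤ Real.exp 1 := by
        have := Real.add_one_le_exp (1 : ℝ)
        linarith
      calc (2 : ℝ) ^ (C ^ (j + 1)) ≤ (Real.exp 1) ^ (C ^ (j + 1)) := by gcongr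
        _ = Real.exp ((C : ℝ) ^ (j + 1)) := by
          rw [← Real.exp_nat_mul, mul_one]
          push_cast
          rfl
    have h3 : Real.exp ((C : ℝ) ^ (j + 1)) ≤ Real.exp (Real.exp ((C : ℝ) ^ (j + 1))) := by
      apply Real.exp_le_exp.2
      have := Real.add_one_le_exp ((C : ℝ) ^ (j + 1))
      linarith
    push_cast
    exact h1.trans h3
  · rintro m hm hmx ⟨q, rfl⟩
    have hq : 0 < q := by
      rcases Nat.eq_zero_or_pos q with h1 | h1
      · rw [h1, mul_zero] at hm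
        omega
      · exact h1
    have hqx : q ≤ x := (Nat.le_mul_of_pos_left q (Nat.two_pow_pos _)).trans hmx
    exact h (j + 1) q (C ^ (j + 1)) hq (hqx.trans_lt hj) le_rfl

end HadCalc
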