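import Pool.Agent.Lib_MP_008adc_oct.OBlk

/-!
# Every even class modulo `2 ^ R` is a sum of eight products of small numbers
-/

set_option autoImplicit false

namespace HadNT

theorem half_sum (b M : ℕ) (hM : b + 1 ≤ M) :
    (∑ j ∈ Finset.range M, if j ≤ b then (0 : ℝ) else (1 / 2) ^ j) + (1 / 2) ^ (M - 1) ≤
      (1 / 2) ^ b := by
  induction M, hM using Nat.le_induction with
  | base =>
    have h1 : (∑ j ∈ Finset.range (b + 1), if j ≤ b then (0 : ℝ) else (1 / 2) ^ j) = 0 := by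
      refine Finset.sum_eq_zero fun j hj => ?_
      rw [if_pos (by have := Finset.mem_range.1 hj; omega)]
    rw [h1, zero_add, Nat.add_sub_cancel]
  | succ M hM ih =>
    rw [Finset.sum_range_succ, if_neg (by omega), Nat.add_sub_cancel]
    have h1 : (1 / 2 : ℝ) ^ (M - 1) = 2 * (1 / 2) ^ M := by
      obtain ⟨m, rfl⟩ : ∃ m, M = m + 1 := ⟨M - 1, by omega⟩
      rw [Nat.add_sub_cancel, pow_succ]
      ring
    linarith

theorem card_order (R j : ℕ) (F : Finset (ZMod (2 ^ R)))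
    (hF : ∀ h ∈ F, addOrderOf h = 2 ^ j) : (F.card : ℝ) ≤ 2 ^ j := by
  classical
  have h1 : F ⊆ Finset.univ.filter (fun h : ZMod (2 ^ R) => (2 ^ j) • h = 0) := by
    intro h hh
    rw [Finset.mem_filter]
    refine ⟨Finset.mem_univ _, ?_⟩
    rw [← hF h hh]
    exact addOrderOf_nsmul_eq_zero h
  have h2 := IsAddCyclic.card_nsmul_eq_zero_le (α := ZMod (2 ^ R)) (n := 2 ^ j) (by positivity)
  have h3 := (Finset.card_le_card h1).trans h2
  exact_mod_cast h3

theorem psi_sumO (M : ℕ) [NeZero M] {ι : Type} (s : Finset ι) (f : ι → ZMod M) :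
    (ZMod.stdAddChar (∑ i ∈ s, f i) : ℂ) = ∏ i ∈ s, (ZMod.stdAddChar (f i) : ℂ) := by
  classical
  induction s using Finset.induction_on with
  | empty => rw [Finset.sum_empty, Finset.prod_empty, AddChar.map_zero_eq_one]
  | insert a s ha ih => rw [Finset.sum_insert ha, Finset.prod_insert ha, AddChar.map_add_eq_mul, ih]

theorem oct_cover {b m n : ℕ} {τ : Type} {T : Finset τ} {g : τ → ℕ} (H : Fam b m n τ T g)
    (hb : 8 ≤ b) {R : ℕ} (hR : R ≤ n) (N : ℕ) (hN : N % 2 = 0) :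
    ∃ x : Fin 8 → τ, (∀ i, x i ∈ T) ∧
      ((∑ i, g (x i) : ℕ) : ZMod (2 ^ R)) = (N : ZMod (2 ^ R)) := by
  classical
  by_contra hcon
  push Not at hcon
  set S : ZMod (2 ^ R) → ℂ := fun h => Sg (2 ^ R) T (fun t => (g t : ZMod (2 ^ R))) h with hS
  have hT0 : (0 : ℝ) < T.card := by exact_mod_cast Finset.card_pos.2 H.ne
  have hsum : ∑ h : ZMod (2 ^ R), S h ^ 8 * (ZMod.stdAddChar (-(h * (N : ZMod (2 ^ R)))) : ℂ) = 0 := by
    have h1 : ∀ h : ZMod (2 ^ R), S h ^ 8 * (ZMod.stdAddChar (-(h * (N : ZMod (2 ^ R)))) : ℂ) =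
        ∑ x ∈ Fintype.piFinset (fun _ : Fin 8 => T),
          (ZMod.stdAddChar (h * (((∑ i, g (x i) : ℕ) : ZMod (2 ^ R)) - (N : ZMod (2 ^ R)))) : ℂ) := by
      intro h
      have h2 : S h ^ 8 = ∏ _i : Fin 8, S h := by
        rw [Finset.prod_const, Finset.card_univ, Fintype.card_fin]
      rw [h2, hS]
      simp only [Sg]
      rw [Finset.prod_univ_sum, Finset.sum_mul]
      refine Finset.sum_congr rfl fun x _ => ?_
      rw [← psi_sumO, ← AddChar.map_add_eq_mul]
      congr 1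
      rw [← Finset.mul_sum]
      push_cast
      ring
    rw [Finset.sum_congr rfl (fun h _ => h1 h), Finset.sum_comm]
    refine Finset.sum_eq_zero fun x hx => ?_
    rw [orth, if_neg]
    intro h0
    exact hcon x (fun i => Fintype.mem_piFinset.1 hx i) (sub_eq_zero.1 h0)
  -- the frequencies of order at most two
  have htriv : ∀ h : ZMod (2 ^ R), 2 * h = 0 →
      S h ^ 8 * (ZMod.stdAddChar (-(h * (N : ZMod (2 ^ R)))) : ℂ) = (T.card : ℂ) ^ 8 := by
    intro h h2
    have hN' : h * (N : ZMod (2 ^ R)) = 0 := by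
      obtain ⟨k, hk⟩ := Nat.dvd_of_mod_eq_zero hN
      rw [hk]
      push_cast
      rw [← mul_assoc, mul_comm h 2, h2, zero_mul]
    have hg : ∀ t ∈ T, h * (g t : ZMod (2 ^ R)) = h := by
      intro t ht
      have h3 := H.odd t ht
      have h4 : g t = 2 * (g t / 2) + 1 := by omega
      rw [h4]
      push_cast
      rw [mul_add, ← mul_assoc, mul_comm h 2, h2, zero_mul, zero_add, mul_one]
    have hSh : S h = T.card * (ZMod.stdAddChar h : ℂ) := by
      rw [hS]
      simp only [Sg]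
      rw [Finset.sum_congr rfl (fun t ht => by rw [hg t ht]), Finset.sum_const, nsmul_eq_mul]
    have h8 : (ZMod.stdAddChar h : ℂ) ^ 8 = 1 := by
      rw [← AddChar.map_nsmul_eq_pow]
      have : (8 : ℕ) • h = 0 := by
        rw [nsmul_eq_mul]
        push_cast
        linear_combination 4 * h2
      rw [this, AddChar.map_zero_eq_one]
    rw [hN', neg_zero, AddChar.map_zero_eq_one, mul_one, hSh, mul_pow, h8, mul_one]
  -- the other frequencies
  set A : Finset (ZMod (2 ^ R)) := Finset.univ.filter (fun h => 2 * h = 0) with hA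
  set A' : Finset (ZMod (2 ^ R)) := Finset.univ.filter (fun h => ¬ 2 * h = 0) with hA'
  have hsplit := Finset.sum_filter_add_sum_filter_not (Finset.univ : Finset (ZMod (2 ^ R)))
    (fun h => 2 * h = 0) (fun h => S h ^ 8 * (ZMod.stdAddChar (-(h * (N : ZMod (2 ^ R)))) : ℂ))
  rw [hsum, ← hA, ← hA'] at hsplit
  have hA0 : (0 : ZMod (2 ^ R)) ∈ A := by
    rw [hA, Finset.mem_filter]
    exact ⟨Finset.mem_univ _, mul_zero _⟩
  have hAc : 1 ≤ A.card := Finset.card_pos.2 ⟨0, hA0⟩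
  have h1 : ∑ h ∈ A, S h ^ 8 * (ZMod.stdAddChar (-(h * (N : ZMod (2 ^ R)))) : ℂ) = A.card * (T.card : ℂ) ^ 8 := by
    rw [Finset.sum_congr rfl (fun h hh => htriv h (Finset.mem_filter.1 hh).2), Finset.sum_const,
      nsmul_eq_mul]
  rw [h1] at hsplit
  have h2 : (A.card : ℝ) * (T.card : ℝ) ^ 8 ≤ ∑ h ∈ A', ‖S h‖ ^ 8 := by
    have h3 : (A.card : ℂ) * (T.card : ℂ) ^ 8 =
        -∑ h ∈ A', S h ^ 8 * (ZMod.stdAddChar (-(h * (N : ZMod (2 ^ R)))) : ℂ) :=
      eq_neg_of_add_eq_zero_left hsplit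
    have h4 : ‖(A.card : ℂ) * (T.card : ℂ) ^ 8‖ = (A.card : ℝ) * (T.card : ℝ) ^ 8 := by
      rw [norm_mul, norm_pow, Complex.norm_natCast, Complex.norm_natCast]
    rw [← h4, h3, norm_neg]
    refine (norm_sum_le _ _).trans (Finset.sum_le_sum fun h _ => ?_)
    rw [norm_mul, norm_pow, ZMod.stdAddChar_apply, Circle.norm_coe, mul_one]
  -- sort the others by their order
  have hord : ∀ h : ZMod (2 ^ R), ∃ i, i ≤ R ∧ addOrderOf h = 2 ^ i := by
    intro h
    have h3 : addOrderOf h ∣ 2 ^ R := by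
      apply addOrderOf_dvd_of_nsmul_eq_zero
      rw [nsmul_eq_mul]
      have : ((2 ^ R : ℕ) : ZMod (2 ^ R)) = 0 := ZMod.natCast_self _
      rw [this, zero_mul]
    exact (Nat.dvd_prime_pow Nat.prime_two).1 h3
  have hlog : ∀ h : ZMod (2 ^ R), ∀ i, addOrderOf h = 2 ^ i →
      Nat.log 2 (addOrderOf h) = i := by
    intro h i hi
    rw [hi, Nat.log_pow (by norm_num)]
  have h3 : ∑ h ∈ A', ‖S h‖ ^ 8 ≤ ∑ j ∈ Finset.range (R + b + 2),
      (64 * (T.card : ℝ) ^ 8) * (if j ≤ b then (0 : ℝ) else (1 / 2) ^ j) := by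
    rw [← Finset.sum_fiberwise_of_maps_to (s := A') (t := Finset.range (R + b + 2))
      (g := fun h => Nat.log 2 (addOrderOf h)) (fun h _ => by
        obtain ⟨i, hi, hi'⟩ := hord h
        rw [hlog h i hi']
        exact Finset.mem_range.2 (by omega))]
    refine Finset.sum_le_sum fun j _ => ?_
    have h4 : ∀ h ∈ A'.filter (fun h => Nat.log 2 (addOrderOf h) = j),
        addOrderOf h = 2 ^ j ∧ 2 ≤ j ∧ j ≤ R := by
      intro h hh
      rw [Finset.mem_filter] at hh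
      obtain ⟨i, hi, hi'⟩ := hord h
      have h5 := hlog h i hi'
      rw [hh.2] at h5
      subst h5
      refine ⟨hi', ?_, hi⟩
      by_contra h6
      have h7 : ¬ 2 * h = 0 := (Finset.mem_filter.1 hh.1).2
      apply h7
      have h8 : addOrderOf h ∣ 2 := by
        rw [hi']
        have : j ≤ 1 := by omega
        calc 2 ^ j ∣ 2 ^ 1 := pow_dvd_pow 2 this
          _ = 2 := by norm_num
      have h9 := addOrderOf_dvd_iff_nsmul_eq_zero.1 h8
      rw [nsmul_eq_mul] at h9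
      exact_mod_cast h9
    rcases le_or_gt j b with hjb | hjb
    · rw [if_pos hjb, mul_zero]
      refine le_of_eq (Finset.sum_eq_zero fun h hh => ?_)
      obtain ⟨h5, h6, h7⟩ := h4 h hh
      have h8 : S h = 0 := H.zero R j h h5 h6 hjb
      rw [h8, norm_zero]
      norm_num
    · rw [if_neg (by omega)]
      have h5 : ∀ h ∈ A'.filter (fun h => Nat.log 2 (addOrderOf h) = j),
          ‖S h‖ ^ 8 ≤ 64 * (T.card : ℝ) ^ 8 * (1 / 4) ^ j := by
        intro h hh
        obtain ⟨h5, h6, h7⟩ := h4 h hh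
        have h8 : ‖S h‖ * 2 ^ (j / 4) ≤ T.card := H.small R j h h5 h6 (h7.trans hR)
        have h9 : (‖S h‖ * 2 ^ (j / 4)) ^ 8 ≤ (T.card : ℝ) ^ 8 :=
          pow_le_pow_left₀ (by positivity) h8 8
        have h10 : (4 : ℝ) ^ j ≤ 64 * (2 ^ (j / 4)) ^ 8 := by
          have h11 : 2 * j ≤ 6 + (j / 4) * 8 := by omega
          calc (4 : ℝ) ^ j = 2 ^ (2 * j) := by rw [pow_mul]; norm_num
            _ ≤ 2 ^ (6 + (j / 4) * 8) := pow_le_pow_right₀ (by norm_num) h11
            _ = 64 * (2 ^ (j / 4)) ^ 8 := by rw [pow_add, pow_mul]; norm_num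
        rw [one_div, inv_pow, ← div_eq_mul_inv, le_div_iff₀ (by positivity)]
        rw [mul_pow] at h9
        calc ‖S h‖ ^ 8 * 4 ^ j ≤ ‖S h‖ ^ 8 * (64 * (2 ^ (j / 4)) ^ 8) :=
              mul_le_mul_of_nonneg_left h10 (by positivity)
          _ = 64 * (‖S h‖ ^ 8 * (2 ^ (j / 4)) ^ 8) := by ring
          _ ≤ 64 * (T.card : ℝ) ^ 8 := by linarith
      have h6 := card_order R j (A'.filter (fun h => Nat.log 2 (addOrderOf h) = j))
        (fun h hh => (h4 h hh).1)
      calc ∑ h ∈ A'.filter (fun h => Nat.log 2 (addOrderOf h) = j), ‖S h‖ ^ 8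
          ≤ ∑ h ∈ A'.filter (fun h => Nat.log 2 (addOrderOf h) = j),
            64 * (T.card : ℝ) ^ 8 * (1 / 4) ^ j := Finset.sum_le_sum h5
        _ = ((A'.filter (fun h => Nat.log 2 (addOrderOf h) = j)).card : ℝ) *
            (64 * (T.card : ℝ) ^ 8 * (1 / 4) ^ j) := by rw [Finset.sum_const, nsmul_eq_mul]
        _ ≤ 2 ^ j * (64 * (T.card : ℝ) ^ 8 * (1 / 4) ^ j) :=
            mul_le_mul_of_nonneg_right h6 (by positivity)
        _ = 64 * (T.card : ℝ) ^ 8 * (1 / 2) ^ j := by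
            have : (2 : ℝ) ^ j * (1 / 4) ^ j = (1 / 2) ^ j := by
              rw [← mul_pow]; norm_num
            linear_combination (64 * (T.card : ℝ) ^ 8) * this
  rw [← Finset.mul_sum] at h3
  have h4 := half_sum b (R + b + 2) (by omega)
  have h5 : (1 / 2 : ℝ) ^ b ≤ 1 / 256 := by
    calc (1 / 2 : ℝ) ^ b ≤ (1 / 2) ^ 8 := pow_le_pow_of_le_one (by norm_num) (by norm_num) hb
      _ = 1 / 256 := by norm_num
  have h6 : (0 : ℝ) < (1 / 2) ^ (R + b + 2 - 1) := by positivity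
  have h7 : (1 : ℝ) ≤ A.card := by exact_mod_cast hAc
  have h8 : (0 : ℝ) < (T.card : ℝ) ^ 8 := by positivity
  have h9 : (∑ j ∈ Finset.range (R + b + 2), if j ≤ b then (0 : ℝ) else (1 / 2) ^ j) ≤ 1 / 256 := by
    linarith
  have h10 : 64 * (T.card : ℝ) ^ 8 * (∑ j ∈ Finset.range (R + b + 2),
      if j ≤ b then (0 : ℝ) else (1 / 2) ^ j) ≤ 64 * (T.card : ℝ) ^ 8 * (1 / 256) :=
    mul_le_mul_of_nonneg_left h9 (by positivity)
  have h11 : (T.card : ℝ) ^ 8 ≤ A.card * (T.card : ℝ) ^ 8 := by nlinarith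
  linarith

end HadNT
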