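import Pool.Agent.Lib_MP_008adc_co.NSet
import Pool.Agent.Lib_MP_008adc_co.NPi
import Pool.Agent.Lib_MP_008adc_co.NCond

/-!
# Products of `k` distinct odd primes
-/

set_option autoImplicit false

namespace HadNT

/-- The odd primes up to `A`. -/
def OP (A : ℕ) : Finset ℕ := ((Finset.range (A + 1)).filter Nat.Prime).erase 2

/-- The products of `k` distinct odd primes `≤ A`. -/
def OU (A k : ℕ) : Finset ℕ :=
  (Finset.powersetCard k (OP A)).image (fun s => ∏ p ∈ s, p)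

theorem OP_prime {A p : ℕ} (hp : p ∈ OP A) : p.Prime ∧ p ≤ A ∧ p % 2 = 1 := by
  unfold OP at hp
  rw [Finset.mem_erase, Finset.mem_filter, Finset.mem_range] at hp
  obtain ⟨h2, h3, h4⟩ := hp
  refine ⟨h4, by omega, ?_⟩
  rcases h4.eq_two_or_odd with h5 | h5
  · exact absurd h5 h2
  · exact h5

theorem OU_mem {A k u : ℕ} (hu : u ∈ OU A k) :
    ∃ s : Finset ℕ, (∀ p ∈ s, p ∈ OP A) ∧ s.card = k ∧ u = ∏ p ∈ s, p := by
  unfold OU at hu
  obtain ⟨s, hs, rfl⟩ := Finset.mem_image.1 hu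
  obtain ⟨h1, h2⟩ := Finset.mem_powersetCard.1 hs
  exact ⟨s, fun p hp => h1 hp, h2, rfl⟩

theorem OP_card {A : ℕ} (hA : 2 ≤ A) : (OP A).card + 1 = Nat.primeCounting A := by
  unfold OP
  rw [Finset.card_erase_add_one, Nat.primeCounting, Nat.primeCounting',
    Nat.count_eq_card_filter_range]
  rw [Finset.mem_filter, Finset.mem_range]
  exact ⟨by omega, Nat.prime_two⟩

theorem OU_card (A k : ℕ) : (OU A k).card = ((OP A).card).choose k := by
  unfold OU
  rw [Finset.card_image_of_injOn, Finset.card_powersetCard]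
  intro s hs s' hs' h
  have hp : ∀ t ∈ (Finset.powersetCard k (OP A) : Set (Finset ℕ)), ∀ p ∈ t, p.Prime := by
    intro t ht p hpt
    exact (OP_prime ((Finset.mem_powersetCard.1 (Finset.mem_coe.1 ht)).1 hpt)).1
  rw [← Nat.primeFactors_prod (hp s hs), ← Nat.primeFactors_prod (hp s' hs')]
  exact congrArg Nat.primeFactors h

theorem OU_bound {A k u : ℕ} (hu : u ∈ OU A k) : 1 ≤ u ∧ u ≤ A ^ k := by
  obtain ⟨s, hs, hk, rfl⟩ := OU_mem hu
  refine ⟨Finset.prod_pos fun p hp => (OP_prime (hs p hp)).1.pos, ?_⟩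
  rw [← hk]
  exact Finset.prod_le_pow_card s (fun p => p) A fun p hp => (OP_prime (hs p hp)).2.1

theorem OU_odd {A k u : ℕ} (hu : u ∈ OU A k) : u % 2 = 1 := by
  obtain ⟨s, hs, hk, rfl⟩ := OU_mem hu
  have : Odd (∏ p ∈ s, p) := by
    refine Finset.prod_induction (fun p => p) Odd (fun a b ha hb => ha.mul hb) odd_one ?_
    intro p hp
    exact Nat.odd_iff.2 (OP_prime (hs p hp)).2.2
  exact Nat.odd_iff.1 this

theorem OU_prod {b k u : ℕ} (hb : 1 ≤ b) (hu : u ∈ OU (2 ^ b) k) :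
    ∃ x : Fin k → ℕ, (∀ j, 1 ≤ x j ∧ x j < 2 ^ b) ∧ u = ∏ j, x j := by
  obtain ⟨s, hs, hk, rfl⟩ := OU_mem hu
  refine ⟨fun j => ((s.equivFinOfCardEq hk).symm j : ℕ), fun j => ?_, ?_⟩
  · obtain ⟨h1, h2, h3⟩ := OP_prime (hs _ ((s.equivFinOfCardEq hk).symm j).2)
    refine ⟨h1.pos, lt_of_le_of_ne h2 fun h4 => ?_⟩
    have h5 : (2 ^ b) % 2 = 1 := by
      rw [← h4]
      exact h3
    obtain ⟨c, rfl⟩ := Nat.exists_eq_add_of_le' hb
    rw [pow_succ, Nat.mul_mod_left] at h5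
    omega
  · rw [← Finset.prod_coe_sort s (fun p => p)]
    exact (Equiv.prod_comp (s.equivFinOfCardEq hk).symm (fun p : s => (p : ℕ))).symm

/-- The density. -/
theorem OU_density {b k l : ℕ} (hb : 1 ≤ b) (hk : 1 ≤ k) (hl : 4 * b * k ≤ 2 ^ l) (hlb : l ≤ b) :
    2 ^ (b * k) ≤ (OU (2 ^ b) k).card * 2 ^ (l * k) := by
  set n := (OP (2 ^ b)).card with hn
  have h1 : 2 ^ b ≤ 2 * b * (n + 1) := by
    have := pi_two_pow b hb
    rwa [← OP_card (A := 2 ^ b) (by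
      calc 2 = 2 ^ 1 := by norm_num
        _ ≤ 2 ^ b := Nat.pow_le_pow_right (by norm_num) hb)] at this
  have h2 : 4 * b * k ≤ 2 ^ b := hl.trans (Nat.pow_le_pow_right (by norm_num) hlb)
  have h3 : 1 ≤ n := by
    by_contra h0
    have h4 : n = 0 := by omega
    rw [h4] at h1
    nlinarith
  have h4 : 2 ^ b ≤ 4 * b * n := by nlinarith
  have h5 : k ≤ n := by
    by_contra h0
    push Not at h0
    have h6 : 4 * b * n < 4 * b * k := Nat.mul_lt_mul_of_pos_left h0 (by omega)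
    omega
  have h6 := pow_le_pow_mul_choose n k h5
  rw [OU_card, ← hn]
  calc 2 ^ (b * k) = (2 ^ b) ^ k := pow_mul _ _ _
    _ ≤ (4 * b * n) ^ k := Nat.pow_le_pow_left h4 k
    _ = (4 * b) ^ k * n ^ k := by rw [mul_pow]
    _ ≤ (4 * b) ^ k * (k ^ k * n.choose k) := Nat.mul_le_mul_left _ h6
    _ = (4 * b * k) ^ k * n.choose k := by rw [mul_pow (4 * b)]; ring
    _ ≤ (2 ^ l) ^ k * n.choose k := Nat.mul_le_mul_right _ (Nat.pow_le_pow_left hl k)
    _ = n.choose k * 2 ^ (l * k) := by rw [← pow_mul]; ring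

end HadNT
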