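import Pool.Agent.Lib_MP_008adc_oct.OBase
import Pool.Agent.Lib_MP_008adc_co.HadA

/-!
# Iteration of a step with a constant number of lengths: the log star form
-/

set_option autoImplicit false

namespace HadCalc

/-- The tower function: `tow 0 = 1`, `tow (j + 1) = 2 ^ tow j`. -/
def tow : ℕ → ℕ
  | 0 => 1
  | j + 1 => 2 ^ tow j

theorem tow_succ (j : ℕ) : tow (j + 1) = 2 ^ tow j := rfl

theorem one_le_tow (j : ℕ) : 1 ≤ tow j := by
  cases j with
  | zero => exact le_rfl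
  | succ j => exact Nat.one_le_two_pow

theorem Cov.had {a f c q t : ℕ} (h : Cov a f c) (hq0 : 0 < q) (hq : q < 2 ^ a)
    (ht : f + c + 1 ≤ t) : HadOrder (2 ^ t * q) := by
  have h1 := Av.hadOrder (h q hq) (by omega)
  have h2 := h1.two_pow_mul (t - (f + c + 1))
  have h3 : 2 ^ (t - (f + c + 1)) * (2 ^ (f + c) * (2 * q)) = 2 ^ t * q := by
    have h4 : t = (t - (f + c + 1)) + ((f + c) + 1) := by omega
    conv_rhs => rw [h4, pow_add, pow_succ]
    ring
  rwa [h3] at h2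

theorem star_num (D : ℕ) (hD : 2 ≤ D) : 3 * D * (D + 40) ≤ 2 ^ (D + 8) := by
  induction D, hD using Nat.le_induction with
  | base => norm_num
  | succ D hD ih =>
    have e1 : 2 ^ (D + 1 + 8) = 2 * 2 ^ (D + 8) := by ring
    rw [e1]
    nlinarith

theorem star_iter (D K : ℕ) (hD : 2 ≤ D)
    (H : ∀ e f c : ℕ, Cov (D * ((f + 1) * (e + 8))) f c →
      Cov (2 ^ e) (f + 2) (K * (c + 3 * f + 7))) :
    ∃ M : ℕ, 2 ≤ M ∧ ∀ j : ℕ, ∃ c : ℕ, c ≤ M ^ (j + 1) ∧
      Cov (3 * D * (D + 40) * (j + 1) ^ 2 * tow j) (2 * j + 2) c := by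
  refine ⟨10 * (3 * D * (D + 40)) + 14 * K + 2, by omega, fun j => ?_⟩
  set A : ℕ := 3 * D * (D + 40) with hA
  set M : ℕ := 10 * A + 14 * K + 2 with hM
  induction j with
  | zero =>
    refine ⟨10 * A, ?_, ?_⟩
    · rw [zero_add, pow_one, hM]
      omega
    · have h := Cov.baseS A
      have e1 : A * (0 + 1) ^ 2 * tow 0 = A := by
        show A * (0 + 1) ^ 2 * 1 = A
        ring
      rw [e1]
      exact h
  | succ j ih =>
    obtain ⟨c, hc, hcov⟩ := ih
    obtain ⟨T, hT⟩ : ∃ T, T = tow j := ⟨_, rfl⟩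
    have hT1 : 1 ≤ T := by
      rw [hT]
      exact one_le_tow j
    rw [← hT] at hcov
    obtain ⟨u, hu⟩ : ∃ u, u = (j + 1) * T := ⟨_, rfl⟩
    have hu1 : j + 1 ≤ u := by
      rw [hu]
      exact Nat.le_mul_of_pos_right _ hT1
    have huT : T ≤ u := by
      rw [hu]
      exact Nat.le_mul_of_pos_left _ (by omega)
    have h40 : (D + 40) * 1 ≤ (D + 40) * u := Nat.mul_le_mul_left _ (by omega)
    obtain ⟨e, he⟩ : ∃ e, e + 8 = (D + 40) * u := ⟨(D + 40) * u - 8, by omega⟩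
    have hstep : D * ((2 * j + 2 + 1) * (e + 8)) ≤ A * (j + 1) ^ 2 * T := by
      rw [he, hA, hu]
      calc D * ((2 * j + 2 + 1) * ((D + 40) * ((j + 1) * T)))
          ≤ D * ((3 * (j + 1)) * ((D + 40) * ((j + 1) * T))) := by
            apply Nat.mul_le_mul_left
            apply Nat.mul_le_mul_right
            omega
        _ = 3 * D * (D + 40) * (j + 1) ^ 2 * T := by ring
    have h1 := H e (2 * j + 2) c (hcov.monoS hstep le_rfl)
    refine ⟨K * (c + 3 * (2 * j + 2) + 7), ?_, ?_⟩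
    · have h2 : j + 1 ≤ 2 ^ (j + 1) := Nat.lt_two_pow_self.le
      have h3 : 2 ^ (j + 1) ≤ M ^ (j + 1) := Nat.pow_le_pow_left (by omega) _
      have h4 : c + 3 * (2 * j + 2) + 7 ≤ 14 * M ^ (j + 1) := by omega
      calc K * (c + 3 * (2 * j + 2) + 7) ≤ K * (14 * M ^ (j + 1)) := Nat.mul_le_mul_left _ h4
        _ = (14 * K) * M ^ (j + 1) := by ring
        _ ≤ M * M ^ (j + 1) := Nat.mul_le_mul_right _ (by omega)
        _ = M ^ (j + 1 + 1) := by ring
    · have h2 : A * (j + 1 + 1) ^ 2 * tow (j + 1) ≤ 2 ^ e := by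
        rw [tow_succ, ← hT]
        have h3 : j + 2 ≤ 2 ^ (j + 1) := by
          have := Nat.lt_two_pow_self (n := j + 1)
          omega
        have h4 : (j + 1 + 1) ^ 2 ≤ 2 ^ (2 * (j + 1)) := by
          calc (j + 1 + 1) ^ 2 ≤ (2 ^ (j + 1)) ^ 2 := Nat.pow_le_pow_left h3 2
            _ = 2 ^ (2 * (j + 1)) := by
              rw [← pow_mul]
              congr 1
              ring
        have h5 : D + 8 + 2 * (j + 1) + T ≤ e := by
          have h6 : D * 1 ≤ D * u := Nat.mul_le_mul_left _ (by omega)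
          have h7 : (D + 40) * u = D * u + 40 * u := by ring
          omega
        calc A * (j + 1 + 1) ^ 2 * 2 ^ T ≤ 2 ^ (D + 8) * 2 ^ (2 * (j + 1)) * 2 ^ T :=
              Nat.mul_le_mul_right _ (Nat.mul_le_mul (star_num D hD) h4)
          _ = 2 ^ (D + 8 + 2 * (j + 1) + T) := by rw [← pow_add, ← pow_add]
          _ ≤ 2 ^ e := Nat.pow_le_pow_right (by norm_num) h5
      have e2 : 2 * (j + 1) + 2 = 2 * j + 2 + 2 := by ring
      rw [e2]
      exact h1.monoS h2 le_rfl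

/-- THE LOG STAR FORM: a Hadamard matrix of order `2 ^ t q` for all `0 < q < tow j` and
`t ≥ C ^ j`. -/
theorem star_of (D K : ℕ)
    (H : ∀ e f c : ℕ, Cov (D * ((f + 1) * (e + 8))) f c →
      Cov (2 ^ e) (f + 2) (K * (c + 3 * f + 7))) :
    ∃ C : ℕ, 1 ≤ C ∧ ∀ j q t : ℕ, 0 < q → q < tow j → C ^ j ≤ t → HadOrder (2 ^ t * q) := by
  obtain ⟨M, hM2, hM⟩ := star_iter (D + 2) K (by omega) (fun e f c h =>
    H e f c (h.monoS (Nat.mul_le_mul_right _ (by omega)) le_rfl))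
  refine ⟨8 * M, by omega, fun j q t hq0 hq ht => ?_⟩
  cases j with
  | zero =>
    have : tow 0 = 1 := rfl
    omega
  | succ j =>
    obtain ⟨c, hc, hcov⟩ := hM j
    have h1 : tow j ≤ 3 * (D + 2) * (D + 2 + 40) * (j + 1) ^ 2 * tow j :=
      Nat.le_mul_of_pos_left _ (by positivity)
    refine (hcov.monoS h1 le_rfl).had hq0 hq (le_trans ?_ ht)
    have h2 : j + 1 ≤ 2 ^ (j + 1) := Nat.lt_two_pow_self.le
    have h3 : 2 ^ (j + 1) ≤ M ^ (j + 1) := Nat.pow_le_pow_left (by omega) _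
    have h4 : 8 ^ 1 ≤ 8 ^ (j + 1) := Nat.pow_le_pow_right (by norm_num) (by omega)
    rw [mul_pow]
    calc 2 * j + 2 + c + 1 ≤ 8 ^ 1 * M ^ (j + 1) := by omega
      _ ≤ 8 ^ (j + 1) * M ^ (j + 1) := Nat.mul_le_mul_right _ h4

end HadCalc
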